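import Pool.Agent.T9h82.SL.BLow

set_option autoImplicit false

/-!
# Formulas of quadratic size for parities
-/

namespace Pool.Agent.T9h82.SL

open Finset Classical
open Pool.Agent.T9h49.RK (PForm Rule Derives Refutes Ed Inc par outd indeg num num_inj sizeL Unsat
  sum_inc par_dich Uv Uv_nonempty card_Uv sizeL_flatMap)

/-- exclusive or -/
def xorF (A B : PForm) : PForm := .or (.and A (.neg B)) (.and (.neg A) B)

/-- parity of at most `2 ^ k` variables -/
def parF : ℕ → List ℕ → PForm
  | 0, [] => .and (.var 0) (.neg (.var 0))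
  | 0, n :: _ => .var n
  | k + 1, l => xorF (parF k (l.take (2 ^ k))) (parF k (l.drop (2 ^ k)))

def xorL (a : ℕ → Bool) (l : List ℕ) : Bool := l.foldr (fun n b => xor (a n) b) false

theorem xorL_append (a : ℕ → Bool) (l l' : List ℕ) :
    xorL a (l ++ l') = xor (xorL a l) (xorL a l') := by
  induction l with
  | nil => simp [xorL]
  | cons n l ih =>
    unfold xorL at ih ⊢
    simp only [List.cons_append, List.foldr_cons, ih]
    simp [Bool.xor_assoc]

theorem eval_parF (a : ℕ → Bool) (k : ℕ) : ∀ l : List ℕ, l.length ≤ 2 ^ k →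
    (parF k l).eval a = xorL a l := by
  induction k with
  | zero =>
    intro l hl
    rcases l with _ | ⟨n, l⟩
    · simp [parF, PForm.eval, xorL]
    · have : l = [] := by
        rw [List.length_cons] at hl
        exact List.eq_nil_of_length_eq_zero (by omega)
      subst this
      simp [parF, PForm.eval, xorL]
  | succ k ih =>
    intro l hl
    have h1 := ih (l.take (2 ^ k)) (by rw [List.length_take]; exact min_le_left _ _)
    have h2 := ih (l.drop (2 ^ k)) (by
      rw [List.length_drop]
      rw [pow_succ] at hl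
      omega)
    simp only [parF, xorF, PForm.eval, h1, h2]
    conv_rhs => rw [← List.take_append_drop (2 ^ k) l, xorL_append]
    cases xorL a (l.take (2 ^ k)) <;> cases xorL a (l.drop (2 ^ k)) <;> rfl

theorem size_parF (k : ℕ) : ∀ l : List ℕ, (parF k l).size + 2 ≤ 6 * 4 ^ k := by
  induction k with
  | zero =>
    intro l
    rcases l with _ | ⟨n, l⟩ <;> simp [parF, PForm.size]
  | succ k ih =>
    intro l
    have h1 := ih (l.take (2 ^ k))
    have h2 := ih (l.drop (2 ^ k))
    simp only [parF, xorF, PForm.size]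
    rw [pow_succ]
    omega

theorem vars_parF (k : ℕ) : ∀ l : List ℕ, l.length ≤ 2 ^ k → ∀ n ∈ l, n ∈ (parF k l).vars := by
  induction k with
  | zero =>
    intro l hl n hn
    rcases l with _ | ⟨m, l⟩
    · simp at hn
    · have : l = [] := by
        rw [List.length_cons] at hl
        exact List.eq_nil_of_length_eq_zero (by omega)
      subst this
      simpa [parF, PForm.vars] using hn
  | succ k ih =>
    intro l hl n hn
    have h1 := ih (l.take (2 ^ k)) (by rw [List.length_take]; exact min_le_left _ _) n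
    have h2 := ih (l.drop (2 ^ k)) (by
      rw [List.length_drop]
      rw [pow_succ] at hl
      omega) n
    simp only [parF, xorF, PForm.vars, mem_union]
    rw [← List.take_append_drop (2 ^ k) l, List.mem_append] at hn
    rcases hn with hn | hn
    · exact Or.inl (Or.inl (h1 hn))
    · exact Or.inl (Or.inr (h2 hn))

theorem vars_parF_sub (k : ℕ) : ∀ l : List ℕ, ∀ n ∈ (parF k l).vars, n = 0 ∨ n ∈ l := by
  induction k with
  | zero =>
    intro l n hn
    rcases l with _ | ⟨m, l⟩
    · simp only [parF, PForm.vars, mem_union, mem_singleton, or_self] at hn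
      exact Or.inl hn
    · simp only [parF, PForm.vars, mem_singleton] at hn
      right
      rw [hn]
      simp
  | succ k ih =>
    intro l n hn
    simp only [parF, xorF, PForm.vars, mem_union] at hn
    rcases hn with (hn | hn) | (hn | hn)
    · exact (ih _ n hn).imp id List.mem_of_mem_take
    · exact (ih _ n hn).imp id List.mem_of_mem_drop
    · exact (ih _ n hn).imp id List.mem_of_mem_take
    · exact (ih _ n hn).imp id List.mem_of_mem_drop

section

variable {P : Type} [Fintype P]

theorem xorL_num (a : ℕ → Bool) (l : List P) :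
    (if xorL a (l.map num) = true then (1 : ZMod 2) else 0) =
      (l.map (fun p => if a (num p) = true then (1 : ZMod 2) else 0)).sum := by
  induction l with
  | nil => simp [xorL]
  | cons p l ih =>
    rw [List.map_cons, List.map_cons, List.sum_cons, ← ih]
    unfold xorL
    rw [List.foldr_cons]
    cases a (num p) <;> cases List.foldr (fun n b => xor (a n) b) false (l.map num) <;> decide

/-- the formula says that an odd number of the variables in `U` are true -/
noncomputable def oddF (k : ℕ) (U : Finset P) : PForm := parF k (U.toList.map num)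

theorem eval_oddF (a : ℕ → Bool) {k : ℕ} {U : Finset P} (hU : U.card ≤ 2 ^ k) :
    (oddF k U).eval a = true ↔ ∑ p ∈ U, (if a (num p) = true then (1 : ZMod 2) else 0) = 1 := by
  unfold oddF
  rw [eval_parF a k _ (by simpa using hU)]
  have h1 := xorL_num a U.toList
  rw [Finset.sum_map_toList] at h1
  rw [← h1]
  cases xorL a (U.toList.map num) <;> simp

end

section

variable {N D q : ℕ}

/-- the conditions of the vertices as formulas -/
noncomputable def tsf (k : ℕ) (f : Fin (N + 1) × Fin D → Fin (N + 1)) (q : ℕ) : List PForm :=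
  (univ : Finset (Fin (N + 1))).toList.map (fun v => oddF k (Uv f q v))

theorem mem_tsf {k : ℕ} {f : Fin (N + 1) × Fin D → Fin (N + 1)} {A : PForm} :
    A ∈ tsf k f q ↔ ∃ v, A = oddF k (Uv f q v) := by
  unfold tsf
  rw [List.mem_map]
  constructor
  · rintro ⟨v, _, rfl⟩; exact ⟨v, rfl⟩
  · rintro ⟨v, rfl⟩; exact ⟨v, by simp, rfl⟩

theorem par_eq_sum (f : Fin (N + 1) × Fin D → Fin (N + 1)) (v : Fin (N + 1))
    (x : Ed N D × Fin q → Bool) :
    par (Inc f) v x = ∑ p ∈ Uv f q v, (if x p = true then (1 : ZMod 2) else 0) := rfl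

theorem sum_par (f : Fin (N + 1) × Fin D → Fin (N + 1)) (x : Ed N D × Fin q → Bool) :
    ∑ v, par (Inc f) v x = 0 := by
  unfold par
  simp only [Finset.sum_filter]
  rw [Finset.sum_comm]
  refine Finset.sum_eq_zero fun p _ => ?_
  have h3 := sum_inc f p.1
  by_cases hp : x p = true
  · simp only [hp, if_true]
    exact h3
  · simp [hp]

theorem tsf_unsat {k : ℕ} (f : Fin (N + 1) × Fin D → Fin (N + 1))
    (hk : ∀ v, (Uv f q v).card ≤ 2 ^ k) (hE : Even N) : Unsat (tsf k f q) := by
  intro a
  by_contra hcon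
  push Not at hcon
  have h1 : ∀ v, par (Inc f) v (fun p : Ed N D × Fin q => a (num p)) = 1 := by
    intro v
    rw [par_eq_sum]
    have h2 := hcon _ (mem_tsf.mpr ⟨v, rfl⟩)
    have h3 : (oddF k (Uv f q v)).eval a = true := by simpa using h2
    exact (eval_oddF a (hk v)).mp h3
  have h2 := sum_par f (fun p : Ed N D × Fin q => a (num p))
  rw [Finset.sum_congr rfl (fun v _ => h1 v)] at h2
  simp only [Finset.sum_const, Finset.card_univ, Fintype.card_fin, nsmul_eq_mul, mul_one] at h2
  rw [ZMod.natCast_eq_zero_iff_even] at h2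
  exact (Nat.not_even_iff_odd.mpr (Even.add_one hE)) h2

theorem tsf_hF {k : ℕ} (f : Fin (N + 1) × Fin D → Fin (N + 1))
    (hk : ∀ v, (Uv f q v).card ≤ 2 ^ k) :
    ∀ A ∈ tsf k f q, ∃ v, ∀ x : Ed N D × Fin q → Bool, par (Inc f) v x = 1 →
      A.eval (T9h49.RK.ext x) = true := by
  intro A hA
  obtain ⟨v, rfl⟩ := mem_tsf.mp hA
  refine ⟨v, fun x hx => ?_⟩
  rw [eval_oddF _ (hk v)]
  rw [par_eq_sum] at hx
  refine Eq.trans ?_ hx
  apply Finset.sum_congr rfl
  intro p _
  rw [T9h49.RK.ext_num]

theorem nv_tsf_le {k : ℕ} (f : Fin (N + 1) × Fin D → Fin (N + 1)) (hq : 1 ≤ q) :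
    nv (tsf k f q) ≤ (N + 1) * (D + 1) * q := by
  apply nv_le
  intro A hA n hn
  obtain ⟨v, rfl⟩ := mem_tsf.mp hA
  rcases vars_parF_sub k _ n hn with rfl | hn
  · positivity
  · obtain ⟨p, _, rfl⟩ := List.mem_map.mp hn
    rw [← card_var]
    exact num_lt p

theorem nv_tsf_ge {k : ℕ} (f : Fin (N + 1) × Fin D → Fin (N + 1))
    (hk : ∀ v, (Uv f q v).card ≤ 2 ^ k) (hN : 1 ≤ N) :
    (N + 1) * q ≤ nv (tsf k f q) := by
  apply nv_ge (D := D)
  intro u i
  refine ⟨oddF k (Uv f q u), mem_tsf.mpr ⟨u, rfl⟩, ?_⟩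
  apply vars_parF k _ (by simpa using hk u)
  exact List.mem_map_of_mem (Finset.mem_toList.mpr (mem_Uv_self f hN u i))

theorem tsf_size {k : ℕ} (f : Fin (N + 1) × Fin D → Fin (N + 1)) :
    sizeL (tsf k f q) ≤ 6 * 4 ^ k * (N + 1) := by
  unfold sizeL tsf
  rw [List.map_map]
  have h1 : ∀ x ∈ (univ : Finset (Fin (N + 1))).toList.map
      (PForm.size ∘ fun v => oddF k (Uv f q v)), x ≤ 6 * 4 ^ k := by
    intro x hx
    obtain ⟨v, _, rfl⟩ := List.mem_map.mp hx
    have := size_parF k ((Uv f q v).toList.map num)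
    show (oddF k (Uv f q v)).size ≤ _
    unfold oddF
    omega
  have h2 := List.sum_le_card_nsmul _ _ h1
  rw [List.length_map, smul_eq_mul, Finset.length_toList, card_univ, Fintype.card_fin] at h2
  calc _ ≤ _ := h2
    _ = _ := by ring

end

end Pool.Agent.T9h82.SL
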