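import Pool.Agent.T9h82.SL.BDec
import Pool.Agent.T9h49.RK.Tseitin

set_option autoImplicit false
set_option linter.unusedSectionVars false

/-!
# Lines of proofs as query trees with formulas at the leaves
-/

namespace Pool.Agent.T9h82.SL

open Finset Classical
open Pool.Agent.T9h49.RK (PForm num num_inj ext ext_num)

/-- the number of occurrences of variables in a formula -/
def leaves : PForm → ℕ
  | .var _ => 1
  | .neg A => leaves A
  | .and A B => leaves A + leaves B
  | .or A B => leaves A + leaves B

/-- `Short s d g`: the Boolean function `g` is computed by a decision tree of depth at most `d` which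
has at each leaf a formula with at most `s` occurrences of variables -/
inductive Short (s : ℕ) : ℕ → ((ℕ → Bool) → Bool) → Prop
  | leaf (d : ℕ) (g : (ℕ → Bool) → Bool) (A : PForm) (h : leaves A ≤ s)
      (he : ∀ a, g a = A.eval a) : Short s d g
  | query (d : ℕ) (g : (ℕ → Bool) → Bool) (n : ℕ)
      (h0 : Short s d (fun a => g (Function.update a n false)))
      (h1 : Short s d (fun a => g (Function.update a n true))) : Short s (d + 1) g

theorem Short.mono {s s' : ℕ} (hs : s ≤ s') {d : ℕ} {g : (ℕ → Bool) → Bool} (h : Short s d g) :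
    ∀ {d' : ℕ}, d ≤ d' → Short s' d' g := by
  induction h with
  | leaf d g A h he => intro d' _; exact .leaf d' g A (h.trans hs) he
  | query d g n h0 h1 ih0 ih1 =>
    intro d' hd
    obtain ⟨e, rfl⟩ : ∃ e, d' = e + 1 := ⟨d' - 1, by omega⟩
    exact .query e g n (ih0 (by omega)) (ih1 (by omega))

section

variable {X : Type} [Fintype X] [DecidableEq X]

/-- negation normal form over the variables `X`; `σ` gives for each variable a constant or a member
of `X` -/
def conv (σ : ℕ → Bool ⊕ X) : Bool → PForm → Bool ⊕ NF X
  | pos, .var n => match σ n with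
    | Sum.inl b => Sum.inl (b == pos)
    | Sum.inr x => Sum.inr (NF.lit x pos)
  | pos, .neg A => conv σ (!pos) A
  | pos, .and A B => comb pos (conv σ pos A) (conv σ pos B)
  | pos, .or A B => comb (!pos) (conv σ pos A) (conv σ pos B)

/-- the assignment given by `σ` and `a` -/
def as (σ : ℕ → Bool ⊕ X) (a : X → Bool) (n : ℕ) : Bool :=
  match σ n with
  | Sum.inl b => b
  | Sum.inr x => a x

theorem evalS_conv (σ : ℕ → Bool ⊕ X) (a : X → Bool) (A : PForm) :
    ∀ pos, evalS a (conv σ pos A) = (A.eval (as σ a) == pos) := by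
  induction A with
  | var n =>
    intro pos
    simp only [conv, PForm.eval, as]
    rcases σ n with b | x <;> rfl
  | neg A ih =>
    intro pos
    simp only [conv, ih, PForm.eval]
    cases A.eval (as σ a) <;> cases pos <;> rfl
  | and A B ihA ihB =>
    intro pos
    simp only [conv, evalS_comb, ihA, ihB, PForm.eval]
    cases A.eval (as σ a) <;> cases B.eval (as σ a) <;> cases pos <;> rfl
  | or A B ihA ihB =>
    intro pos
    simp only [conv, evalS_comb, ihA, ihB, PForm.eval]
    cases A.eval (as σ a) <;> cases B.eval (as σ a) <;> cases pos <;> rfl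

theorem sizeS_conv (σ : ℕ → Bool ⊕ X) (A : PForm) :
    ∀ pos, sizeS (conv σ pos A) ≤ leaves A := by
  induction A with
  | var n =>
    intro pos
    simp only [conv, leaves]
    rcases σ n with b | x <;> simp [sizeS, NF.size]
  | neg A ih =>
    intro pos
    simp only [conv, leaves]
    exact ih _
  | and A B ihA ihB =>
    intro pos
    have h1 := sizeS_comb pos (conv σ pos A) (conv σ pos B)
    have h2 := ihA pos
    have h3 := ihB pos
    simp only [conv, leaves]
    omega
  | or A B ihA ihB =>
    intro pos
    have h1 := sizeS_comb (!pos) (conv σ pos A) (conv σ pos B)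
    have h2 := ihA pos
    have h3 := ihB pos
    simp only [conv, leaves]
    omega

theorem multS_conv (σ : ℕ → Bool ⊕ X) (z : X) (hz : ∀ n, σ n ≠ Sum.inr z) (A : PForm) :
    ∀ pos, multS z (conv σ pos A) = 0 := by
  induction A with
  | var n =>
    intro pos
    simp only [conv]
    have h := hz n
    rcases hs : σ n with b | x
    · rfl
    · rw [hs] at h
      have hx : x ≠ z := by rintro rfl; exact h rfl
      simp [multS, NF.mult, hx]
  | neg A ih =>
    intro pos
    exact ih _
  | and A B ihA ihB =>
    intro pos
    have h1 := multS_comb z pos (conv σ pos A) (conv σ pos B)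
    have h2 := ihA pos
    have h3 := ihB pos
    simp only [conv]
    omega
  | or A B ihA ihB =>
    intro pos
    have h1 := multS_comb z (!pos) (conv σ pos A) (conv σ pos B)
    have h2 := ihA pos
    have h3 := ihB pos
    simp only [conv]
    omega

noncomputable def sg (V : Finset X) (a0 : X → Bool) (n : ℕ) : Bool ⊕ X :=
  if h : ∃ p : X, num p = n then
    (if h.choose ∈ V then Sum.inr h.choose else Sum.inl (a0 h.choose)) else Sum.inl false

/-- the values of `a` on `V`, of `a0` outside -/
noncomputable def mixa (V : Finset X) (a0 a : X → Bool) : X → Bool :=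
  fun z => if z ∈ V then a z else a0 z

theorem as_sg (V : Finset X) (a0 a : X → Bool) : as (sg V a0) a = ext (mixa V a0 a) := by
  funext n
  unfold as sg T9h49.RK.ext mixa
  split_ifs with h h'
  · rfl
  · rfl
  · rfl

theorem sg_ne {V : Finset X} {a0 : X → Bool} {z : X} (hz : z ∉ V) (n : ℕ) :
    sg V a0 n ≠ Sum.inr z := by
  unfold sg
  split_ifs with h h'
  · intro h2
    apply hz
    rw [← Sum.inr.inj h2]
    exact h'
  · simp
  · simp

/-- the shape of a tree -/
def ShF (s : ℕ) : FT X → ℕ → Prop
  | FT.leaf r, _ => sizeS r ≤ s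
  | FT.node _ t0 t1, d => ∃ e, d = e + 1 ∧ ShF s t0 e ∧ ShF s t1 e

theorem mixa_erase_update (V : Finset X) (a0 a : X → Bool) {x : X} (hx : x ∈ V) (b : Bool) :
    mixa (V.erase x) (Function.update a0 x b) a = Function.update (mixa V a0 a) x b := by
  funext z
  unfold mixa
  by_cases hz : z = x
  · subst hz; simp
  · simp [hz]

theorem ext_update (y : X → Bool) (x : X) (b : Bool) :
    ext (Function.update y x b) = Function.update (ext y) (num x) b := by
  funext n
  by_cases h : n = num x
  · subst h
    rw [ext_num, Function.update_self, Function.update_self]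
  · rw [Function.update_of_ne h]
    unfold T9h49.RK.ext
    split_ifs with h1
    · rw [Function.update_of_ne]
      intro h2
      apply h
      rw [← h2]
      exact h1.choose_spec.symm
    · rfl

theorem Short.toFT {s d : ℕ} {g : (ℕ → Bool) → Bool} (h : Short s d g) :
    ∀ (V : Finset X) (a0 : X → Bool), ∃ t : FT X, Valid V t ∧ ShF s t d ∧
      ∀ a, evF a t = g (ext (mixa V a0 a)) := by
  induction h with
  | leaf d g A h he =>
    intro V a0
    refine ⟨FT.leaf (conv (sg V a0) true A), ?_, ?_, fun a => ?_⟩
    · intro z hz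
      by_contra hzV
      exact hz (multS_conv _ z (sg_ne hzV) A true)
    · exact (sizeS_conv _ A true).trans h
    · show evalS a _ = _
      rw [evalS_conv, as_sg, he]
      simp
  | query d g n h0 h1 ih0 ih1 =>
    intro V a0
    by_cases hn : ∃ p : X, num p = n ∧ p ∈ V
    · obtain ⟨p, hp, hpV⟩ := hn
      obtain ⟨t0, v0, s0, e0⟩ := ih0 (V.erase p) (Function.update a0 p false)
      obtain ⟨t1, v1, s1, e1⟩ := ih1 (V.erase p) (Function.update a0 p true)
      refine ⟨FT.node p t0 t1, ⟨hpV, v0, v1⟩, ⟨d, rfl, s0, s1⟩, fun a => ?_⟩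
      simp only [evF, e0, e1, mixa_erase_update V a0 a hpV, ext_update, hp,
        Function.update_idem]
      have h3 : ext (mixa V a0 a) n = a p := by
        rw [← hp, ext_num]
        simp [mixa, hpV]
      by_cases hap : a p = true
      · rw [if_pos hap]
        congr 1
        rw [← hap, ← h3, Function.update_eq_self]
      · rw [if_neg hap]
        congr 1
        have hap' : a p = false := by simpa using hap
        rw [← hap', ← h3, Function.update_eq_self]
    · -- the variable is a constant
      have hconst : ∃ b, ∀ a, ext (mixa V a0 a) n = b := by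
        by_cases h2 : ∃ p : X, num p = n
        · obtain ⟨p, hp⟩ := h2
          have hpV : p ∉ V := fun h => hn ⟨p, hp, h⟩
          refine ⟨a0 p, fun a => ?_⟩
          rw [← hp, ext_num]
          simp [mixa, hpV]
        · refine ⟨false, fun a => ?_⟩
          rw [T9h49.RK.ext, dif_neg h2]
      obtain ⟨b, hb⟩ := hconst
      have hsh : ∀ (t : FT X) (d : ℕ), ShF s t d → ShF s t (d + 1) := by
        intro t
        induction t with
        | leaf r => intro d h; exact h
        | node x t0 t1 ih0 ih1 =>
          rintro d ⟨e, rfl, h2, h3⟩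
          exact ⟨e + 1, rfl, ih0 e h2, ih1 e h3⟩
      cases b
      · obtain ⟨t0, v0, s0, e0⟩ := ih0 V a0
        refine ⟨t0, v0, hsh t0 d s0, fun a => ?_⟩
        rw [e0]
        show g _ = g _
        congr 1
        rw [← hb a, Function.update_eq_self]
      · obtain ⟨t1, v1, s1, e1⟩ := ih1 V a0
        refine ⟨t1, v1, hsh t1 d s1, fun a => ?_⟩
        rw [e1]
        show g _ = g _
        congr 1
        rw [← hb a, Function.update_eq_self]

theorem pot_le_of_ShF {Q0q Yq w : ℝ} {th s : ℕ} (hQ : 1 ≤ 2 * Q0q) (hY : 0 ≤ Yq) (hw : 1 ≤ w)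
    (t : FT X) : ∀ d, ShF s t d →
    pot (fun _ => Q0q) (fun _ => Yq) w th t ≤ (2 * Q0q) ^ d * (w + Yq * s) ^ th := by
  have h0 : 0 ≤ (w + Yq * s) ^ th := by positivity
  induction t with
  | leaf r =>
    intro d h
    have h1 : (1 : ℝ) ≤ (2 * Q0q) ^ d := one_le_pow₀ hQ
    have h2 : lw w (fun _ => Yq) r ^ th ≤ (w + Yq * s) ^ th := by
      apply pow_le_pow_left₀ (lw_nonneg hw (fun _ => hY) _)
      rcases r with c | A
      · simp only [lw]
        have : 0 ≤ Yq * s := by positivity
        linarith
      · simp only [lw, ws_const]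
        have h3 : A.size ≤ s := h
        have h4 : (A.size : ℝ) ≤ s := by exact_mod_cast h3
        have := mul_le_mul_of_nonneg_left h4 hY
        linarith
    simp only [pot]
    nlinarith
  | node x t0 t1 ih0 ih1 =>
    rintro d ⟨e, rfl, h1, h2⟩
    have i0 := ih0 e h1
    have i1 := ih1 e h2
    simp only [pot]
    have hQ0 : 0 ≤ Q0q := by linarith
    calc Q0q * (pot (fun _ => Q0q) (fun _ => Yq) w th t0 + pot (fun _ => Q0q) (fun _ => Yq) w th t1)
        ≤ Q0q * ((2 * Q0q) ^ e * (w + Yq * s) ^ th + (2 * Q0q) ^ e * (w + Yq * s) ^ th) :=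
          mul_le_mul_of_nonneg_left (add_le_add i0 i1) hQ0
      _ = (2 * Q0q) ^ (e + 1) * (w + Yq * s) ^ th := by rw [pow_succ]; ring

end

end Pool.Agent.T9h82.SL
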