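import Pool.Agent.T9h82.SL.BXor

set_option autoImplicit false

/-!
# Short refutations with lines of quadratic size
-/

namespace Pool.Agent.T9h82.SL

open Finset Classical
open Pool.Agent.T9h49.RK (PForm Rule Derives Refutes Ed Inc par outd indeg num num_inj sizeL Unsat
  sum_inc par_dich Uv Uv_nonempty card_Uv sizeL_flatMap)

section

variable {N D q : ℕ}

/-- the sum modulo two of the conditions of the vertices with number less than `j` -/
noncomputable def Ucut (f : Fin (N + 1) × Fin D → Fin (N + 1)) (q j : ℕ) :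
    Finset (Ed N D × Fin q) :=
  univ.filter (fun p => Odd (univ.filter (fun v : Fin (N + 1) => v.val < j ∧ Inc f v p.1)).card)

theorem sum_cut (f : Fin (N + 1) × Fin D → Fin (N + 1)) (j : ℕ) (x : Ed N D × Fin q → Bool) :
    ∑ p ∈ Ucut f q j, (if x p = true then (1 : ZMod 2) else 0) =
      ∑ v ∈ univ.filter (fun v : Fin (N + 1) => v.val < j), par (Inc f) v x := by
  have h0 : ∀ v, par (Inc f) v x = ∑ p : Ed N D × Fin q,
      if Inc f v p.1 then (if x p = true then (1 : ZMod 2) else 0) else 0 := by
    intro v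
    unfold par
    rw [Finset.sum_filter]
  rw [Finset.sum_congr rfl (fun v _ => h0 v), Finset.sum_comm]
  unfold Ucut
  rw [Finset.sum_filter]
  apply Finset.sum_congr rfl
  intro p _
  by_cases hx : x p = true
  · simp only [hx, if_true]
    have h1 : ∑ v ∈ univ.filter (fun v : Fin (N + 1) => v.val < j),
        (if Inc f v p.1 then (1 : ZMod 2) else 0) =
        ((univ.filter (fun v : Fin (N + 1) => v.val < j ∧ Inc f v p.1)).card : ZMod 2) := by
      rw [Finset.sum_boole, Finset.filter_filter]
    rw [h1]
    rcases Nat.even_or_odd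
      (univ.filter (fun v : Fin (N + 1) => v.val < j ∧ Inc f v p.1)).card with h | h
    · rw [if_neg (Nat.not_odd_iff_even.mpr h), (ZMod.natCast_eq_zero_iff_even).mpr h]
    · rw [if_pos h, (ZMod.natCast_eq_one_iff_odd).mpr h]
  · simp [hx]

/-- the lines of the refutation -/
noncomputable def Ej (k : ℕ) (f : Fin (N + 1) × Fin D → Fin (N + 1)) (q j : ℕ) : PForm :=
  if Even j then .neg (oddF k (Ucut f q j)) else oddF k (Ucut f q j)

theorem card_Ucut (f : Fin (N + 1) × Fin D → Fin (N + 1)) (j : ℕ) :
    (Ucut f q j).card ≤ (N + 1) * (D + 1) * q := by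
  rw [← card_var]
  exact card_le_univ _

theorem eval_Ej {k : ℕ} (hk : (N + 1) * (D + 1) * q ≤ 2 ^ k)
    (f : Fin (N + 1) × Fin D → Fin (N + 1)) (j : ℕ) (a : ℕ → Bool) :
    (Ej k f q j).eval a = true ↔
      ∑ v ∈ univ.filter (fun v : Fin (N + 1) => v.val < j),
        par (Inc f) v (fun p : Ed N D × Fin q => a (num p)) = j := by
  have h1 := eval_oddF a ((card_Ucut (q := q) f j).trans hk)
  have h2 := sum_cut (q := q) f j (fun p => a (num p))
  rw [← h2]
  unfold Ej
  split_ifs with hj
  · rw [(ZMod.natCast_eq_zero_iff_even).mpr hj]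
    simp only [PForm.eval, Bool.not_eq_true']
    rw [← Bool.not_eq_true, h1]
    rcases par_dich (∑ p ∈ Ucut f q j, (if a (num p) = true then (1 : ZMod 2) else 0)) with h | h
    · rw [h]; decide
    · rw [h]; decide
  · rw [(ZMod.natCast_eq_one_iff_odd).mpr (Nat.not_even_iff_odd.mp hj)]
    exact h1

theorem subst_var (A : PForm) : A.subst .var = A := by
  induction A with
  | var n => rfl
  | neg A ih => simp only [PForm.subst, ih]
  | and A B ihA ihB => simp only [PForm.subst, ihA, ihB]
  | or A B ihA ihB => simp only [PForm.subst, ihA, ihB]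

/-- all sound rules with at most two premises -/
def allRules : Set Rule := {ρ | ρ.Sound ∧ ρ.prem.length ≤ 2}

theorem filter_succ (j : ℕ) (hj : j < N + 1) :
    univ.filter (fun v : Fin (N + 1) => v.val < j + 1) =
      insert ⟨j, hj⟩ (univ.filter (fun v : Fin (N + 1) => v.val < j)) := by
  ext v
  simp only [mem_filter, mem_univ, true_and, mem_insert, Fin.ext_iff]
  omega

theorem derive_Ej {k k' : ℕ} (hk : (N + 1) * (D + 1) * q ≤ 2 ^ k)
    (f : Fin (N + 1) × Fin D → Fin (N + 1)) (hk' : ∀ v, (Uv f q v).card ≤ 2 ^ k')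
    (hkk : k' ≤ k) (j : ℕ) : j ≤ N + 1 →
    ∃ π : List PForm, Derives allRules (tsf k' f q) π ∧ Ej k f q j ∈ π ∧ π.length ≤ 2 * j + 1 ∧
      ∀ A ∈ π, A.size ≤ 6 * 4 ^ k := by
  have hsz : ∀ j, (Ej k f q j).size ≤ 6 * 4 ^ k := by
    intro j
    have h1 := size_parF k ((Ucut f q j).toList.map num)
    unfold Ej
    split_ifs
    · simp only [PForm.size]
      unfold oddF
      omega
    · unfold oddF
      omega
  have hsz' : ∀ v, (oddF k' (Uv f q v)).size ≤ 6 * 4 ^ k := by
    intro v
    have h1 := size_parF k' ((Uv f q v).toList.map num)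
    have h2 : 4 ^ k' ≤ 4 ^ k := Nat.pow_le_pow_right (by norm_num) hkk
    unfold oddF
    omega
  induction j with
  | zero =>
    intro _
    refine ⟨[Ej k f q 0], ?_, by simp, by simp, ?_⟩
    · have h1 : (⟨[], Ej k f q 0⟩ : Rule) ∈ allRules := by
        refine ⟨?_, by simp⟩
        intro a _
        show (Ej k f q 0).eval a = true
        rw [eval_Ej hk]
        simp
      have h2 := Derives.rule (F := tsf k' f q) (⟨[], Ej k f q 0⟩ : Rule) PForm.var
        Derives.nil h1 (by simp)
      rwa [subst_var] at h2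
    · intro A hA
      rw [List.mem_singleton] at hA
      rw [hA]
      exact hsz 0
  | succ j ih =>
    intro hj
    obtain ⟨π, h1, h2, h3, h4⟩ := ih (by omega)
    have hj' : j < N + 1 := by omega
    set C := oddF k' (Uv f q ⟨j, hj'⟩) with hC
    refine ⟨Ej k f q (j + 1) :: C :: π, ?_, by simp, by simp; omega, ?_⟩
    · have hr : (⟨[Ej k f q j, C], Ej k f q (j + 1)⟩ : Rule) ∈ allRules := by
        refine ⟨?_, by simp⟩
        intro a ha
        have ha1 := ha (Ej k f q j) (by simp)
        have ha2 := ha C (by simp)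
        show (Ej k f q (j + 1)).eval a = true
        rw [eval_Ej hk] at ha1 ⊢
        rw [filter_succ j hj', sum_insert (by simp), ha1]
        have h5 : par (Inc f) (⟨j, hj'⟩ : Fin (N + 1))
            (fun p : Ed N D × Fin q => a (num p)) = 1 := by
          rw [hC, eval_oddF a (hk' _)] at ha2
          exact ha2
        rw [h5]
        push_cast
        ring
      have h5 := Derives.rule (⟨[Ej k f q j, C], Ej k f q (j + 1)⟩ : Rule) PForm.var
        (Derives.hyp C h1 (mem_tsf.mpr ⟨_, rfl⟩)) hr (by
          intro A hA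
          rw [subst_var]
          simp only [List.mem_cons, List.not_mem_nil, or_false] at hA
          rcases hA with rfl | rfl
          · exact List.mem_cons_of_mem _ h2
          · simp)
      rwa [subst_var] at h5
    · intro A hA
      simp only [List.mem_cons] at hA
      rcases hA with rfl | rfl | hA
      · exact hsz _
      · exact hsz' _
      · exact h4 A hA

theorem short_refutation {k k' : ℕ} (hk : (N + 1) * (D + 1) * q ≤ 2 ^ k)
    (f : Fin (N + 1) × Fin D → Fin (N + 1)) (hk' : ∀ v, (Uv f q v).card ≤ 2 ^ k')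
    (hkk : k' ≤ k) (hE : Even N) :
    ∃ π : List PForm, Refutes allRules (tsf k' f q) π ∧ π.length ≤ 2 * (N + 1) + 1 ∧
      ∀ A ∈ π, A.size ≤ 6 * 4 ^ k := by
  obtain ⟨π, h1, h2, h3, h4⟩ := derive_Ej hk f hk' hkk (N + 1) (le_refl _)
  refine ⟨π, ⟨h1, _, h2, fun a => ?_⟩, h3, h4⟩
  by_contra hcon
  have h5 : (Ej k f q (N + 1)).eval a = true := by simpa using hcon
  rw [eval_Ej hk] at h5
  have h6 : univ.filter (fun v : Fin (N + 1) => v.val < N + 1) = univ := by
    ext v
    simp only [mem_filter, mem_univ, true_and, iff_true]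
    exact v.isLt
  rw [h6, sum_par] at h5
  have h7 : ((N + 1 : ℕ) : ZMod 2) = 1 :=
    (ZMod.natCast_eq_one_iff_odd).mpr (Even.add_one hE)
  rw [h7] at h5
  exact absurd h5 (by decide)

end

/-- formulas with few variables are `Short` -/
theorem short_of_vars (s : ℕ) (hs : 2 ≤ s) (d : ℕ) : ∀ (U : Finset ℕ) (g : (ℕ → Bool) → Bool),
    U.card ≤ d → (∀ a a' : ℕ → Bool, (∀ n ∈ U, a n = a' n) → g a = g a') → Short s d g := by
  induction d with
  | zero =>
    intro U g hU hg
    have hU0 : U = ∅ := by rw [← Finset.card_eq_zero]; omega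
    subst hU0
    have h1 : ∀ a, g a = g (fun _ => false) := fun a => hg a _ (by simp)
    cases hb : g (fun _ => false)
    · exact .leaf 0 g (.and (.var 0) (.neg (.var 0))) (by simp only [leaves]; exact hs)
        (fun a => by rw [h1, hb]; simp [PForm.eval])
    · exact .leaf 0 g (.or (.var 0) (.neg (.var 0))) (by simp only [leaves]; exact hs)
        (fun a => by rw [h1, hb]; simp [PForm.eval])
  | succ d ih =>
    intro U g hU hg
    by_cases hne : U = ∅
    · exact (ih U g (by rw [hne]; simp) hg).mono (le_refl _) (Nat.le_succ _)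
    · obtain ⟨n, hn⟩ := Finset.nonempty_iff_ne_empty.mpr hne
      have hc : (U.erase n).card ≤ d := by
        rw [card_erase_of_mem hn]; omega
      have hb : ∀ b, Short s d (fun a => g (Function.update a n b)) := by
        intro b
        apply ih (U.erase n) _ hc
        intro a a' h
        apply hg
        intro m hm
        by_cases hmn : m = n
        · rw [hmn, Function.update_self, Function.update_self]
        · rw [Function.update_of_ne hmn, Function.update_of_ne hmn]
          exact h m (mem_erase.mpr ⟨hmn, hm⟩)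
      exact .query d g n (hb false) (hb true)

end Pool.Agent.T9h82.SL
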