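import Pool.Agent.T9h49.RK.Graph

set_option autoImplicit false

/-!
# Expanding graphs of bounded degree
-/

namespace Pool.Agent.T9h82.SL

open Finset Classical
open Pool.Agent.T9h49.RK (outd indeg exists_graph)

theorem exists_bdd_graph : ∃ Δ : ℕ, ∀ N : ℕ,
    ∃ f : Fin (N + 1) × Fin (16 * 2) → Fin (N + 1),
      (∀ A : Finset (Fin (N + 1)), N + 1 < 4 * A.card → 2 * A.card ≤ N + 1 →
        N + 1 ≤ 2 * outd f A) ∧ ∀ v, indeg f v ≤ Δ := by
  obtain ⟨C, hC, hg⟩ := exists_graph 2 (B := 4) (by norm_num)
  obtain ⟨t, ht⟩ := pow_unbounded_of_one_lt (2 * C) (by norm_num : (1 : ℝ) < 2)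
  refine ⟨16 * 2 + t, fun N => ?_⟩
  obtain ⟨f, hf1, hf2⟩ := hg N
  set Bp : Finset (Fin (N + 1) × Fin (16 * 2)) := univ.filter (fun p => t < indeg f (f p)) with hBp
  have hcard : 2 * Bp.card ≤ N + 1 := by
    have h1 : Bp.card = ∑ v ∈ univ.filter (fun v => t < indeg f v), indeg f v := by
      rw [card_eq_sum_card_fiberwise (f := f) (t := univ.filter (fun v => t < indeg f v))]
      · apply sum_congr rfl
        intro v hv
        unfold indeg
        congr 1
        ext p
        rw [hBp, mem_filter, mem_filter, mem_filter]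
        constructor
        · rintro ⟨⟨_, _⟩, h⟩
          exact ⟨mem_univ _, h⟩
        · rintro ⟨_, h⟩
          refine ⟨⟨mem_univ _, ?_⟩, h⟩
          rw [h]
          exact (mem_filter.mp hv).2
      · intro p hp
        have := (mem_filter.mp (mem_coe.mp hp)).2
        rw [mem_coe, mem_filter]
        exact ⟨mem_univ _, this⟩
    have h2 : (2 : ℝ) ^ t * Bp.card ≤ C * ((N : ℝ) + 1) := by
      rw [h1]
      push_cast
      rw [mul_sum]
      refine le_trans ?_ hf2
      refine le_trans (sum_le_sum (g := fun v => (4 : ℝ) ^ indeg f v) ?_)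
        (sum_le_sum_of_subset_of_nonneg (subset_univ _) (fun _ _ _ => by positivity))
      intro v hv
      have h3 := (mem_filter.mp hv).2
      have h4 : (indeg f v : ℝ) ≤ 2 ^ indeg f v := by exact_mod_cast Nat.lt_two_pow_self.le
      have h5 : (2 : ℝ) ^ t ≤ 2 ^ indeg f v := pow_le_pow_right₀ (by norm_num) h3.le
      calc (2 : ℝ) ^ t * indeg f v ≤ 2 ^ indeg f v * 2 ^ indeg f v :=
            mul_le_mul h5 h4 (by positivity) (by positivity)
        _ = 4 ^ indeg f v := by rw [← mul_pow]; norm_num
    have h3 : (2 : ℝ) * Bp.card ≤ (N : ℝ) + 1 := by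
      have h4 : (2 * C) * (Bp.card : ℝ) ≤ C * ((N : ℝ) + 1) :=
        le_trans (mul_le_mul_of_nonneg_right ht.le (Nat.cast_nonneg _)) h2
      have h5 : C * (2 * (Bp.card : ℝ)) ≤ C * ((N : ℝ) + 1) := by linarith
      exact le_of_mul_le_mul_left h5 hC
    exact_mod_cast h3
  obtain ⟨g, hgd⟩ : ∃ g : Fin (N + 1) × Fin (16 * 2) → Fin (N + 1),
      ∀ p, g p = if t < indeg f (f p) then p.1 else f p := ⟨_, fun _ => rfl⟩
  refine ⟨g, ?_, ?_⟩
  · intro A h1 h2
    have h3 := hf1 A (by omega) h2
    have h4 : outd f A ≤ outd g A + Bp.card := by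
      unfold outd
      refine le_trans (card_le_card ?_) (card_union_le _ _)
      intro p hp
      have h5 := (mem_filter.mp hp).2
      rw [mem_union]
      by_cases h6 : t < indeg f (f p)
      · right
        rw [hBp, mem_filter]
        exact ⟨mem_univ _, h6⟩
      · left
        rw [mem_filter]
        refine ⟨mem_univ _, h5.1, ?_⟩
        rw [hgd, if_neg h6]
        exact h5.2
    omega
  · intro v
    have h1 : (univ.filter (fun p => g p = v)).card ≤
        (({v} ×ˢ (univ : Finset (Fin (16 * 2))))).card +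
        (univ.filter (fun p => f p = v ∧ indeg f v ≤ t)).card := by
      refine le_trans (card_le_card ?_) (card_union_le _ _)
      intro p hp
      have h5 := (mem_filter.mp hp).2
      rw [hgd] at h5
      rw [mem_union]
      by_cases h6 : t < indeg f (f p)
      · left
        rw [if_pos h6] at h5
        rw [mem_product, mem_singleton]
        exact ⟨h5, mem_univ _⟩
      · right
        rw [if_neg h6] at h5
        rw [mem_filter]
        refine ⟨mem_univ _, h5, ?_⟩
        rw [h5] at h6
        omega
    have h2 : (({v} ×ˢ (univ : Finset (Fin (16 * 2))))).card = 16 * 2 := by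
      rw [card_product]
      simp
    have h3 : (univ.filter (fun p => f p = v ∧ indeg f v ≤ t)).card ≤ t := by
      by_cases h4 : indeg f v ≤ t
      · refine le_trans (card_le_card ?_) h4
        intro p hp
        rw [mem_filter] at hp ⊢
        exact ⟨mem_univ _, hp.2.1⟩
      · rw [filter_false_of_mem (fun p _ h => h4 h.2)]
        simp
    show (univ.filter (fun p => g p = v)).card ≤ _
    omega

end Pool.Agent.T9h82.SL
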