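import Pool.Agent.T9h82.SL.BLine

set_option autoImplicit false
set_option linter.unusedSectionVars false

/-!
# The lower bound for one graph and one block size
-/

namespace Pool.Agent.T9h82.SL

open Finset Classical
open Pool.Agent.T9h49.RK (PForm Rule Derives Refutes Ed Inc tl hd bd par par_flip outd outd_le
  connected eval_subst)

section

variable {N D q : ℕ}

/-- the condition of the vertex `v` after the restriction -/
noncomputable def dff (f : Fin (N + 1) × Fin D → Fin (N + 1)) (V : Finset (Ed N D × Fin q))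
    (a0 : Ed N D × Fin q → Bool) (v : Fin (N + 1)) (a : Ed N D × Fin q → Bool) : ZMod 2 :=
  par (Inc f) v (mixa V a0 a) + 1

def MV (f : Fin (N + 1) × Fin D → Fin (N + 1)) (V : Finset (Ed N D × Fin q))
    (v : Fin (N + 1)) (p : Ed N D × Fin q) : Prop := Inc f v p.1 ∧ p ∈ V

theorem flip_dff (f : Fin (N + 1) × Fin D → Fin (N + 1)) (V : Finset (Ed N D × Fin q))
    (a0 : Ed N D × Fin q → Bool) : Flip (MV f V) (dff f V a0) := by
  intro v a x b
  unfold dff MV
  by_cases hx : x ∈ V
  · by_cases hb : a x = b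
    · subst hb
      rw [Function.update_eq_self]
      simp
    · have h1 : mixa V a0 (Function.update a x b) = T9h49.RK.flip (mixa V a0 a) x := by
        funext z
        unfold T9h49.RK.flip
        by_cases hz : z = x
        · subst hz
          simp only [mixa, hx, if_true, Function.update_self]
          revert hb
          cases a z <;> cases b <;> simp
        · rw [Function.update_of_ne hz]
          simp only [mixa, Function.update_of_ne hz]
      have h2 : par (Inc f) v (mixa V a0 (Function.update a x b)) =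
          par (Inc f) v (mixa V a0 a) + (if Inc f v x.1 then 1 else 0) := by
        rw [h1]
        have h3 := par_flip (Inc f) v (mixa V a0 a) x
        have e : ∀ i1 i2 : DecidableEq (Ed N D × Fin q),
            @T9h49.RK.flip _ i1 (mixa V a0 a) x = @T9h49.RK.flip _ i2 (mixa V a0 a) x := by
          intro i1 i2
          rw [Subsingleton.elim i1 i2]
        rw [e _ inferInstance] at h3
        by_cases hI : Inc f v x.1
        · rw [if_pos hI] at h3 ⊢
          exact h3
        · rw [if_neg hI] at h3 ⊢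
          exact h3
      rw [h2]
      by_cases hI : Inc f v x.1
      · rw [if_pos hI, if_pos ⟨⟨hI, hx⟩, hb⟩]
      · rw [if_neg hI, if_neg (fun h => hI h.1.1)]
        ring
  · have h1 : mixa V a0 (Function.update a x b) = mixa V a0 a := by
      funext z
      unfold mixa
      by_cases hz : z = x
      · subst hz
        simp [hx]
      · rw [Function.update_of_ne hz]
    rw [h1, if_neg (fun h => hx h.1.2), add_zero]

theorem cS_ne {f : Fin (N + 1) × Fin D → Fin (N + 1)} {V : Finset (Ed N D × Fin q)}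
    {S : Finset (Fin (N + 1))} {p : Ed N D × Fin q} (hp : p ∈ V) (hb : p.1 ∈ bd (Inc f) S) :
    cS (MV f V) S p ≠ 0 := by
  have h1 : (S.filter (fun v => Inc f v p.1)).card = 1 := by
    have := (mem_filter.mp hb).2
    convert this
  have h2 : cS (MV f V) S p = 1 := by
    unfold cS MV
    simp only [hp, and_true]
    rw [Finset.sum_boole, h1]
    simp
  rw [h2]
  decide

theorem expand {f : Fin (N + 1) × Fin D → Fin (N + 1)} (hN : 1 ≤ N)
    (hexp : ∀ A : Finset (Fin (N + 1)), N + 1 < 4 * A.card → 2 * A.card ≤ N + 1 →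
      N + 1 ≤ 2 * outd f A) {V : Finset (Ed N D × Fin q)}
    (hV : ∀ e, cnt Prod.fst V e = 1) : Expand (MV f V) 2 (N / 2) := by
  have h1 : ∀ e : Ed N D, ∃ p ∈ V, p.1 = e := by
    intro e
    have h2 : 0 < cnt Prod.fst V e := by rw [hV e]; exact one_pos
    obtain ⟨p, hp⟩ := card_pos.mp h2
    exact ⟨p, (mem_filter.mp hp).1, (mem_filter.mp hp).2⟩
  choose s hs1 hs2 using h1
  refine ⟨le_refl _, by rw [Fintype.card_fin]; omega, ?_, ?_⟩
  · intro S hne hS
    rw [Fintype.card_fin] at hS
    obtain ⟨e, he⟩ := connected f S hne (by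
      rintro rfl
      rw [card_univ, Fintype.card_fin] at hS
      omega)
    exact ⟨s e, cS_ne (hs1 e) (by rw [hs2]; exact he)⟩
  · intro S h2 h3
    rw [Fintype.card_fin] at h2 h3
    have h4 := hexp S (by omega) h3
    have h5 := outd_le f S
    have h6 : (bd (Inc f) S).card ≤ (univ.filter (fun x => cS (MV f V) S x ≠ 0)).card := by
      refine card_le_card_of_injOn s ?_ ?_
      · intro e he
        rw [mem_coe, mem_filter]
        exact ⟨mem_univ _, cS_ne (hs1 e) (by rw [hs2]; exact he)⟩
      · intro e _ e' _ h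
        rw [← hs2 e, ← hs2 e', h]
    omega

/-- all lines are true in the sense of `Tr` -/
theorem tr_all {f : Fin (N + 1) × Fin D → Fin (N + 1)} {V : Finset (Ed N D × Fin q)}
    {a0 : Ed N D × Fin q → Bool} {lim : ℕ} (H : Expand (MV f V) 2 lim) {F : List PForm}
    (hF : ∀ A ∈ F, ∃ v, ∀ x : Ed N D × Fin q → Bool, par (Inc f) v x = 1 →
      A.eval (T9h49.RK.ext x) = true)
    {Φ : Set Rule} {r K : ℕ} (hΦ : ∀ ρ ∈ Φ, ρ.Sound ∧ ρ.prem.length ≤ r)
    (hlim : (r + 1) * K ≤ lim) {π : List PForm} (hder : Derives Φ F π) :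
    (∀ A ∈ π, DT K (fun a => A.eval (T9h49.RK.ext (mixa V a0 a)))) →
    ∀ A ∈ π, Tr (MV f V) (dff f V a0) K (fun a => A.eval (T9h49.RK.ext (mixa V a0 a))) := by
  induction hder with
  | nil => intro _ A hA; simp at hA
  | @hyp π A _ hA ih =>
    intro hDT B hB
    rcases List.mem_cons.mp hB with rfl | hB
    · obtain ⟨v, hv⟩ := hF B hA
      refine Tr.ax H (flip_dff f V a0) (v := v) (fun a ha => hv _ ?_)
      unfold dff at ha
      revert ha
      generalize par (Inc f) v (mixa V a0 a) = u
      revert u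
      decide
    · exact ih (fun C hC => hDT C (List.mem_cons_of_mem _ hC)) B hB
  | @rule π ρ σ _ hρ hprem ih =>
    intro hDT B hB
    have ih' := ih (fun C hC => hDT C (List.mem_cons_of_mem _ hC))
    rcases List.mem_cons.mp hB with rfl | hB
    · refine Tr.inf H (flip_dff f V a0) hlim (r := r)
        (S := (ρ.prem.map (PForm.subst σ)).map
          (fun A => fun a => A.eval (T9h49.RK.ext (mixa V a0 a)))) ?_ ?_ ?_ ?_
      · simpa using (hΦ ρ hρ).2
      · intro p hp
        rw [List.map_map] at hp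
        obtain ⟨A, hA, rfl⟩ := List.mem_map.mp hp
        exact ih' _ (hprem A hA)
      · intro p hp
        rw [List.map_map] at hp
        obtain ⟨A, hA, rfl⟩ := List.mem_map.mp hp
        exact hDT _ (List.mem_cons_of_mem _ (hprem A hA))
      · intro a ha
        rw [eval_subst]
        refine (hΦ ρ hρ).1 _ fun A hA => ?_
        rw [← eval_subst]
        apply ha (fun a => (A.subst σ).eval (T9h49.RK.ext (mixa V a0 a)))
        rw [List.map_map]
        exact List.mem_map.mpr ⟨A, hA, rfl⟩
    · exact ih' B hB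

theorem core {r1 : ℕ} {κ τ : ℝ} {Y : ℕ → ℝ} (P : Params r1 κ τ Y) (hN : 1 ≤ N) (hq : 1 ≤ q)
    {f : Fin (N + 1) × Fin D → Fin (N + 1)}
    (hexp : ∀ A : Finset (Fin (N + 1)), N + 1 < 4 * A.card → 2 * A.card ≤ N + 1 →
      N + 1 ≤ 2 * outd f A) {F : List PForm}
    (hF : ∀ A ∈ F, ∃ v, ∀ x : Ed N D × Fin q → Bool, par (Inc f) v x = 1 →
      A.eval (T9h49.RK.ext x) = true)
    {Φ : Set Rule} {r : ℕ} (hΦ : ∀ ρ ∈ Φ, ρ.Sound ∧ ρ.prem.length ≤ r) {π : List PForm}
    (hπ : Refutes Φ F π) {w d s : ℕ} (hw : 2 ≤ w) (hwr : (r + 1) * (11 * w) ≤ N / 2)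
    (hd : 10 * d ≤ q * w) (hs : Y q * s ≤ w) (hl : ∀ A ∈ π, Short s d A.eval) :
    2 ^ w < π.length ^ 2 := by
  by_contra hcon
  push Not at hcon
  have hwR : (2 : ℝ) ≤ w := by exact_mod_cast hw
  have hqR : (1 : ℝ) ≤ q := by exact_mod_cast hq
  -- the trees of the lines
  have h1 := fun i : Fin π.length => (hl (π.get i) (List.get_mem _ _)).toFT
    (univ : Finset (Ed N D × Fin q)) (fun _ => false)
  choose t ht1 ht2 ht3 using h1
  have hcnt : ∀ e : Ed N D, cnt Prod.fst (univ : Finset (Ed N D × Fin q)) e = q := by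
    intro e
    unfold cnt
    have : (univ.filter (fun z : Ed N D × Fin q => z.1 = e)) = {e} ×ˢ univ := by
      ext z
      rw [mem_filter, mem_product, mem_singleton]
      simp
    rw [this, card_product]
    simp
  obtain ⟨V, _, hV, a0, t', hv', he', hp'⟩ := run P (w := w) (th := w) (by linarith) rfl
    (blk := (Prod.fst : Ed N D × Fin q → Ed N D)) (univ : Finset (Ed N D × Fin q)).card univ
    (le_refl _) (fun e => by rw [hcnt e]; exact hq) t ht1
  -- the initial potential
  have hQ1 : 1 ≤ 2 * Q q := by have := Q_ge q; linarith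
  have hinit : ∑ i, pot (fun z => Q (cnt Prod.fst (univ : Finset (Ed N D × Fin q)) z.1))
      (fun z => Y (cnt Prod.fst (univ : Finset (Ed N D × Fin q)) z.1)) (w : ℝ) w (t i) ≤
      (4 * (w : ℝ)) ^ w := by
    have e1 : (fun z : Ed N D × Fin q => Q (cnt Prod.fst (univ : Finset (Ed N D × Fin q)) z.1)) =
        fun _ => Q q := by funext z; rw [hcnt]
    have e2 : (fun z : Ed N D × Fin q => Y (cnt Prod.fst (univ : Finset (Ed N D × Fin q)) z.1)) =
        fun _ => Y q := by funext z; rw [hcnt]
    rw [e1, e2]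
    have h2 : ∀ i ∈ (univ : Finset (Fin π.length)),
        pot (fun _ => Q q) (fun _ => Y q) (w : ℝ) w (t i) ≤
        (2 * Q q) ^ d * (2 * (w : ℝ)) ^ w := by
      intro i _
      refine (pot_le_of_ShF hQ1 (P.Ypos q).le (by linarith) (t i) d (ht2 i)).trans ?_
      apply mul_le_mul_of_nonneg_left _ (by positivity)
      apply pow_le_pow_left₀
      · have := P.Ypos q
        positivity
      · linarith
    refine (sum_le_sum h2).trans ?_
    rw [sum_const, nsmul_eq_mul, card_univ, Fintype.card_fin]
    have h3 : (2 * Q q) ^ d ≤ Real.exp (3 / 10 * w) := by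
      have h4 : 2 * Q q ≤ Real.exp (3 / q) := by
        have := Real.add_one_le_exp ((3 : ℝ) / q)
        unfold Q
        have e3 : (2 : ℝ) * (1 / 2 + 3 / 2 / q) = 3 / q + 1 := by ring
        rw [e3]
        exact this
      calc (2 * Q q) ^ d ≤ (Real.exp (3 / q)) ^ d := pow_le_pow_left₀ (by linarith) h4 _
        _ = Real.exp (d * (3 / q)) := by rw [← Real.exp_nat_mul]
        _ ≤ _ := by
          apply Real.exp_le_exp.mpr
          have h5 : (10 : ℝ) * d ≤ q * w := by exact_mod_cast hd
          rw [← mul_div_assoc, div_le_iff₀ (by linarith)]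
          linarith
    have h4 : (π.length : ℝ) * Real.exp (3 / 10 * w) ≤ 2 ^ w := by
      have h5 : ((π.length : ℝ) * Real.exp (3 / 10 * w)) ^ 2 ≤ ((2 : ℝ) ^ w) ^ 2 := by
        rw [mul_pow, sq ((2 : ℝ) ^ w)]
        apply mul_le_mul
        · exact_mod_cast hcon
        · rw [← Real.exp_nat_mul]
          have h6 : ((2 : ℕ) : ℝ) * (3 / 10 * (w : ℝ)) = w * (3 / 5) := by push_cast; ring
          rw [h6, Real.exp_nat_mul]
          apply pow_le_pow_left₀ (Real.exp_pos _).le
          have h7 : Real.exp (3 / 5) ≤ Real.exp (Real.log 2) := by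
            apply Real.exp_le_exp.mpr
            have := Real.log_two_gt_d9
            linarith
          rwa [Real.exp_log (by norm_num)] at h7
        · positivity
        · positivity
      exact le_of_sq_le_sq h5 (by positivity)
    calc (π.length : ℝ) * ((2 * Q q) ^ d * (2 * (w : ℝ)) ^ w)
        ≤ (π.length : ℝ) * (Real.exp (3 / 10 * w) * (2 * (w : ℝ)) ^ w) := by
          apply mul_le_mul_of_nonneg_left _ (by positivity)
          apply mul_le_mul_of_nonneg_right h3 (by positivity)
      _ = ((π.length : ℝ) * Real.exp (3 / 10 * w)) * (2 * (w : ℝ)) ^ w := by ring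
      _ ≤ 2 ^ w * (2 * (w : ℝ)) ^ w := mul_le_mul_of_nonneg_right h4 (by positivity)
      _ = (4 * (w : ℝ)) ^ w := by rw [← mul_pow]; ring
  have hB := hp'.trans hinit
  have hpi : ∀ i, pot (fun _ => 2) (fun _ => 2 / 5) (w : ℝ) w (t' i) ≤ (4 * (w : ℝ)) ^ w := by
    intro i
    refine le_trans ?_ hB
    apply single_le_sum (f := fun i => pot (fun _ => 2) (fun _ => 2 / 5) (w : ℝ) w (t' i))
      (fun j _ => ?_) (mem_univ i)
    exact pot_nonneg (fun _ => by norm_num) (by linarith) (fun _ => by norm_num) _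
  have hDT : ∀ i, DT (11 * w) (fun a => evF a (t' i)) := by
    intro i
    have h2 : (4 * (w : ℝ)) ^ w ≤ 2 ^ (3 * w) * ((w : ℝ) - 1) ^ w := by
      rw [pow_mul, ← mul_pow]
      apply pow_le_pow_left₀ (by positivity)
      norm_num
      linarith
    have h3 := dt_of_pot (w := w) (B := (4 * (w : ℝ)) ^ w) (th := w) (S := 8 * w) (by linarith)
      (by
        intro s' hs'
        have h4 : (w : ℝ) + 2 / 5 * s' ≤ 4 * w := by
          refine le_of_pow_le_pow_left₀ (by omega) (by positivity) hs'
        have h5 : (s' : ℝ) ≤ 8 * w := by linarith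
        exact_mod_cast h5) (t' i) V (hv' i) (3 * w) ((hpi i).trans h2) (hpi i)
    exact h3.mono (by omega)
  have hDT' : ∀ A ∈ π, DT (11 * w) (fun a => A.eval (T9h49.RK.ext (mixa V a0 a))) := by
    intro A hA
    obtain ⟨i, rfl⟩ := List.get_of_mem hA
    have h2 := hDT i
    have h3 : (fun a => evF a (t' i)) =
        fun a => (π.get i).eval (T9h49.RK.ext (mixa V a0 a)) := by
      funext a
      rw [he', ht3]
      congr 2
      funext z
      simp [mixa]
    rwa [h3] at h2
  have H := expand hN hexp hV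
  obtain ⟨A, hA, hfalse⟩ := hπ.2
  exact not_Tr_false H (fun a => hfalse _)
    (tr_all H hF hΦ (by omega) hπ.1 hDT' A hA)

end

end Pool.Agent.T9h82.SL
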