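import Pool.Agent.T9h82.SL.BRun

set_option autoImplicit false
set_option linter.unusedSectionVars false

/-!
# Systems of parity conditions with expansion: small decision trees do not refute them
-/

namespace Pool.Agent.T9h82.SL

open Finset Classical

variable {W X : Type} [Fintype W] [Fintype X] [DecidableEq W] [DecidableEq X]

/-- the parity of the number of members of `S` which contain `x` -/
noncomputable def cS (M : W → X → Prop) (S : Finset W) (x : X) : ZMod 2 :=
  ∑ v ∈ S, if M v x then 1 else 0

/-- `df v a = 0` is the condition `v`; it changes with each variable in `M v` -/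
def Flip (M : W → X → Prop) (df : W → (X → Bool) → ZMod 2) : Prop :=
  ∀ v a x b, df v (Function.update a x b) = df v a + (if M v x ∧ a x ≠ b then 1 else 0)

noncomputable def DF (df : W → (X → Bool) → ZMod 2) (S : Finset W) (a : X → Bool) : ZMod 2 :=
  ∑ v ∈ S, df v a

theorem DF_update {M : W → X → Prop} {df : W → (X → Bool) → ZMod 2} (h : Flip M df)
    (S : Finset W) (a : X → Bool) (x : X) (b : Bool) :
    DF df S (Function.update a x b) = DF df S a + (if a x ≠ b then cS M S x else 0) := by
  unfold DF cS
  by_cases hb : a x ≠ b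
  · rw [if_pos hb, ← sum_add_distrib]
    apply sum_congr rfl
    intro v _
    rw [h v a x b]
    simp [hb]
  · rw [if_neg hb, add_zero]
    apply sum_congr rfl
    intro v _
    rw [h v a x b, if_neg (fun h' => hb h'.2), add_zero]

theorem DF_congr {M : W → X → Prop} {df : W → (X → Bool) → ZMod 2} (h : Flip M df)
    (S : Finset W) (D : Finset X) : (∀ x ∈ D, cS M S x = 0) → ∀ b b' : X → Bool,
      (∀ x, x ∉ D → b x = b' x) → DF df S b = DF df S b' := by
  induction D using Finset.induction_on with
  | empty =>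
    intro _ b b' hbb
    have : b = b' := funext fun x => hbb x (by simp)
    rw [this]
  | insert x D hx ih =>
    intro hc b b' hbb
    have h1 := ih (fun z hz => hc z (mem_insert_of_mem hz)) (Function.update b x (b' x)) b' (by
      intro z hz
      by_cases hzx : z = x
      · subst hzx; simp
      · rw [Function.update_of_ne hzx]
        exact hbb z (by simp [hzx, hz]))
    rw [← h1, DF_update h, hc x (mem_insert_self _ _)]
    simp

/-- consistency with the small sets of conditions -/
def Cons (M : W → X → Prop) (df : W → (X → Bool) → ZMod 2) (Q : Finset X) (b : X → Bool) : Prop :=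
  ∀ S : Finset W, 2 * S.card ≤ Fintype.card W → (∀ x, x ∉ Q → cS M S x = 0) → DF df S b = 0

/-- expansion: sets of medium size have more than `lim` boundary variables -/
structure Expand (M : W → X → Prop) (R lim : ℕ) : Prop where
  hR : 2 ≤ R
  hW : 2 ≤ Fintype.card W
  conn : ∀ S : Finset W, S.Nonempty → 2 * S.card ≤ Fintype.card W → ∃ x, cS M S x ≠ 0
  exp : ∀ S : Finset W, Fintype.card W < 2 * R * S.card → 2 * S.card ≤ Fintype.card W →
    lim < (univ.filter (fun x => cS M S x ≠ 0)).card

theorem cS_symmDiff (M : W → X → Prop) (S T : Finset W) (x : X) :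
    cS M (symmDiff S T) x = cS M S x + cS M T x := by
  unfold cS
  rw [symmDiff_def, Finset.sup_eq_union, sum_union (by
    rw [Finset.disjoint_left]
    intro v hv hv'
    rw [mem_sdiff] at hv hv'
    exact hv.2 hv'.1)]
  rw [← sum_inter_add_sum_sdiff S T, ← sum_inter_add_sum_sdiff T S, inter_comm T S]
  have : ∀ z : ZMod 2, z + z = 0 := by decide
  linear_combination (-1 : ZMod 2) * this (∑ v ∈ S ∩ T, if M v x then (1 : ZMod 2) else 0)

theorem DF_symmDiff (df : W → (X → Bool) → ZMod 2) (S T : Finset W) (a : X → Bool) :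
    DF df (symmDiff S T) a = DF df S a + DF df T a := by
  unfold DF
  rw [symmDiff_def, Finset.sup_eq_union, sum_union (by
    rw [Finset.disjoint_left]
    intro v hv hv'
    rw [mem_sdiff] at hv hv'
    exact hv.2 hv'.1)]
  rw [← sum_inter_add_sum_sdiff S T, ← sum_inter_add_sum_sdiff T S, inter_comm T S]
  have : ∀ z : ZMod 2, z + z = 0 := by decide
  linear_combination (-1 : ZMod 2) * this (∑ v ∈ S ∩ T, df v a)

theorem z2 (a : ZMod 2) : a ≠ 0 → a = 1 := by
  revert a
  decide

theorem Cons.extend {M : W → X → Prop} {df : W → (X → Bool) → ZMod 2} {R lim : ℕ}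
    (H : Expand M R lim) (hf : Flip M df) {Q : Finset X} {b : X → Bool} (hc : Cons M df Q b)
    (hQ : Q.card + 1 ≤ lim) {x : X} (hx : x ∉ Q) :
    ∃ c, Cons M df (insert x Q) (Function.update b x c) := by
  by_contra hcon
  push Not at hcon
  have h1 : ∀ c, ∃ S : Finset W, 2 * R * S.card ≤ Fintype.card W ∧
      (∀ z, z ∉ Q → z ≠ x → cS M S z = 0) ∧ cS M S x = 1 ∧
      DF df S (Function.update b x c) = 1 := by
    intro c
    have h2 := hcon c
    unfold Cons at h2
    push Not at h2
    obtain ⟨S, hS1, hS2, hS3⟩ := h2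
    refine ⟨S, ?_, fun z hz hzx => hS2 z (by simp [hz, hzx]), ?_, z2 _ hS3⟩
    · by_contra hlt
      push Not at hlt
      have h3 := H.exp S hlt hS1
      have h4 : (univ.filter (fun z => cS M S z ≠ 0)).card ≤ (insert x Q).card := by
        apply card_le_card
        intro z hz
        by_contra hz'
        exact (mem_filter.mp hz).2 (hS2 z hz')
      have h5 := card_insert_le x Q
      omega
    · apply z2
      intro h0
      apply hS3
      rw [DF_update hf, h0]
      simp only [ite_self, add_zero]
      apply hc S hS1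
      intro z hz
      by_cases hzx : z = x
      · rw [hzx]; exact h0
      · exact hS2 z (by simp [hz, hzx])
  obtain ⟨S0, a0, b0, c0, d0⟩ := h1 false
  obtain ⟨S1, a1, b1, c1, d1⟩ := h1 true
  have hcard : 2 * (symmDiff S0 S1).card ≤ Fintype.card W := by
    have h2 : (symmDiff S0 S1).card ≤ S0.card + S1.card := by
      rw [symmDiff_def, Finset.sup_eq_union]
      refine (card_union_le _ _).trans ?_
      exact add_le_add (card_le_card sdiff_subset) (card_le_card sdiff_subset)
    have h3 := H.hR
    nlinarith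
  have h2 := hc (symmDiff S0 S1) hcard (by
    intro z hz
    rw [cS_symmDiff]
    by_cases hzx : z = x
    · rw [hzx, c0, c1]; decide
    · rw [b0 z hz hzx, b1 z hz hzx]; simp)
  rw [DF_symmDiff] at h2
  rw [DF_update hf, c0] at d0
  rw [DF_update hf, c1] at d1
  revert h2 d0 d1
  generalize DF df S0 b = u
  generalize DF df S1 b = v
  cases b x <;> revert u v <;> decide

/-- `b` on `Q` forces the value of `g` -/
def Forces (Q : Finset X) (b : X → Bool) (g : (X → Bool) → Bool) (v : Bool) : Prop :=
  ∀ a : X → Bool, (∀ x ∈ Q, a x = b x) → g a = v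

theorem decided {M : W → X → Prop} {df : W → (X → Bool) → ZMod 2} {R lim : ℕ}
    (H : Expand M R lim) (hf : Flip M df) {d : ℕ} {g : (X → Bool) → Bool} (hg : DT d g) :
    ∀ (Q : Finset X) (b : X → Bool), Cons M df Q b → Q.card + d ≤ lim →
      ∃ Q' b', Q ⊆ Q' ∧ (∀ x ∈ Q, b' x = b x) ∧ Cons M df Q' b' ∧ Q'.card ≤ Q.card + d ∧
        ∃ T ⊆ Q', T.card ≤ d ∧ ∃ v, Forces T b' g v := by
  induction hg with
  | const d g c h =>
    intro Q b hc _
    exact ⟨Q, b, Subset.refl _, fun _ _ => rfl, hc, by omega, ∅, by simp, by simp, c,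
      fun a _ => h a⟩
  | query d g x h0 h1 ih0 ih1 =>
    intro Q b hc hQ
    have ih : ∀ (c : Bool) (Q : Finset X) (b : X → Bool), Cons M df Q b → Q.card + d ≤ lim →
      ∃ Q' b', Q ⊆ Q' ∧ (∀ x ∈ Q, b' x = b x) ∧ Cons M df Q' b' ∧ Q'.card ≤ Q.card + d ∧
        ∃ T ⊆ Q', T.card ≤ d ∧ ∃ v, Forces T b' (fun a => g (Function.update a x c)) v := by
      intro c
      cases c
      · intro Q b hc hQ
        obtain ⟨Q', b', h1, h2, h3, h4, T, h5, h6, v, h7⟩ := ih0 Q b hc hQ
        exact ⟨Q', b', h1, h2, h3, h4, T, h5, h6, v, fun a ha => by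
          rw [← h7 a ha]⟩
      · intro Q b hc hQ
        obtain ⟨Q', b', h1, h2, h3, h4, T, h5, h6, v, h7⟩ := ih1 Q b hc hQ
        exact ⟨Q', b', h1, h2, h3, h4, T, h5, h6, v, fun a ha => by
          rw [← h7 a ha]⟩
    by_cases hx : x ∈ Q
    · obtain ⟨Q', b', h1, h2, h3, h4, T, h5, h6, v, h7⟩ := ih (b x) Q b hc (by omega)
      refine ⟨Q', b', h1, h2, h3, by omega, insert x T, ?_, ?_, v, ?_⟩
      · exact insert_subset (h1 hx) h5
      · exact (card_insert_le _ _).trans (by omega)
      · intro a ha
        have h8 : a x = b x := by rw [ha x (mem_insert_self _ _), h2 x hx]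
        have h9 := h7 a (fun z hz => ha z (mem_insert_of_mem hz))
        rw [← h8] at h9
        simpa using h9
    · obtain ⟨c, hc'⟩ := hc.extend H hf (by omega) hx
      have hcard : (insert x Q).card = Q.card + 1 := card_insert_of_notMem hx
      obtain ⟨Q', b', h1, h2, h3, h4, T, h5, h6, v, h7⟩ := ih c (insert x Q) _ hc' (by omega)
      refine ⟨Q', b', (subset_insert _ _).trans h1, ?_, h3, by omega, insert x T, ?_, ?_, v, ?_⟩
      · intro z hz
        rw [h2 z (mem_insert_of_mem hz), Function.update_of_ne]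
        rintro rfl
        exact hx hz
      · exact insert_subset (h1 (mem_insert_self _ _)) h5
      · exact (card_insert_le _ _).trans (by omega)
      · intro a ha
        have h8 : a x = c := by
          rw [ha x (mem_insert_self _ _), h2 x (mem_insert_self _ _), Function.update_self]
        have h9 := h7 a (fun z hz => ha z (mem_insert_of_mem hz))
        rw [← h8] at h9
        simpa using h9

/-- no small consistent assignment makes `g` false -/
def Tr (M : W → X → Prop) (df : W → (X → Bool) → ZMod 2) (D : ℕ) (g : (X → Bool) → Bool) : Prop :=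
  ∀ (Q : Finset X) (b : X → Bool), Cons M df Q b → Q.card ≤ D → ¬ Forces Q b g false

theorem Tr.ax {M : W → X → Prop} {df : W → (X → Bool) → ZMod 2} {R lim : ℕ}
    (H : Expand M R lim) (hf : Flip M df) {D : ℕ} {g : (X → Bool) → Bool} {v : W}
    (h : ∀ a, df v a = 0 → g a = true) : Tr M df D g := by
  intro Q b hc _ hF
  have h1 : df v b ≠ 0 := by
    intro h0
    have h2 := h b h0
    rw [hF b (fun _ _ => rfl)] at h2
    exact absurd h2 (by simp)
  have h2 : ∃ x, x ∉ Q ∧ cS M {v} x ≠ 0 := by
    by_contra hcon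
    push Not at hcon
    apply h1
    have h3 := hc {v} (by simpa using H.hW) hcon
    unfold DF at h3
    simpa using h3
  obtain ⟨x, hxQ, hx⟩ := h2
  have hM : M v x := by
    by_contra hn
    apply hx
    unfold cS
    rw [sum_singleton, if_neg hn]
  have h3 : df v (Function.update b x (!b x)) = 0 := by
    rw [hf, if_pos ⟨hM, by cases b x <;> simp⟩, z2 _ h1]
    decide
  have h4 := h _ h3
  rw [hF _ (fun z hz => by
    rw [Function.update_of_ne]
    rintro rfl
    exact hxQ hz)] at h4
  exact absurd h4 (by simp)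

theorem Tr.inf {M : W → X → Prop} {df : W → (X → Bool) → ZMod 2} {R lim : ℕ}
    (H : Expand M R lim) (hf : Flip M df) {D r : ℕ} (hlim : (r + 1) * D ≤ lim)
    {g : (X → Bool) → Bool} {S : List ((X → Bool) → Bool)} (hS : S.length ≤ r)
    (hT : ∀ p ∈ S, Tr M df D p) (hD : ∀ p ∈ S, DT D p)
    (h : ∀ a, (∀ p ∈ S, p a = true) → g a = true) : Tr M df D g := by
  intro Q b hc hQ hF
  have key : ∀ S : List ((X → Bool) → Bool), S.length ≤ r → (∀ p ∈ S, Tr M df D p) →
      (∀ p ∈ S, DT D p) → ∃ Q' b', Q ⊆ Q' ∧ (∀ x ∈ Q, b' x = b x) ∧ Cons M df Q' b' ∧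
        Q'.card ≤ Q.card + S.length * D ∧ ∀ p ∈ S, Forces Q' b' p true := by
    intro S
    induction S with
    | nil =>
      intro _ _ _
      exact ⟨Q, b, Subset.refl _, fun _ _ => rfl, hc, by simp, by simp⟩
    | cons p S ih =>
      intro hlen hT' hD'
      obtain ⟨Q1, b1, h1, h2, h3, h4, h5⟩ := ih (by simp at hlen; omega)
        (fun p' hp' => hT' p' (List.mem_cons_of_mem _ hp'))
        (fun p' hp' => hD' p' (List.mem_cons_of_mem _ hp'))
      have hlen' : S.length + 1 ≤ r := by simpa using hlen
      have hb : Q1.card + D ≤ lim := by nlinarith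
      obtain ⟨Q2, b2, k1, k2, k3, k4, T, k5, k6, v, k7⟩ := decided H hf
        (hD' p (by simp)) Q1 b1 h3 hb
      refine ⟨Q2, b2, h1.trans k1, fun x hx => by rw [k2 x (h1 hx), h2 x hx], k3, ?_, ?_⟩
      · rw [List.length_cons]
        nlinarith
      · intro p' hp'
        rcases List.mem_cons.mp hp' with rfl | hp'
        · have hcT : Cons M df T b2 := by
            intro S' hS' hS''
            exact k3 S' hS' (fun x hx => hS'' x (fun hxT => hx (k5 hxT)))
          cases v
          · exact absurd k7 (hT' p' (by simp) T b2 hcT k6)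
          · intro a ha
            exact k7 a (fun x hx => ha x (k5 hx))
        · intro a ha
          exact h5 p' hp' a (fun x hx => by rw [ha x (k1 hx), k2 x hx])
  obtain ⟨Q', b', h1, h2, h3, h4, h5⟩ := key S hS hT hD
  have h6 : g b' = true := h b' (fun p hp => h5 p hp b' (fun _ _ => rfl))
  rw [hF b' h2] at h6
  exact absurd h6 (by simp)

theorem not_Tr_false {M : W → X → Prop} {df : W → (X → Bool) → ZMod 2} {R lim : ℕ}
    (H : Expand M R lim) {D : ℕ} {g : (X → Bool) → Bool} (h : ∀ a, g a = false) :
    ¬ Tr M df D g := by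
  intro hT
  apply hT ∅ (fun _ => false) _ (by simp) (fun a _ => h a)
  intro S hS hS'
  have : S = ∅ := by
    by_contra hne
    obtain ⟨x, hx⟩ := H.conn S (Finset.nonempty_iff_ne_empty.mpr hne) hS
    exact hx (hS' x (by simp))
  rw [this]
  simp [DF]

end Pool.Agent.T9h82.SL
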