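import Pool.Agent.T9h82.SL.Form

set_option autoImplicit false
set_option linter.unusedSectionVars false
set_option linter.unusedSimpArgs false

/-!
# Weighted sizes of formulas under restrictions
-/

namespace Pool.Agent.T9h82.SL

open NF

variable {X : Type} [DecidableEq X]

def multS (x : X) : Bool ⊕ NF X → ℕ
  | Sum.inl _ => 0
  | Sum.inr A => A.mult x

/-- weighted size -/
noncomputable def NF.ws (y : X → ℝ) : NF X → ℝ
  | lit x _ => y x
  | op _ A B => NF.ws y A + NF.ws y B

noncomputable def wsS (y : X → ℝ) : Bool ⊕ NF X → ℝ
  | Sum.inl _ => 0
  | Sum.inr A => A.ws y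

def restrS (x : X) (b : Bool) : Bool ⊕ NF X → Bool ⊕ NF X
  | Sum.inl c => Sum.inl c
  | Sum.inr A => restr x b A

theorem ws_nonneg {y : X → ℝ} (hy : ∀ z, 0 ≤ y z) (A : NF X) : 0 ≤ A.ws y := by
  induction A with
  | lit x b => exact hy x
  | op c A B ihA ihB => exact add_nonneg ihA ihB

theorem wsS_nonneg {y : X → ℝ} (hy : ∀ z, 0 ≤ y z) (r : Bool ⊕ NF X) : 0 ≤ wsS y r := by
  rcases r with c | A
  · exact le_refl _
  · exact ws_nonneg hy A

theorem ws_ge {y : X → ℝ} {m : ℝ} (hm : 0 ≤ m) (hy : ∀ z, m ≤ y z) (A : NF X) : m ≤ A.ws y := by
  induction A with
  | lit x b => exact hy x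
  | op c A B ihA ihB =>
    simp only [NF.ws]
    linarith

theorem ws_mono {y y' : X → ℝ} (hy : ∀ z, y z ≤ y' z) (A : NF X) : A.ws y ≤ A.ws y' := by
  induction A with
  | lit x b => exact hy x
  | op c A B ihA ihB => exact add_le_add ihA ihB

theorem ws_eq_sum [Fintype X] (y : X → ℝ) (A : NF X) : A.ws y = ∑ z, y z * A.mult z := by
  induction A with
  | lit x b => simp [NF.ws, NF.mult]
  | op c A B ihA ihB =>
    simp only [NF.ws, NF.mult, ihA, ihB, ← Finset.sum_add_distrib]
    apply Finset.sum_congr rfl
    intro z _
    push_cast
    ring

theorem wsS_eq_sum [Fintype X] (y : X → ℝ) (r : Bool ⊕ NF X) :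
    wsS y r = ∑ z, y z * multS z r := by
  rcases r with c | A
  · simp [wsS, multS]
  · exact ws_eq_sum y A

theorem wsS_le_of_mult [Fintype X] {y : X → ℝ} (hy : ∀ z, 0 ≤ y z) {r s : Bool ⊕ NF X}
    (h : ∀ z, multS z r ≤ multS z s) : wsS y r ≤ wsS y s := by
  rw [wsS_eq_sum, wsS_eq_sum]
  apply Finset.sum_le_sum
  intro z _
  apply mul_le_mul_of_nonneg_left _ (hy z)
  exact_mod_cast h z

theorem multS_comb (z : X) (c : Bool) (r s : Bool ⊕ NF X) :
    multS z (comb c r s) ≤ multS z r + multS z s := by
  rcases r with b | A <;> rcases s with b' | B <;> simp only [comb] <;>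
    (try split_ifs) <;> simp [multS, NF.mult]

theorem wsS_comb {y : X → ℝ} (hy : ∀ z, 0 ≤ y z) (c : Bool) (r s : Bool ⊕ NF X) :
    wsS y (comb c r s) ≤ wsS y r + wsS y s := by
  rcases r with b | A <;> rcases s with b' | B <;> simp only [comb] <;>
    (try split_ifs) <;> simp [wsS, NF.ws, ws_nonneg hy]

theorem mult_restr_le (x z : X) (b : Bool) (A : NF X) : multS z (restr x b A) ≤ A.mult z := by
  induction A with
  | lit x' b' =>
    by_cases h : x' = x
    · subst h; simp [restr, multS]
    · simp [restr, h, multS]
  | op c A B ihA ihB =>
    have := multS_comb z c (restr x b A) (restr x b B)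
    simp only [restr, NF.mult]
    omega

theorem mult_restr_self (x : X) (b : Bool) (A : NF X) : multS x (restr x b A) = 0 := by
  induction A with
  | lit x' b' =>
    by_cases h : x' = x
    · subst h; simp [restr, multS]
    · simp [restr, h, multS, NF.mult]
  | op c A B ihA ihB =>
    have := multS_comb x c (restr x b A) (restr x b B)
    simp only [restr]
    omega

theorem restr_of_mult {x : X} {b : Bool} {A : NF X} (h : A.mult x = 0) :
    restr x b A = Sum.inr A := by
  induction A with
  | lit x' b' =>
    simp only [NF.mult] at h
    have : x' ≠ x := by
      rintro rfl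
      simp at h
    simp [restr, this]
  | op c A B ihA ihB =>
    rw [mult_op] at h
    simp only [restr, ihA (by omega), ihB (by omega), comb]

theorem ws_restr_le {y : X → ℝ} (hy : ∀ z, 0 ≤ y z) (x : X) (b : Bool) (A : NF X) :
    wsS y (restr x b A) + y x * A.mult x ≤ A.ws y := by
  induction A with
  | lit x' b' =>
    by_cases h : x' = x
    · subst h; simp [restr, wsS, NF.mult, NF.ws]
    · simp [restr, h, wsS, NF.mult, NF.ws]
  | op c A B ihA ihB =>
    have := wsS_comb hy c (restr x b A) (restr x b B)
    simp only [restr, NF.mult, NF.ws]
    push_cast
    linarith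

theorem ws_restr_normal {y : X → ℝ} {m : ℝ} (hm : 0 ≤ m) (hy : ∀ z, m ≤ y z) (x : X) (b : Bool)
    (A : NF X) (hA : A.Normal) :
    wsS y (restr x b A) + y x * A.mult x + m * A.kill x b ≤ A.ws y := by
  have hy0 : ∀ z, 0 ≤ y z := fun z => hm.trans (hy z)
  induction A with
  | lit x' b' =>
    have := ws_restr_le hy0 x b (NF.lit x' b')
    simpa [NF.kill] using this
  | op c A B ihA ihB =>
    obtain ⟨h1, h2, hAn, hBn⟩ := hA
    have iA := ihA hAn
    have iB := ihB hBn
    have sA := ws_ge hm hy A
    have sB := ws_ge hm hy B
    have wop : (NF.op c A B).ws y = A.ws y + B.ws y := rfl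
    by_cases cA : A.IsLit x
    · have mB := h1 x cA
      have kB : B.kill x b = 0 := kill_of_mult mB
      have kB' : B.killLit x b c = 0 := by
        apply killLit_of_not
        intro hB
        cases B with
        | lit x' b' => simp only [NF.IsLit] at hB; simp [NF.mult, hB] at mB
        | op => exact hB
      cases A with
      | op => exact absurd cA (by simp [NF.IsLit])
      | lit x' b' =>
        simp only [NF.IsLit] at cA
        subst cA
        have rB : restr x' b B = Sum.inr B := restr_of_mult mB
        rw [kill_op, mult_op, wop, kill_lit, killLit_lit, mB, kB, kB']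
        have hm1 : (NF.lit x' b').mult x' = 1 := by simp [NF.mult]
        have hs1 : (NF.lit x' b' : NF X).ws y = y x' := rfl
        rw [hm1, hs1]
        simp only [restr, if_true, comb, true_and, rB]
        by_cases hc : (b == b') = c
        · have : ¬ ((b == b') = !c) := by rw [hc]; cases c <;> simp
          rw [if_pos hc, if_neg this]
          have h3 : wsS y (Sum.inr B : Bool ⊕ NF X) = B.ws y := rfl
          rw [h3]
          push_cast
          linarith
        · have : ((b == b') = !c) := by
            revert hc; cases (b == b') <;> cases c <;> simp
          rw [if_neg hc, if_pos this]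
          have h0 : wsS y (Sum.inl (!c) : Bool ⊕ NF X) = 0 := rfl
          rw [h0]
          push_cast
          linarith
    · by_cases cB : B.IsLit x
      · have mA := h2 x cB
        have kA : A.kill x b = 0 := kill_of_mult mA
        have kA' : A.killLit x b c = 0 := killLit_of_not cA
        cases B with
        | op => exact absurd cB (by simp [NF.IsLit])
        | lit x' b' =>
          simp only [NF.IsLit] at cB
          subst cB
          have rA : restr x' b A = Sum.inr A := restr_of_mult mA
          have hR : restr x' b (NF.lit x' b') = Sum.inl (b == b') := by simp [restr]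
          have hm1 : (NF.lit x' b').mult x' = 1 := by simp [NF.mult]
          have hs1 : (NF.lit x' b' : NF X).ws y = y x' := rfl
          rw [kill_op, mult_op, wop, kill_lit, killLit_lit, mA, kA, kA', hm1, hs1]
          simp only [true_and]
          rw [show restr x' b (NF.op c A (NF.lit x' b')) =
            comb c (restr x' b A) (restr x' b (NF.lit x' b')) from rfl, hR, rA]
          simp only [comb]
          by_cases hc : (b == b') = c
          · have : ¬ ((b == b') = !c) := by rw [hc]; cases c <;> simp
            rw [if_neg this, if_pos hc]
            have h3 : wsS y (Sum.inr A : Bool ⊕ NF X) = A.ws y := rfl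
            rw [h3]
            push_cast
            linarith
          · have h3 : ((b == b') = !c) := by
              revert hc; cases (b == b') <;> cases c <;> simp
            rw [if_pos h3, if_neg hc]
            have h0 : wsS y (Sum.inl (!c) : Bool ⊕ NF X) = 0 := rfl
            rw [h0]
            push_cast
            linarith
      · have kA' : A.killLit x b c = 0 := killLit_of_not cA
        have kB' : B.killLit x b c = 0 := killLit_of_not cB
        have := wsS_comb hy0 c (restr x b A) (restr x b B)
        rw [kill_op, mult_op, wop, kA', kB']
        rw [show restr x b (NF.op c A B) = comb c (restr x b A) (restr x b B) from rfl]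
        push_cast
        linarith

/-- normalisation which does not increase the number of occurrences of any variable -/
theorem exists_normal_mult (n : ℕ) : ∀ A : NF X, A.size ≤ n →
    ∃ r : Bool ⊕ NF X, (∀ a, evalS a r = A.eval a) ∧ sizeS r ≤ A.size ∧
      (∀ z, multS z r ≤ A.mult z) ∧ NormalS r := by
  induction n with
  | zero =>
    intro A hA
    have := one_le_size A
    omega
  | succ n ih =>
    intro A hA
    cases A with
    | lit x b => exact ⟨Sum.inr (NF.lit x b), fun a => rfl, le_refl _, fun z => le_refl _, trivial⟩
    | op c A B =>
      simp only [NF.size] at hA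
      have sA := one_le_size A
      have sB := one_le_size B
      obtain ⟨rA, eA, zA, mA, nA⟩ := ih A (by omega)
      obtain ⟨rB, eB, zB, mB, nB⟩ := ih B (by omega)
      have ev : ∀ a, evalS a (comb c rA rB) = (NF.op c A B).eval a := by
        intro a
        rw [evalS_comb, eA, eB]
        rfl
      have mop : ∀ z, multS z (comb c rA rB) ≤ (NF.op c A B).mult z := by
        intro z
        have h1 := multS_comb z c rA rB
        have h2 := mA z
        have h3 := mB z
        rw [mult_op]
        omega
      rcases rA with bA | A'
      · refine ⟨comb c (Sum.inl bA) rB, ev, ?_, mop, ?_⟩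
        · have := sizeS_comb c (Sum.inl bA) rB
          simp only [NF.size]; omega
        · simp only [comb]; split_ifs
          · exact nB
          · trivial
      rcases rB with bB | B'
      · refine ⟨comb c (Sum.inr A') (Sum.inl bB), ev, ?_, mop, ?_⟩
        · have := sizeS_comb c (Sum.inr A') (Sum.inl bB)
          simp only [NF.size]; omega
        · simp only [comb]; split_ifs
          · exact nA
          · trivial
      simp only [sizeS] at zA zB
      have mA' : ∀ z, A'.mult z ≤ A.mult z := mA
      have mB' : ∀ z, B'.mult z ≤ B.mult z := mB
      -- a smaller formula gives the claim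
      have small : ∀ r : Bool ⊕ NF X, (∀ a, evalS a r = (NF.op c A B).eval a) →
          sizeS r < A'.size + B'.size → (∀ z, multS z r ≤ (NF.op c A B).mult z) →
          ∃ r : Bool ⊕ NF X,
            (∀ a, evalS a r = (NF.op c A B).eval a) ∧ sizeS r ≤ (NF.op c A B).size ∧
            (∀ z, multS z r ≤ (NF.op c A B).mult z) ∧ NormalS r := by
        intro r hr hs hm
        rcases r with b | R
        · exact ⟨Sum.inl b, hr, by simp [sizeS], hm, trivial⟩
        · simp only [sizeS] at hs
          obtain ⟨r', e', z', m', n'⟩ := ih R (by omega)
          refine ⟨r', fun a => (e' a).trans (hr a), ?_, fun z => (m' z).trans (hm z), n'⟩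
          simp only [NF.size]; omega
      by_cases h1 : ∃ x, A'.IsLit x ∧ B'.mult x ≠ 0
      · obtain ⟨x, hx, hm⟩ := h1
        cases A' with
        | op => exact absurd hx (by simp [NF.IsLit])
        | lit x' b' =>
          simp only [NF.IsLit] at hx
          subst hx
          set b0 : Bool := if c then b' else !b' with hb0
          apply small (comb c (Sum.inr (NF.lit x' b')) (restr x' b0 B'))
          · intro a
            rw [evalS_comb, evalS_restr, ← ev a]
            simp only [comb, evalS, NF.eval]
            by_cases h2 : (a x' == b') = c
            · rw [if_pos h2, if_pos h2]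
              congr 1
              funext z
              by_cases hz : z = x'
              · subst hz
                rw [Function.update_self]
                revert h2
                rw [hb0]
                cases c <;> cases b' <;> cases a z <;> simp
              · rw [Function.update_of_ne hz]
            · rw [if_neg h2, if_neg h2]
          · have e1 := sizeS_comb c (Sum.inr (NF.lit x' b')) (restr x' b0 B')
            have e2 := size_restr_le x' b0 B'
            have e3 : sizeS (Sum.inr (NF.lit x' b') : Bool ⊕ NF X) = 1 := rfl
            have e4 : (NF.lit x' b' : NF X).size = 1 := rfl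
            omega
          · intro z
            have e1 := multS_comb z c (Sum.inr (NF.lit x' b')) (restr x' b0 B')
            have e2 := mult_restr_le x' z b0 B'
            have e3 : multS z (Sum.inr (NF.lit x' b') : Bool ⊕ NF X) = (NF.lit x' b').mult z := rfl
            have e4 := mA' z
            have e5 := mB' z
            rw [mult_op]
            omega
      by_cases h2 : ∃ x, B'.IsLit x ∧ A'.mult x ≠ 0
      · obtain ⟨x, hx, hm⟩ := h2
        cases B' with
        | op => exact absurd hx (by simp [NF.IsLit])
        | lit x' b' =>
          simp only [NF.IsLit] at hx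
          subst hx
          set b0 : Bool := if c then b' else !b' with hb0
          apply small (comb c (restr x' b0 A') (Sum.inr (NF.lit x' b')))
          · intro a
            rw [evalS_comb, evalS_restr, ← ev a]
            simp only [comb, evalS, NF.eval]
            by_cases h3 : (a x' == b') = c
            · have : Function.update a x' b0 = a := by
                funext z
                by_cases hz : z = x'
                · subst hz
                  rw [Function.update_self]
                  revert h3
                  rw [hb0]
                  cases c <;> cases b' <;> cases a z <;> simp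
                · rw [Function.update_of_ne hz]
              rw [this]
            · have h4 : (a x' == b') = !c := by
                revert h3; cases (a x' == b') <;> cases c <;> simp
              rw [h4]
              simp
          · have e1 := sizeS_comb c (restr x' b0 A') (Sum.inr (NF.lit x' b'))
            have e2 := size_restr_le x' b0 A'
            have e3 : sizeS (Sum.inr (NF.lit x' b') : Bool ⊕ NF X) = 1 := rfl
            have e4 : (NF.lit x' b' : NF X).size = 1 := rfl
            omega
          · intro z
            have e1 := multS_comb z c (restr x' b0 A') (Sum.inr (NF.lit x' b'))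
            have e2 := mult_restr_le x' z b0 A'
            have e3 : multS z (Sum.inr (NF.lit x' b') : Bool ⊕ NF X) = (NF.lit x' b').mult z := rfl
            have e4 := mA' z
            have e5 := mB' z
            rw [mult_op]
            omega
      push Not at h1 h2
      refine ⟨Sum.inr (NF.op c A' B'), ev, ?_, mop, h1, h2, nA, nB⟩
      simp only [sizeS, NF.size]; omega

end Pool.Agent.T9h82.SL
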