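import Pool.Agent.T9h82.SL.BPar
import Pool.Agent.T9h49.RK.Final
import Pool.Agent.T9h82.SL.BGraph

set_option autoImplicit false

/-!
# The lower bound in terms of the number of vertices and the block size
-/

namespace Pool.Agent.T9h82.SL

open Finset Classical
open Pool.Agent.T9h49.RK (PForm Rule Derives Refutes Ed Inc par outd indeg num num_inj sizeL Unsat
  sum_inc par_dich Uv Uv_nonempty tse mem_tse cl oddCl lit tse_clause tse_unsat cl_sound card_Uv
  tse_size_le cl_clause)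

theorem lower {δ : ℝ} (h0 : 0 < δ) (h1 : δ ≤ 1 / 2) (r : ℕ) : ∃ c : ℝ, 0 < c ∧ c ≤ 1 ∧ ∃ N0 : ℕ,
    ∀ N D q : ℕ, N0 ≤ N → 1 ≤ q → ∀ f : Fin (N + 1) × Fin D → Fin (N + 1),
      (∀ A : Finset (Fin (N + 1)), N + 1 < 4 * A.card → 2 * A.card ≤ N + 1 →
        N + 1 ≤ 2 * outd f A) → ∀ F : List PForm,
      (∀ A ∈ F, ∃ v, ∀ x : Ed N D × Fin q → Bool, par (Inc f) v x = 1 →
        A.eval (T9h49.RK.ext x) = true) →
      ∀ Φ : Set Rule, (∀ ρ ∈ Φ, ρ.Sound ∧ ρ.prem.length ≤ r) → ∀ π : List PForm,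
        Refutes Φ F π →
        (∀ A ∈ π, ∃ d s : ℕ, (d : ℝ) ≤ c * ((N : ℝ) + 1) * q ∧
          (s : ℝ) ≤ c * ((N : ℝ) + 1) * (q : ℝ) ^ (3 / 2 - δ) ∧ Short s d A.eval) →
        (2 : ℝ) ^ (c * ((N : ℝ) + 1)) ≤ π.length := by
  obtain ⟨r1, τ, C, Y, hC, P, hY⟩ := exists_params h0 h1
  set c0 : ℝ := 1 / (44 * ((r : ℝ) + 1)) with hc0
  have hc0pos : 0 < c0 := by positivity
  have hc01 : c0 ≤ 1 := by
    rw [hc0, div_le_one (by positivity)]
    have : (0 : ℝ) ≤ r := Nat.cast_nonneg _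
    linarith
  set c : ℝ := min (c0 / 10) (c0 / C) with hc
  have hcpos : 0 < c := by positivity
  have hcc0 : c ≤ c0 / 10 := min_le_left _ _
  refine ⟨c, hcpos, by linarith, 44 * (r + 1) * 2 + 1, ?_⟩
  intro N D q hN hq f hexp F hF Φ hΦ π hπ hl
  set w : ℕ := N / (22 * (r + 1)) with hw
  have hr1 : 0 < 22 * (r + 1) := by omega
  have hw1 : 22 * (r + 1) * w ≤ N := Nat.mul_div_le N _
  have hw2 : N < 22 * (r + 1) * (w + 1) := Nat.lt_mul_div_succ N hr1
  have hw3 : 2 ≤ w := by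
    rw [hw, Nat.le_div_iff_mul_le hr1]
    nlinarith
  have hwc : c0 * ((N : ℝ) + 1) ≤ w := by
    have h2 : (N : ℝ) + 1 ≤ 22 * ((r : ℝ) + 1) * (w + 1) := by exact_mod_cast hw2
    have h3 : (2 : ℝ) ≤ w := by exact_mod_cast hw3
    rw [hc0, div_mul_eq_mul_div, one_mul, div_le_iff₀ (by positivity)]
    have : (0 : ℝ) ≤ r := Nat.cast_nonneg _
    nlinarith
  have hqR : (1 : ℝ) ≤ q := by exact_mod_cast hq
  set d : ℕ := ⌊c * ((N : ℝ) + 1) * q⌋₊ with hd
  set s : ℕ := ⌊c * ((N : ℝ) + 1) * (q : ℝ) ^ (3 / 2 - δ)⌋₊ with hs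
  have hdle : (d : ℝ) ≤ c * ((N : ℝ) + 1) * q := Nat.floor_le (by positivity)
  have hsle : (s : ℝ) ≤ c * ((N : ℝ) + 1) * (q : ℝ) ^ (3 / 2 - δ) := Nat.floor_le (by positivity)
  have hcore := core P (by omega : 1 ≤ N) hq hexp hF hΦ hπ (w := w) (d := d) (s := s) hw3
    (by
      rw [Nat.le_div_iff_mul_le (by norm_num)]
      calc (r + 1) * (11 * w) * 2 = 22 * (r + 1) * w := by ring
        _ ≤ N := hw1)
    (by
      have h2 : (10 : ℝ) * d ≤ q * w := by
        calc (10 : ℝ) * d ≤ 10 * (c * ((N : ℝ) + 1) * q) := by linarith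
          _ ≤ 10 * (c0 / 10 * ((N : ℝ) + 1) * q) := by
              apply mul_le_mul_of_nonneg_left _ (by norm_num)
              apply mul_le_mul_of_nonneg_right _ (by positivity)
              exact mul_le_mul_of_nonneg_right hcc0 (by positivity)
          _ = q * (c0 * ((N : ℝ) + 1)) := by ring
          _ ≤ q * w := mul_le_mul_of_nonneg_left hwc (by positivity)
      exact_mod_cast h2)
    (by
      have h2 := hY q hq
      have h3 := P.Ypos q
      calc Y q * s ≤ Y q * (c * ((N : ℝ) + 1) * (q : ℝ) ^ (3 / 2 - δ)) :=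
            mul_le_mul_of_nonneg_left hsle h3.le
        _ = (Y q * (q : ℝ) ^ (3 / 2 - δ)) * (c * ((N : ℝ) + 1)) := by ring
        _ ≤ C * (c * ((N : ℝ) + 1)) := mul_le_mul_of_nonneg_right h2 (by positivity)
        _ ≤ C * (c0 / C * ((N : ℝ) + 1)) := by
            apply mul_le_mul_of_nonneg_left _ hC.le
            exact mul_le_mul_of_nonneg_right (min_le_right _ _) (by positivity)
        _ = c0 * ((N : ℝ) + 1) := by field_simp
        _ ≤ w := hwc)
    (by
      intro A hA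
      obtain ⟨d', s', h2, h3, h4⟩ := hl A hA
      exact h4.mono (Nat.le_floor h3) (Nat.le_floor h2))
  have h2 : ((2 : ℝ) ^ (c * ((N : ℝ) + 1))) ^ 2 ≤ (π.length : ℝ) ^ 2 := by
    have h3 : (2 : ℝ) ^ w ≤ (π.length : ℝ) ^ 2 := by exact_mod_cast hcore.le
    refine le_trans ?_ h3
    rw [← Real.rpow_natCast ((2 : ℝ) ^ (c * ((N : ℝ) + 1))) 2, ← Real.rpow_mul (by norm_num),
      ← Real.rpow_natCast 2 w]
    apply Real.rpow_le_rpow_of_exponent_le (by norm_num)
    push_cast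
    have : c * ((N : ℝ) + 1) ≤ c0 / 10 * ((N : ℝ) + 1) :=
      mul_le_mul_of_nonneg_right hcc0 (by positivity)
    have h5 : 0 ≤ c0 * ((N : ℝ) + 1) := by positivity
    linarith
  exact le_of_sq_le_sq h2 (Nat.cast_nonneg _)

/-- the set of the variables of a list of formulas -/
def varsL (F : List PForm) : Finset ℕ := F.foldr (fun A S => A.vars ∪ S) ∅

/-- the number of variables of a list of formulas -/
def nv (F : List PForm) : ℕ := (varsL F).card

theorem mem_varsL {F : List PForm} {n : ℕ} : n ∈ varsL F ↔ ∃ A ∈ F, n ∈ A.vars := by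
  induction F with
  | nil => simp [varsL]
  | cons A F ih =>
    unfold varsL at ih ⊢
    rw [List.foldr_cons, mem_union, ih]
    simp

section

variable {N D q : ℕ}

theorem card_var : Fintype.card (Ed N D × Fin q) = (N + 1) * (D + 1) * q := by
  rw [Fintype.card_prod, Fintype.card_sum, Fintype.card_prod, Fintype.card_fin, Fintype.card_fin,
    Fintype.card_fin]
  ring

theorem num_lt {P : Type} [Fintype P] (p : P) : num p < Fintype.card P :=
  (Fintype.equivFin P p).isLt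

theorem nv_le {F : List PForm} (h : ∀ A ∈ F, ∀ n ∈ A.vars, n < (N + 1) * (D + 1) * q) :
    nv F ≤ (N + 1) * (D + 1) * q := by
  unfold nv
  calc (varsL F).card ≤ (range ((N + 1) * (D + 1) * q)).card := by
        apply card_le_card
        intro n hn
        obtain ⟨A, hA, hn⟩ := mem_varsL.mp hn
        exact mem_range.mpr (h A hA n hn)
    _ = _ := card_range _

theorem nv_ge {F : List PForm} (h : ∀ (u : Fin (N + 1)) (i : Fin q), ∃ A ∈ F,
    num ((Sum.inl u, i) : Ed N D × Fin q) ∈ A.vars) : (N + 1) * q ≤ nv F := by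
  unfold nv
  calc (N + 1) * q = (univ : Finset (Fin (N + 1) × Fin q)).card := by
        rw [card_univ, Fintype.card_prod, Fintype.card_fin, Fintype.card_fin]
    _ ≤ (varsL F).card := by
        refine card_le_card_of_injOn
          (fun p => num ((Sum.inl p.1, p.2) : Ed N D × Fin q)) ?_ ?_
        · intro p _
          rw [mem_coe, mem_varsL]
          exact h p.1 p.2
        · intro p _ p' _ h
          have h2 := num_inj h
          have h3 := congrArg Prod.fst h2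
          have h4 := congrArg Prod.snd h2
          exact Prod.ext (Sum.inl.inj h3) h4

theorem mem_Uv_self (f : Fin (N + 1) × Fin D → Fin (N + 1)) (hN : 1 ≤ N) (u : Fin (N + 1))
    (i : Fin q) : ((Sum.inl u, i) : Ed N D × Fin q) ∈ Uv f q u := by
  simp only [Uv, mem_filter, mem_univ, true_and]
  refine Or.inl ⟨rfl, ?_⟩
  simp only [T9h49.RK.hd]
  intro h
  have h1 : (1 : Fin (N + 1)) = 0 := by
    have := congrArg (fun x => x - u) h
    simpa using this.symm
  obtain ⟨m, rfl⟩ : ∃ m, N = m + 1 := ⟨N - 1, by omega⟩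
  exact absurd h1 (by simp)

theorem mem_vars_bigOr {n : ℕ} : ∀ l : List PForm, l ≠ [] →
    (n ∈ (PForm.bigOr l).vars ↔ ∃ A ∈ l, n ∈ A.vars)
  | [], h => absurd rfl h
  | [A], _ => by simp [PForm.bigOr]
  | A :: B :: l, _ => by
      have ih := mem_vars_bigOr (n := n) (B :: l) (by simp)
      simp only [PForm.bigOr, PForm.vars, mem_union, ih]
      simp

theorem vars_lit {P : Type} [Fintype P] (T : Finset P) (p : P) : (lit T p).vars = {num p} := by
  unfold lit
  split <;> rfl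

theorem mem_vars_cl {P : Type} [Fintype P] {U T : Finset P} (hU : U.Nonempty) {n : ℕ} :
    n ∈ (cl U T).vars ↔ ∃ p ∈ U, n = num p := by
  unfold cl
  rw [mem_vars_bigOr _ (by
    simp only [ne_eq, List.map_eq_nil_iff, Finset.toList_eq_nil]
    exact hU.ne_empty)]
  constructor
  · rintro ⟨A, hA, hn⟩
    obtain ⟨p, hp, rfl⟩ := List.mem_map.mp hA
    rw [vars_lit, mem_singleton] at hn
    exact ⟨p, Finset.mem_toList.mp hp, hn⟩
  · rintro ⟨p, hp, rfl⟩
    refine ⟨_, List.mem_map_of_mem (Finset.mem_toList.mpr hp), ?_⟩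
    rw [vars_lit, mem_singleton]

theorem nv_tse_le (f : Fin (N + 1) × Fin D → Fin (N + 1)) (hN : 1 ≤ N) (hq : 1 ≤ q) :
    nv (tse f q) ≤ (N + 1) * (D + 1) * q := by
  apply nv_le
  intro A hA n hn
  obtain ⟨v, T, _, _, rfl⟩ := mem_tse.mp hA
  obtain ⟨p, _, rfl⟩ := (mem_vars_cl (Uv_nonempty f hq hN v)).mp hn
  rw [← card_var]
  exact num_lt p

theorem nv_tse_ge (f : Fin (N + 1) × Fin D → Fin (N + 1)) (hN : 1 ≤ N) (hq : 1 ≤ q) :
    (N + 1) * q ≤ nv (tse f q) := by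
  apply nv_ge (D := D)
  intro u i
  refine ⟨cl (Uv f q u) ∅, mem_tse.mpr ⟨u, ∅, by simp, by simp, rfl⟩, ?_⟩
  exact (mem_vars_cl (Uv_nonempty f hq hN u)).mpr ⟨_, mem_Uv_self f hN u i, rfl⟩

theorem tse_hF (f : Fin (N + 1) × Fin D → Fin (N + 1)) (hN : 1 ≤ N) (hq : 1 ≤ q) :
    ∀ A ∈ tse f q, ∃ v, ∀ x : Ed N D × Fin q → Bool, par (Inc f) v x = 1 →
      A.eval (T9h49.RK.ext x) = true := by
  intro A hA
  obtain ⟨v, T, hT, hE, rfl⟩ := mem_tse.mp hA
  exact ⟨v, fun x hx => cl_sound f hq hN v T hT hE x hx⟩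

theorem tse_size (f : Fin (N + 1) × Fin D → Fin (N + 1)) {Δ : ℕ} (hf : ∀ v, indeg f v ≤ Δ)
    (hN : 1 ≤ N) (hq : 1 ≤ q) :
    sizeL (tse f q) ≤ 3 * 4 ^ (q * (D + 2 + Δ)) * (N + 1) := by
  have h1 := tse_size_le f hq hN
  have h2 : (sizeL (tse f q) : ℝ) ≤ 3 * 4 ^ (q * (D + 2 + Δ)) * ((N : ℝ) + 1) := by
    refine h1.trans ?_
    calc 3 * (4 : ℝ) ^ (q * (D + 2)) * ∑ v, ((4 : ℝ) ^ q) ^ indeg f v
        ≤ 3 * (4 : ℝ) ^ (q * (D + 2)) * ∑ _v : Fin (N + 1), ((4 : ℝ) ^ q) ^ Δ := by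
          apply mul_le_mul_of_nonneg_left _ (by positivity)
          apply sum_le_sum
          intro v _
          exact pow_le_pow_right₀ (one_le_pow₀ (by norm_num)) (hf v)
      _ = 3 * 4 ^ (q * (D + 2 + Δ)) * ((N : ℝ) + 1) := by
          rw [sum_const, nsmul_eq_mul, card_univ, Fintype.card_fin]
          rw [show q * (D + 2 + Δ) = q * (D + 2) + q * Δ by ring, pow_add, pow_mul 4 q Δ]
          push_cast
          ring
  exact_mod_cast h2

end

end Pool.Agent.T9h82.SL
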