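import Pool.Agent.T9h82.SL.BCore

set_option autoImplicit false

/-!
# The weights
-/

namespace Pool.Agent.T9h82.SL

open Finset

/-- the weights -/
noncomputable def Yw (r1 : ℕ) (κ : ℝ) (m : ℕ) : ℝ :=
  2 / 5 * ∏ j ∈ Finset.Ioc r1 m, (1 - κ / j)

theorem Yw_rec {r1 : ℕ} {κ : ℝ} {m : ℕ} (h : r1 < m) :
    Yw r1 κ m = (1 - κ / m) * Yw r1 κ (m - 1) := by
  obtain ⟨n, rfl⟩ : ∃ n, m = n + 1 := ⟨m - 1, by omega⟩
  unfold Yw
  rw [Nat.add_sub_cancel, Finset.prod_Ioc_succ_top (by omega : r1 ≤ n)]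
  ring

theorem Yw_const {r1 : ℕ} {κ : ℝ} {m : ℕ} (h : m ≤ r1) : Yw r1 κ m = 2 / 5 := by
  unfold Yw
  rw [Finset.Ioc_eq_empty (by omega)]
  simp

theorem exists_params {δ : ℝ} (h0 : 0 < δ) (h1 : δ ≤ 1 / 2) :
    ∃ (r1 : ℕ) (τ C : ℝ) (Y : ℕ → ℝ), 0 < C ∧ Params r1 (3 / 2 - δ) τ Y ∧
      ∀ q : ℕ, 1 ≤ q → Y q * (q : ℝ) ^ (3 / 2 - δ) ≤ C := by
  set κ : ℝ := 3 / 2 - δ with hκ
  have hκ1 : 1 ≤ κ := by rw [hκ]; linarith
  obtain ⟨r1, hr1⟩ := exists_nat_ge (15 / (2 * δ) + 2)
  have hr2 : (2 : ℝ) ≤ r1 := by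
    have : 0 < 15 / (2 * δ) := by positivity
    linarith
  have hm : ∀ m : ℕ, r1 < m → 15 / (2 * δ) + 2 ≤ (m : ℝ) := by
    intro m hm
    have : (r1 : ℝ) < m := by exact_mod_cast hm
    linarith
  have hm2 : ∀ m : ℕ, r1 < m → (2 : ℝ) ≤ m := by
    intro m hm
    have : (r1 : ℝ) < m := by exact_mod_cast hm
    linarith
  have hfac : ∀ m : ℕ, r1 < m → 0 < 1 - κ / m := by
    intro m h
    have := hm2 m h
    rw [sub_pos, div_lt_one (by linarith)]
    rw [hκ]; linarith
  have hfac1 : ∀ m : ℕ, r1 < m → 1 - κ / m ≤ 1 := by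
    intro m h
    have := hm2 m h
    have : 0 ≤ κ / m := by positivity
    linarith
  refine ⟨r1, 2 / 5 * δ, 2 / 5 * (r1 : ℝ) ^ κ, Yw r1 κ, by positivity, ?_, ?_⟩
  · refine ⟨?_, by linarith, by rw [hκ]; linarith, by positivity, ?_, ?_, fun m h => Yw_const h,
      fun m h => Yw_rec h, ?_, ?_, ?_⟩
    · exact_mod_cast (by linarith : (1 : ℝ) ≤ r1)
    · intro m
      unfold Yw
      apply mul_pos (by norm_num)
      apply prod_pos
      intro j hj
      exact hfac j (Finset.mem_Ioc.mp hj).1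
    · intro m
      unfold Yw
      have : ∏ j ∈ Finset.Ioc r1 m, (1 - κ / j) ≤ 1 := by
        apply prod_le_one
        · intro j hj; exact (hfac j (Finset.mem_Ioc.mp hj).1).le
        · intro j hj; exact hfac1 j (Finset.mem_Ioc.mp hj).1
      linarith
    · intro m h
      have := hm2 m h
      rw [hκ]; linarith
    · intro m h
      have h2 := hm m h
      have h3 := hm2 m h
      have h4 : κ / m ≤ δ := by
        rw [div_le_iff₀ (by linarith)]
        have h5 : δ * (15 / (2 * δ) + 2) ≤ δ * m := mul_le_mul_of_nonneg_left h2 h0.le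
        have h6 : δ * (15 / (2 * δ) + 2) = 15 / 2 + 2 * δ := by
          field_simp
        rw [hκ]
        linarith
      rw [hκ] at h4 ⊢
      linarith
    · intro m h
      have h2 := hm m h
      have h3 := hm2 m h
      have h4 : 2 * Q m ≤ Real.exp ((1 - κ / m) * (2 / 5 * δ)) := by
        have h5 := Real.add_one_le_exp ((1 - κ / m) * (2 / 5 * δ))
        refine le_trans ?_ h5
        unfold Q
        have h6 : (2 : ℝ) * (1 / 2 + 3 / 2 / m) = 3 / m + 1 := by ring
        rw [h6]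
        have h7 : 3 / m ≤ (1 - κ / m) * (2 / 5 * δ) := by
          rw [div_le_iff₀ (by linarith)]
          have h8 : (1 - κ / m) * (2 / 5 * δ) * m = (m - κ) * (2 / 5 * δ) := by
            field_simp
          rw [h8]
          have h9 : (15 / (2 * δ) + 2 - κ) * (2 / 5 * δ) ≤ (m - κ) * (2 / 5 * δ) :=
            mul_le_mul_of_nonneg_right (by linarith) (by positivity)
          have h10 : (15 / (2 * δ) + 2 - κ) * (2 / 5 * δ) = 3 + (2 - κ) * (2 / 5 * δ) := by
            field_simp
            ring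
          have h11 : 0 ≤ (2 - κ) * (2 / 5 * δ) := by
            apply mul_nonneg
            · rw [hκ]; linarith
            · positivity
          linarith
        linarith
      have h12 := Real.exp_pos (-((1 - κ / m) * (2 / 5 * δ)))
      calc 2 * Q m * Real.exp (-((1 - κ / m) * (2 / 5 * δ)))
          ≤ Real.exp ((1 - κ / m) * (2 / 5 * δ)) * Real.exp (-((1 - κ / m) * (2 / 5 * δ))) :=
            mul_le_mul_of_nonneg_right h4 h12.le
        _ = 1 := by rw [← Real.exp_add]; simp
  · -- the bound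
    have hdec : ∀ m : ℕ, r1 ≤ m → Yw r1 κ m * (m : ℝ) ^ κ ≤ 2 / 5 * (r1 : ℝ) ^ κ := by
      intro m hm'
      induction m, hm' using Nat.le_induction with
      | base => rw [Yw_const (le_refl _)]
      | succ m hm' ih =>
        refine le_trans ?_ ih
        rw [Yw_rec (by omega), Nat.add_sub_cancel]
        have h3 : (2 : ℝ) ≤ m := hr2.trans (by exact_mod_cast hm')
        have h4 : (1 - κ / ((m + 1 : ℕ) : ℝ)) * ((m + 1 : ℕ) : ℝ) ^ κ ≤ (m : ℝ) ^ κ := by
          have h5 : 1 + κ * (-(1 / ((m : ℝ) + 1))) ≤ (1 + (-(1 / ((m : ℝ) + 1)))) ^ κ := by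
            apply one_add_mul_self_le_rpow_one_add _ hκ1
            rw [neg_le_neg_iff, div_le_one (by linarith)]
            linarith
          have h6 : (m : ℝ) = (1 + (-(1 / ((m : ℝ) + 1)))) * ((m : ℝ) + 1) := by
            field_simp
            ring
          have h7 : (m : ℝ) ^ κ = (1 + (-(1 / ((m : ℝ) + 1)))) ^ κ * ((m : ℝ) + 1) ^ κ := by
            rw [← Real.mul_rpow _ (by positivity), ← h6]
            have : 1 / ((m : ℝ) + 1) ≤ 1 := by
              rw [div_le_one (by linarith)]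
              linarith
            linarith
          rw [h7]
          push_cast
          apply mul_le_mul_of_nonneg_right _ (by positivity)
          refine le_trans (le_of_eq ?_) h5
          ring
        have hY : 0 ≤ Yw r1 κ m := by
          unfold Yw
          apply mul_nonneg (by norm_num)
          apply prod_nonneg
          intro j hj
          exact (hfac j (Finset.mem_Ioc.mp hj).1).le
        calc (1 - κ / ((m + 1 : ℕ) : ℝ)) * Yw r1 κ m * ((m + 1 : ℕ) : ℝ) ^ κ
            = Yw r1 κ m * ((1 - κ / ((m + 1 : ℕ) : ℝ)) * ((m + 1 : ℕ) : ℝ) ^ κ) := by ring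
          _ ≤ Yw r1 κ m * (m : ℝ) ^ κ := mul_le_mul_of_nonneg_left h4 hY
    intro q _
    rcases le_total r1 q with h | h
    · exact hdec q h
    · rw [Yw_const h]
      apply mul_le_mul_of_nonneg_left _ (by norm_num)
      apply Real.rpow_le_rpow (by positivity) (by exact_mod_cast h) (by linarith)

end Pool.Agent.T9h82.SL
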