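import Pool.Agent.T9h82.SL.BForm

set_option autoImplicit false
set_option linter.unusedSectionVars false
set_option linter.unusedSimpArgs false

/-!
# Query trees with formulas at the leaves, an adaptive potential
-/

namespace Pool.Agent.T9h82.SL

open Finset

variable {X : Type} [DecidableEq X]

/-- trees of queries with formulas at the leaves -/
inductive FT (X : Type) : Type where
  | leaf (r : Bool ⊕ NF X) : FT X
  | node (x : X) (t0 t1 : FT X) : FT X

def evF (a : X → Bool) : FT X → Bool
  | FT.leaf r => evalS a r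
  | FT.node x t0 t1 => if a x then evF a t1 else evF a t0

/-- the base of the potential of a leaf -/
noncomputable def lw (w : ℝ) (y : X → ℝ) : Bool ⊕ NF X → ℝ
  | Sum.inl _ => w - 1
  | Sum.inr A => w + A.ws y

noncomputable def pot (q y : X → ℝ) (w : ℝ) (th : ℕ) : FT X → ℝ
  | FT.leaf r => lw w y r ^ th
  | FT.node x t0 t1 => q x * (pot q y w th t0 + pot q y w th t1)

def res (x : X) (b : Bool) : FT X → FT X
  | FT.leaf r => FT.leaf (restrS x b r)
  | FT.node x' t0 t1 => if x' = x then (if b then t1 else t0)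
      else FT.node x' (res x b t0) (res x b t1)

def Valid : Finset X → FT X → Prop
  | V, FT.leaf r => ∀ z, multS z r ≠ 0 → z ∈ V
  | V, FT.node x t0 t1 => x ∈ V ∧ Valid (V.erase x) t0 ∧ Valid (V.erase x) t1

def LeafAll (P : Bool ⊕ NF X → Prop) : FT X → Prop
  | FT.leaf r => P r
  | FT.node _ t0 t1 => LeafAll P t0 ∧ LeafAll P t1

theorem LeafAll.imp {P Q : Bool ⊕ NF X → Prop} (h : ∀ r, P r → Q r) (t : FT X) :
    LeafAll P t → LeafAll Q t := by
  induction t with
  | leaf r => exact h r
  | node x t0 t1 ih0 ih1 => exact fun hp => ⟨ih0 hp.1, ih1 hp.2⟩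

theorem restrS_of_mult {x : X} {b : Bool} {r : Bool ⊕ NF X} (h : multS x r = 0) :
    restrS x b r = r := by
  rcases r with c | A
  · rfl
  · exact restr_of_mult h

theorem multS_restrS (x z : X) (b : Bool) (r : Bool ⊕ NF X) :
    multS z (restrS x b r) ≤ multS z r := by
  rcases r with c | A
  · exact le_refl _
  · exact mult_restr_le x z b A

theorem multS_restrS_self (x : X) (b : Bool) (r : Bool ⊕ NF X) :
    multS x (restrS x b r) = 0 := by
  rcases r with c | A
  · rfl
  · exact mult_restr_self x b A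

theorem evalS_restrS (a : X → Bool) (x : X) (b : Bool) (r : Bool ⊕ NF X) :
    evalS a (restrS x b r) = evalS (Function.update a x b) r := by
  rcases r with c | A
  · rfl
  · exact evalS_restr a x b A

theorem Valid.mono (t : FT X) : ∀ {V V' : Finset X}, Valid V t → V ⊆ V' → Valid V' t := by
  induction t with
  | leaf r => intro V V' h hV z hz; exact hV (h z hz)
  | node x t0 t1 ih0 ih1 =>
    intro V V' h hV
    exact ⟨hV h.1, ih0 h.2.1 (erase_subset_erase _ hV), ih1 h.2.2 (erase_subset_erase _ hV)⟩

theorem res_of_not_mem {x : X} {b : Bool} (t : FT X) : ∀ {V : Finset X}, Valid V t → x ∉ V →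
    res x b t = t := by
  induction t with
  | leaf r =>
    intro V hV hx
    have : multS x r = 0 := by
      by_contra h
      exact hx (hV x h)
    simp only [res, restrS_of_mult this]
  | node x' t0 t1 ih0 ih1 =>
    intro V hV hx
    obtain ⟨h1, h2, h3⟩ := hV
    have hne : x' ≠ x := by rintro rfl; exact hx h1
    have hx' : x ∉ V.erase x' := fun h => hx (mem_of_mem_erase h)
    simp only [res, if_neg hne, ih0 h2 hx', ih1 h3 hx']

theorem valid_res {x : X} {b : Bool} (t : FT X) : ∀ {V : Finset X}, Valid V t →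
    Valid (V.erase x) (res x b t) := by
  induction t with
  | leaf r =>
    intro V hV z hz
    have h1 := multS_restrS x z b r
    refine mem_erase.mpr ⟨?_, hV z (by omega)⟩
    rintro rfl
    exact hz (multS_restrS_self _ b r)
  | node x' t0 t1 ih0 ih1 =>
    intro V hV
    obtain ⟨h1, h2, h3⟩ := hV
    by_cases hx : x' = x
    · subst hx
      simp only [res, if_true]
      cases b
      · simpa using h2
      · simpa using h3
    · simp only [res, if_neg hx]
      refine ⟨mem_erase.mpr ⟨hx, h1⟩, ?_, ?_⟩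
      · rw [erase_right_comm]; exact ih0 h2
      · rw [erase_right_comm]; exact ih1 h3

theorem eval_congr (A : NF X) {a a' : X → Bool} (h : ∀ z, A.mult z ≠ 0 → a z = a' z) :
    A.eval a = A.eval a' := by
  induction A with
  | lit x b =>
    simp only [NF.eval]
    rw [h x (by simp [NF.mult])]
  | op c A B ihA ihB =>
    simp only [NF.eval]
    rw [ihA (fun z hz => h z (by rw [mult_op]; omega)),
      ihB (fun z hz => h z (by rw [mult_op]; omega))]

theorem evalS_congr (r : Bool ⊕ NF X) {a a' : X → Bool} (h : ∀ z, multS z r ≠ 0 → a z = a' z) :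
    evalS a r = evalS a' r := by
  rcases r with c | A
  · rfl
  · exact eval_congr A h

theorem evF_congr (t : FT X) : ∀ {V : Finset X}, Valid V t → ∀ {a a' : X → Bool},
    (∀ z ∈ V, a z = a' z) → evF a t = evF a' t := by
  induction t with
  | leaf r =>
    intro V hV a a' h
    exact evalS_congr r (fun z hz => h z (hV z hz))
  | node x t0 t1 ih0 ih1 =>
    intro V hV a a' h
    obtain ⟨h1, h2, h3⟩ := hV
    simp only [evF]
    rw [h x h1, ih0 h2 (fun z hz => h z (mem_of_mem_erase hz)),
      ih1 h3 (fun z hz => h z (mem_of_mem_erase hz))]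

theorem evF_res {x : X} {b : Bool} (a : X → Bool) (t : FT X) : ∀ {V : Finset X}, Valid V t →
    evF a (res x b t) = evF (Function.update a x b) t := by
  induction t with
  | leaf r => intro V _; exact evalS_restrS a x b r
  | node x' t0 t1 ih0 ih1 =>
    intro V hV
    obtain ⟨h1, h2, h3⟩ := hV
    by_cases hx : x' = x
    · subst hx
      simp only [res, if_true, evF, Function.update_self]
      have hc : ∀ z ∈ V.erase x', a z = Function.update a x' b z := by
        intro z hz
        rw [Function.update_of_ne (ne_of_mem_erase hz)]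
      cases b
      · simpa using evF_congr t0 h2 hc
      · simpa using evF_congr t1 h3 hc
    · simp only [res, if_neg hx, evF, ih0 h2, ih1 h3, Function.update_of_ne hx]

theorem lw_ge {w : ℝ} {y : X → ℝ} (hy : ∀ z, 0 ≤ y z) (r : Bool ⊕ NF X) : w - 1 ≤ lw w y r := by
  rcases r with c | A
  · exact le_refl _
  · have := ws_nonneg hy A
    simp only [lw]
    linarith

theorem lw_nonneg {w : ℝ} {y : X → ℝ} (hw : 1 ≤ w) (hy : ∀ z, 0 ≤ y z) (r : Bool ⊕ NF X) :
    0 ≤ lw w y r := by
  have := lw_ge (w := w) hy r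
  linarith

theorem lw_mono {w : ℝ} {y y' : X → ℝ} (hy : ∀ z, y z ≤ y' z) (r : Bool ⊕ NF X) :
    lw w y r ≤ lw w y' r := by
  rcases r with c | A
  · exact le_refl _
  · have := ws_mono hy A
    simp only [lw]
    linarith

theorem pot_nonneg {q y : X → ℝ} {w : ℝ} {th : ℕ} (hq : ∀ z, 0 ≤ q z) (hw : 1 ≤ w)
    (hy : ∀ z, 0 ≤ y z) (t : FT X) : 0 ≤ pot q y w th t := by
  induction t with
  | leaf r => exact pow_nonneg (lw_nonneg hw hy _) _
  | node x t0 t1 ih0 ih1 => exact mul_nonneg (hq x) (add_nonneg ih0 ih1)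

theorem pot_mono {q q' y y' : X → ℝ} {w : ℝ} {th : ℕ} (hq : ∀ z, 0 ≤ q z) (hqq : ∀ z, q z ≤ q' z)
    (hw : 1 ≤ w) (hy : ∀ z, 0 ≤ y z) (hyy : ∀ z, y z ≤ y' z) (t : FT X) :
    pot q y w th t ≤ pot q' y' w th t := by
  induction t with
  | leaf r => exact pow_le_pow_left₀ (lw_nonneg hw hy _) (lw_mono hyy _) _
  | node x t0 t1 ih0 ih1 =>
    simp only [pot]
    have h2 := pot_nonneg (th := th) hq hw hy t0
    have h3 := pot_nonneg (th := th) hq hw hy t1
    exact mul_le_mul (hqq x) (add_le_add ih0 ih1) (add_nonneg h2 h3) ((hq x).trans (hqq x))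

/-- the inequality for the leaves -/
def LeafIneq (C : Finset X) (y y' : X → ℝ) (w : ℝ) (th : ℕ) (r : Bool ⊕ NF X) : Prop :=
  ∑ x ∈ C, (lw w y' (restrS x false r) ^ th + lw w y' (restrS x true r) ^ th) ≤
    2 * (C.card : ℝ) * lw w y r ^ th

theorem tree_step {V0 C : Finset X} {q q' y y' : X → ℝ} {w : ℝ} {th : ℕ} (hw : 1 ≤ w)
    (hq0 : ∀ z, 0 ≤ q z) (hqC : ∀ x ∈ C, 1 / 2 ≤ q' x)
    (hqq : ∀ x ∈ C, 2 * (C.card : ℝ) * q x = 2 * C.card * q' x - 2 * q' x + 1)
    (hqn : ∀ x ∈ V0, x ∉ C → q' x = q x) (hqle : ∀ x, q x ≤ q' x)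
    (hy : ∀ z, 0 ≤ y z) (hyy : ∀ z, y z ≤ y' z) (t : FT X) :
    ∀ (V : Finset X), V ⊆ V0 → Valid V t → LeafAll (LeafIneq C y y' w th) t →
      ∑ x ∈ C, (pot q' y' w th (res x false t) + pot q' y' w th (res x true t)) ≤
      2 * (C.card : ℝ) * pot q y w th t := by
  induction t with
  | leaf r =>
    intro V _ _ h
    exact h
  | node x0 t0 t1 ih0 ih1 =>
    intro V hVV hval hlv
    obtain ⟨hx0, hv0, hv1⟩ := hval
    have I0 := ih0 (V.erase x0) ((erase_subset _ _).trans hVV) hv0 hlv.1
    have I1 := ih1 (V.erase x0) ((erase_subset _ _).trans hVV) hv1 hlv.2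
    by_cases hx0C : x0 ∈ C
    · have hn : x0 ∉ V.erase x0 := notMem_erase _ _
      rw [← add_sum_erase _ _ hx0C] at I0 I1 ⊢
      rw [res_of_not_mem t0 hv0 hn, res_of_not_mem t0 hv0 hn] at I0
      rw [res_of_not_mem t1 hv1 hn, res_of_not_mem t1 hv1 hn] at I1
      have e1 : pot q' y' w th (res x0 false (FT.node x0 t0 t1)) =
          pot q' y' w th t0 := by simp [res]
      have e2 : pot q' y' w th (res x0 true (FT.node x0 t0 t1)) =
          pot q' y' w th t1 := by simp [res]
      rw [e1, e2]
      have e3 : ∑ x ∈ C.erase x0, (pot q' y' w th (res x false (FT.node x0 t0 t1)) +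
          pot q' y' w th (res x true (FT.node x0 t0 t1))) =
          q' x0 * (∑ x ∈ C.erase x0, (pot q' y' w th (res x false t0) +
            pot q' y' w th (res x true t0))) +
          q' x0 * (∑ x ∈ C.erase x0, (pot q' y' w th (res x false t1) +
            pot q' y' w th (res x true t1))) := by
        rw [mul_sum, mul_sum, ← sum_add_distrib]
        apply sum_congr rfl
        intro x hx
        have hne : x0 ≠ x := (ne_of_mem_erase hx).symm
        simp only [res, if_neg hne, pot]
        ring
      rw [e3]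
      simp only [pot]
      have m0 := pot_mono (th := th) hq0 hqle hw hy hyy t0
      have m1 := pot_mono (th := th) hq0 hqle hw hy hyy t1
      set S0 := ∑ x ∈ C.erase x0, (pot q' y' w th (res x false t0) +
            pot q' y' w th (res x true t0))
      set S1 := ∑ x ∈ C.erase x0, (pot q' y' w th (res x false t1) +
            pot q' y' w th (res x true t1))
      set P0 := pot q' y' w th t0
      set P1 := pot q' y' w th t1
      set R0 := pot q y w th t0
      set R1 := pot q y w th t1
      have hqx := hqC x0 hx0C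
      have hc : 0 ≤ q' x0 := by linarith
      have a0 : q' x0 * S0 ≤ q' x0 * (2 * (C.card : ℝ) * R0 - (P0 + P0)) :=
        mul_le_mul_of_nonneg_left (by linarith) hc
      have a1 : q' x0 * S1 ≤ q' x0 * (2 * (C.card : ℝ) * R1 - (P1 + P1)) :=
        mul_le_mul_of_nonneg_left (by linarith) hc
      have b0 : 0 ≤ (2 * q' x0 - 1) * (P0 - R0) := mul_nonneg (by linarith) (by linarith)
      have b1 : 0 ≤ (2 * q' x0 - 1) * (P1 - R1) := mul_nonneg (by linarith) (by linarith)
      have c0 : 2 * (C.card : ℝ) * (q x0 * (R0 + R1)) =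
          (2 * C.card * q' x0 - 2 * q' x0 + 1) * (R0 + R1) := by rw [← hqq x0 hx0C]; ring
      rw [c0]
      nlinarith
    · have e3 : ∑ x ∈ C, (pot q' y' w th (res x false (FT.node x0 t0 t1)) +
          pot q' y' w th (res x true (FT.node x0 t0 t1))) =
          q x0 * (∑ x ∈ C, (pot q' y' w th (res x false t0) +
            pot q' y' w th (res x true t0))) +
          q x0 * (∑ x ∈ C, (pot q' y' w th (res x false t1) +
            pot q' y' w th (res x true t1))) := by
        rw [mul_sum, mul_sum, ← sum_add_distrib]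
        apply sum_congr rfl
        intro x hx
        have hne : x0 ≠ x := by rintro rfl; exact hx0C hx
        simp only [res, if_neg hne, pot, hqn x0 (hVV hx0) hx0C]
        ring
      rw [e3]
      simp only [pot]
      have h0 := hq0 x0
      have a0 := mul_le_mul_of_nonneg_left I0 h0
      have a1 := mul_le_mul_of_nonneg_left I1 h0
      nlinarith

theorem exp_neg_le {u : ℝ} (hu : 0 ≤ u) : Real.exp (-u) ≤ 1 - u + u ^ 2 / 2 := by
  have h1 := Real.quadratic_le_exp_of_nonneg hu
  rw [Real.exp_neg]
  have h2 : 0 < 1 + u + u ^ 2 / 2 := by positivity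
  calc (Real.exp u)⁻¹ ≤ (1 + u + u ^ 2 / 2)⁻¹ := inv_anti₀ h2 h1
    _ ≤ 1 - u + u ^ 2 / 2 := by
      rw [inv_le_iff_one_le_mul₀ h2]
      nlinarith [sq_nonneg (u ^ 2)]

/-- normal leaves in which all variables of `C` are light -/
def Light (C : Finset X) (y' : X → ℝ) (w : ℝ) (th : ℕ) (τ : ℝ) : Bool ⊕ NF X → Prop
  | Sum.inl _ => True
  | Sum.inr A => A.Normal ∧ ∀ x ∈ C, (th : ℝ) * y' x * A.mult x ≤ τ * (w + A.ws y')

theorem leaf_trivial [Fintype X] {C : Finset X} {y : X → ℝ} {w : ℝ} {th : ℕ} (hw : 1 ≤ w)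
    (hy : ∀ z, 0 ≤ y z) (r : Bool ⊕ NF X) : LeafIneq C y y w th r := by
  unfold LeafIneq
  have hb : ∀ x b, lw w y (restrS x b r) ^ th ≤ lw w y r ^ th := by
    intro x b
    apply pow_le_pow_left₀ (lw_nonneg hw hy _)
    rcases r with c | A
    · exact le_refl _
    · have h1 := ws_restr_le hy x b A
      have h2 : 0 ≤ y x * A.mult x := mul_nonneg (hy x) (Nat.cast_nonneg _)
      have h3 := ws_nonneg hy A
      show lw w y (restr x b A) ≤ w + A.ws y
      rcases hr : restr x b A with c | B
      · simp only [lw]; linarith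
      · rw [hr] at h1
        simp only [wsS] at h1
        simp only [lw]; linarith
  calc _ ≤ ∑ x ∈ C, (lw w y r ^ th + lw w y r ^ th) :=
        sum_le_sum (fun x _ => add_le_add (hb x false) (hb x true))
    _ = _ := by rw [sum_const, nsmul_eq_mul]; ring

/-- the weights: `y` before and `y'` after the choice of a variable of `C` -/
structure Wt (V C : Finset X) (y y' : X → ℝ) (y1 κ ρ : ℝ) : Prop where
  CV : C ⊆ V
  Cpos : 2 ≤ C.card
  y1pos : 0 < y1
  κ0 : 0 < κ
  κC : κ ≤ C.card
  rho : ρ = 1 - κ / C.card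
  onC : ∀ x ∈ C, y' x = y1 ∧ y x = ρ * y1
  offC : ∀ x ∈ V, x ∉ C → y' x = y x
  ypos : ∀ z, 0 ≤ y z
  yy : ∀ z, y z ≤ y' z
  ymin : ∀ z, ρ * y1 ≤ y' z

theorem Wt.rho_nonneg {V C : Finset X} {y y' : X → ℝ} {y1 κ ρ : ℝ} (W : Wt V C y y' y1 κ ρ) :
    0 ≤ ρ := by
  have h1 : (0 : ℝ) < C.card := by exact_mod_cast (by have := W.Cpos; omega : 0 < C.card)
  rw [W.rho, sub_nonneg, div_le_one h1]
  exact W.κC

theorem Wt.ws_diff [Fintype X] {V C : Finset X} {y y' : X → ℝ} {y1 κ ρ : ℝ}
    (W : Wt V C y y' y1 κ ρ) {A : NF X} (hA : ∀ z, A.mult z ≠ 0 → z ∈ V) :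
    A.ws y' - A.ws y = κ / C.card * (y1 * ∑ x ∈ C, (A.mult x : ℝ)) := by
  rw [ws_eq_sum, ws_eq_sum, ← sum_sub_distrib, mul_sum, mul_sum]
  have h1 : ∀ z ∉ C, y' z * (A.mult z : ℝ) - y z * A.mult z = 0 := by
    intro z hz
    by_cases hm : A.mult z = 0
    · rw [hm]; simp
    · rw [W.offC z (hA z hm) hz]; ring
  rw [← sum_subset (subset_univ C) (fun z _ hz => h1 z hz)]
  apply sum_congr rfl
  intro x hx
  obtain ⟨h2, h3⟩ := W.onC x hx
  rw [h2, h3, W.rho]
  ring

theorem leaf_shrink [Fintype X] {V C : Finset X} {y y' : X → ℝ} {y1 κ ρ τ w : ℝ} {th : ℕ}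
    (W : Wt V C y y' y1 κ ρ) (hw : 1 ≤ w) (hth : w = th) (hκy : κ * y1 ≤ 3 / 5)
    (hτ : 2 * κ ≤ 2 + ρ - 5 / 2 * τ) {r : Bool ⊕ NF X}
    (hr : ∀ z, multS z r ≠ 0 → z ∈ V) (hL : Light C y' w th τ r) :
    LeafIneq C y y' w th r := by
  have hm : (2 : ℝ) ≤ C.card := by exact_mod_cast W.Cpos
  have hm0 : (0 : ℝ) < C.card := by linarith
  have hy0 := W.ypos
  have hy'0 : ∀ z, 0 ≤ y' z := fun z => (W.ypos z).trans (W.yy z)
  have hρ0 := W.rho_nonneg
  have hy1 := W.y1pos
  have hκ0 := W.κ0
  rcases r with c | A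
  · -- constant
    unfold LeafIneq
    simp only [restrS, lw, sum_const, nsmul_eq_mul]
    apply le_of_eq
    ring
  obtain ⟨hn, hlight⟩ := hL
  have hr' : ∀ z, A.mult z ≠ 0 → z ∈ V := hr
  cases A with
  | lit x0 b0 =>
    by_cases hx0 : x0 ∈ C
    · unfold LeafIneq
      obtain ⟨e1, e2⟩ := W.onC x0 hx0
      rw [← add_sum_erase _ _ hx0]
      have h1 : ∀ x ∈ C.erase x0, (lw w y' (restrS x false (Sum.inr (NF.lit x0 b0))) ^ th +
          lw w y' (restrS x true (Sum.inr (NF.lit x0 b0))) ^ th) = 2 * (w + y1) ^ th := by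
        intro x hx
        have hne : x0 ≠ x := (ne_of_mem_erase hx).symm
        simp only [restrS, restr, if_neg hne, lw, NF.ws, e1]
        ring
      rw [sum_congr rfl h1, sum_const, nsmul_eq_mul]
      have h2 : ∀ b, lw w y' (restrS x0 b (Sum.inr (NF.lit x0 b0))) = w - 1 := by
        intro b
        simp [restrS, restr, lw]
      rw [h2, h2]
      have h3 : lw w y (Sum.inr (NF.lit x0 b0)) = w + ρ * y1 := by
        simp only [lw, NF.ws, e2]
      rw [h3]
      have hcard : ((C.erase x0).card : ℝ) = C.card - 1 := by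
        rw [card_erase_of_mem hx0, Nat.cast_sub (by have := W.Cpos; omega)]
        simp
      rw [hcard]
      set T := (w + y1) ^ th with hT
      have hTpos : 0 < T := by positivity
      have hwy : 0 < w + y1 := by linarith
      -- the constant
      have h4 : (w - 1) ^ th ≤ T * (2 / 5) := by
        have h5 : (w - 1) = (w + y1) * (1 - (1 + y1) / (w + y1)) := by
          field_simp
          ring
        have h6 : 1 - (1 + y1) / (w + y1) ≤ Real.exp (-((1 + y1) / (w + y1))) :=
          Real.one_sub_le_exp_neg _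
        have h7 : 0 ≤ 1 - (1 + y1) / (w + y1) := by
          rw [sub_nonneg, div_le_one hwy]
          linarith
        have h8 : (1 - (1 + y1) / (w + y1)) ^ th ≤ Real.exp (-1) := by
          calc (1 - (1 + y1) / (w + y1)) ^ th ≤ (Real.exp (-((1 + y1) / (w + y1)))) ^ th :=
                pow_le_pow_left₀ h7 h6 _
            _ = Real.exp (-(th * ((1 + y1) / (w + y1)))) := by
                rw [← Real.exp_nat_mul]; congr 1; ring
            _ ≤ Real.exp (-1) := by
                apply Real.exp_le_exp.mpr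
                rw [neg_le_neg_iff, ← hth, ← mul_div_assoc, le_div_iff₀ hwy]
                nlinarith
        have h9 : Real.exp (-1) ≤ 2 / 5 := by
          rw [Real.exp_neg]
          have := Real.exp_one_gt_d9
          rw [inv_le_comm₀ (by linarith) (by norm_num)]
          linarith
        rw [h5, mul_pow]
        exact mul_le_mul_of_nonneg_left (h8.trans h9) hTpos.le
      -- the other side
      have h10 : T * (1 - κ * y1 / C.card) ≤ (w + ρ * y1) ^ th := by
        have h11 : w + ρ * y1 = (w + y1) * (1 + -(κ * y1 / (C.card * (w + y1)))) := by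
          rw [W.rho]
          field_simp
          ring
        rw [h11, mul_pow]
        apply mul_le_mul_of_nonneg_left _ hTpos.le
        have h12 : κ * y1 / (C.card * (w + y1)) ≤ 2 := by
          rw [div_le_iff₀ (by positivity)]
          nlinarith
        refine le_trans ?_ (one_add_mul_le_pow (by linarith) th)
        rw [← hth]
        have h13 : w * (κ * y1 / (C.card * (w + y1))) ≤ κ * y1 / C.card := by
          rw [← mul_div_assoc, div_le_div_iff₀ (by positivity) hm0]
          have : w ≤ w + y1 := by linarith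
          have h14 : 0 ≤ κ * y1 * C.card := by positivity
          nlinarith
        linarith
      have h15 : 2 * (C.card : ℝ) * (T * (1 - κ * y1 / C.card)) = 2 * T * (C.card - κ * y1) := by
        field_simp
      have h16 := mul_le_mul_of_nonneg_left h10 (by positivity : (0 : ℝ) ≤ 2 * C.card)
      rw [h15] at h16
      refine le_trans ?_ h16
      nlinarith
    · unfold LeafIneq
      have h1 : ∀ x ∈ C, (lw w y' (restrS x false (Sum.inr (NF.lit x0 b0))) ^ th +
          lw w y' (restrS x true (Sum.inr (NF.lit x0 b0))) ^ th) =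
          2 * lw w y (Sum.inr (NF.lit x0 b0)) ^ th := by
        intro x hx
        have hne : x0 ≠ x := by rintro rfl; exact hx0 hx
        have hV : x0 ∈ V := hr' x0 (by simp [NF.mult])
        simp only [restrS, restr, if_neg hne, lw, NF.ws, W.offC x0 hV hx0]
        ring
      rw [sum_congr rfl h1, sum_const, nsmul_eq_mul]
      apply le_of_eq
      ring
  | op c A1 A2 =>
    set A := NF.op c A1 A2 with hA
    have hnl : ∀ x, ¬ A.IsLit x := by
      intro x
      rw [hA]
      simp [NF.IsLit]
    set X' : ℝ := w + A.ws y' with hX'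
    have hws' := ws_nonneg hy'0 A
    have hXpos : 0 < X' := by linarith
    set mC : ℝ := ∑ x ∈ C, (A.mult x : ℝ) with hmC
    have hdiff : lw w y (Sum.inr A) = X' - κ / C.card * (y1 * mC) := by
      have := W.ws_diff hr'
      rw [hX']
      simp only [lw]
      linarith
    -- one variable
    have hone : ∀ x ∈ C, ∀ b, lw w y' (restrS x b (Sum.inr A)) ^ th ≤
        X' ^ th * Real.exp (-(th * y1 * ((A.mult x : ℝ) + ρ * A.kill x b) / X')) := by
      intro x hx b
      obtain ⟨e1, e2⟩ := W.onC x hx
      have h3 := ws_restr_normal (mul_nonneg hρ0 hy1.le) W.ymin x b A hn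
      rw [e1] at h3
      have hell : lw w y' (restrS x b (Sum.inr A)) ≤
          X' - y1 * ((A.mult x : ℝ) + ρ * A.kill x b) := by
        show lw w y' (restr x b A) ≤ _
        rcases hres : restr x b A with c' | B
        · rw [hres] at h3
          simp only [wsS] at h3
          simp only [lw]
          rw [hX']
          linarith
        · rw [hres] at h3
          simp only [wsS] at h3
          simp only [lw]
          rw [hX']
          linarith
      have hell0 := lw_nonneg hw hy'0 (restrS x b (Sum.inr A))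
      calc lw w y' (restrS x b (Sum.inr A)) ^ th
          ≤ (X' - y1 * ((A.mult x : ℝ) + ρ * A.kill x b)) ^ th :=
            pow_le_pow_left₀ hell0 hell _
        _ = X' ^ th * (1 - y1 * ((A.mult x : ℝ) + ρ * A.kill x b) / X') ^ th := by
            rw [← mul_pow]
            congr 1
            field_simp
        _ ≤ X' ^ th * (Real.exp (-(y1 * ((A.mult x : ℝ) + ρ * A.kill x b) / X'))) ^ th := by
            apply mul_le_mul_of_nonneg_left _ (by positivity)
            apply pow_le_pow_left₀
            · rw [sub_nonneg, div_le_one hXpos]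
              linarith
            · exact Real.one_sub_le_exp_neg _
        _ = _ := by
            rw [← Real.exp_nat_mul]
            congr 2
            ring
    have hρ1 : ρ ≤ 1 := by
      rw [W.rho]
      have : 0 ≤ κ / C.card := by positivity
      linarith
    have htwo : ∀ x ∈ C, lw w y' (restrS x false (Sum.inr A)) ^ th +
        lw w y' (restrS x true (Sum.inr A)) ^ th ≤
        X' ^ th * (2 - 2 * κ * (th * y1 * (A.mult x : ℝ) / X')) := by
      intro x hx
      set t : ℝ := th * y1 * (A.mult x : ℝ) / X' with ht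
      set u0 : ℝ := th * y1 * ((A.mult x : ℝ) + ρ * A.kill x false) / X' with hu0
      set u1 : ℝ := th * y1 * ((A.mult x : ℝ) + ρ * A.kill x true) / X' with hu1
      have hk : (A.kill x true : ℝ) + A.kill x false = A.mult x := by
        exact_mod_cast (kill_sum x A).1 (hnl x)
      have hsum3 : u0 + u1 = (2 + ρ) * t := by
        rw [hu0, hu1, ht, ← add_div, ← mul_div_assoc]
        congr 1
        rw [← hk]
        ring
      have ht0 : 0 ≤ t := by positivity
      have h7 : 0 ≤ (th : ℝ) * y1 := by positivity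
      have hu0t : t ≤ u0 := by
        rw [hu0, ht]
        apply div_le_div_of_nonneg_right _ hXpos.le
        have : (0 : ℝ) ≤ ρ * A.kill x false := by positivity
        nlinarith
      have hu1t : t ≤ u1 := by
        rw [hu1, ht]
        apply div_le_div_of_nonneg_right _ hXpos.le
        have : (0 : ℝ) ≤ ρ * A.kill x true := by positivity
        nlinarith
      have htτ : t ≤ τ := by
        rw [ht, div_le_iff₀ hXpos]
        have := hlight x hx
        rw [(W.onC x hx).1] at this
        linarith
      have e0 := hone x hx false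
      have e1 := hone x hx true
      have f0 := exp_neg_le (u := u0) (by linarith)
      have f1 := exp_neg_le (u := u1) (by linarith)
      have hq : u0 ^ 2 + u1 ^ 2 ≤ 5 * t ^ 2 := by
        have hu1e : u1 = (2 + ρ) * t - u0 := by linarith
        have hu0l : u0 ≤ 2 * t := by nlinarith
        have hu1l : u1 ≤ 2 * t := by nlinarith
        have hs : u0 + u1 ≤ 3 * t := by nlinarith
        nlinarith [mul_nonneg (sub_nonneg.mpr hu0t) (sub_nonneg.mpr hu1t)]
      have hsumexp : Real.exp (-u0) + Real.exp (-u1) ≤ 2 - 2 * κ * t := by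
        have h8 : t ^ 2 ≤ τ * t := by nlinarith
        have h9 : 2 * κ * t ≤ (2 + ρ - 5 / 2 * τ) * t := mul_le_mul_of_nonneg_right hτ ht0
        nlinarith
      calc _ ≤ X' ^ th * Real.exp (-u0) + X' ^ th * Real.exp (-u1) := add_le_add e0 e1
        _ = X' ^ th * (Real.exp (-u0) + Real.exp (-u1)) := by ring
        _ ≤ _ := mul_le_mul_of_nonneg_left hsumexp (by positivity)
    unfold LeafIneq
    rw [hdiff]
    have hmCle : y1 * mC ≤ A.ws y' := by
      rw [ws_eq_sum, hmC, mul_sum]
      calc ∑ x ∈ C, y1 * (A.mult x : ℝ) = ∑ x ∈ C, y' x * (A.mult x : ℝ) :=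
            sum_congr rfl (fun x hx => by rw [(W.onC x hx).1])
        _ ≤ _ := sum_le_sum_of_subset_of_nonneg (subset_univ _)
            (fun z _ _ => mul_nonneg (hy'0 z) (Nat.cast_nonneg _))
    have hmC0 : 0 ≤ mC := by
      rw [hmC]
      exact sum_nonneg (fun _ _ => Nat.cast_nonneg _)
    calc _ ≤ ∑ x ∈ C, X' ^ th * (2 - 2 * κ * (th * y1 * (A.mult x : ℝ) / X')) :=
          sum_le_sum htwo
      _ = X' ^ th * (2 * C.card * (1 + th * (-(κ / C.card * (y1 * mC) / X')))) := by
          rw [← mul_sum]
          congr 1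
          rw [sum_sub_distrib, sum_const, nsmul_eq_mul, ← mul_sum, ← sum_div, ← mul_sum]
          rw [← hmC]
          field_simp
          ring
      _ ≤ X' ^ th * (2 * C.card * (1 + -(κ / C.card * (y1 * mC) / X')) ^ th) := by
          apply mul_le_mul_of_nonneg_left _ (by positivity)
          apply mul_le_mul_of_nonneg_left _ (by positivity)
          apply one_add_mul_le_pow
          have h10 : κ / C.card * (y1 * mC) / X' ≤ 2 := by
            rw [div_le_iff₀ hXpos]
            have h11 : κ / C.card ≤ 1 := by rw [div_le_one hm0]; exact W.κC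
            have h12 : 0 ≤ y1 * mC := by positivity
            nlinarith
          linarith
      _ = 2 * C.card * (X' * (1 + -(κ / C.card * (y1 * mC) / X'))) ^ th := by
          rw [mul_pow]; ring
      _ = _ := by
          congr 2
          field_simp
          ring

theorem refine_leaf [Fintype X] {V C : Finset X} {q y y' : X → ℝ} {y1 κ ρ τ w : ℝ} {th : ℕ}
    (W : Wt V C y y' y1 κ ρ) (hw : 1 ≤ w) (hτ : 0 ≤ τ) (hq0 : ∀ z, 0 ≤ q z)
    (href : ∀ x ∈ C, 2 * q x * Real.exp (-(ρ * τ)) ≤ 1) (n : ℕ) :
    ∀ (r : Bool ⊕ NF X) (V' : Finset X), sizeS r ≤ n → V' ⊆ V → (∀ z, multS z r ≠ 0 → z ∈ V') →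
      ∃ t, Valid V' t ∧ LeafAll (Light C y' w th τ) t ∧ (∀ a, evF a t = evalS a r) ∧
        pot q y w th t ≤ lw w y r ^ th := by
  have hρ0 := W.rho_nonneg
  have hy0 := W.ypos
  have hy1 := W.y1pos
  induction n with
  | zero =>
    intro r V' hs hV' hr
    rcases r with c | A
    · exact ⟨FT.leaf (Sum.inl c), hr, trivial, fun a => rfl, le_refl _⟩
    · have := one_le_size A
      simp only [sizeS] at hs
      omega
  | succ n ih =>
    intro r V' hs hV' hr
    rcases r with c | A0
    · exact ⟨FT.leaf (Sum.inl c), hr, trivial, fun a => rfl, le_refl _⟩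
    obtain ⟨r1, e1, z1, m1, n1⟩ := exists_normal_mult A0.size A0 (le_refl _)
    have hr1 : ∀ z, multS z r1 ≠ 0 → z ∈ V' := fun z hz => hr z (by
      have := m1 z
      show A0.mult z ≠ 0
      omega)
    rcases r1 with c | A
    · refine ⟨FT.leaf (Sum.inl c), hr1, trivial, fun a => e1 a, ?_⟩
      apply pow_le_pow_left₀ (lw_nonneg hw hy0 _)
      exact lw_ge hy0 _
    have hlw : lw w y (Sum.inr A) ≤ lw w y (Sum.inr A0) := by
      have h1 : wsS y (Sum.inr A) ≤ wsS y (Sum.inr A0) := wsS_le_of_mult hy0 m1
      simp only [wsS] at h1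
      simp only [lw]
      linarith
    have hlw' : lw w y (Sum.inr A) ^ th ≤ lw w y (Sum.inr A0) ^ th :=
      pow_le_pow_left₀ (lw_nonneg hw hy0 _) hlw _
    by_cases hL : Light C y' w th τ (Sum.inr A)
    · exact ⟨FT.leaf (Sum.inr A), hr1, hL, fun a => e1 a, hlw'⟩
    have h2 : ∃ x ∈ C, τ * (w + A.ws y') < (th : ℝ) * y' x * A.mult x := by
      by_contra hcon
      push Not at hcon
      exact hL ⟨n1, hcon⟩
    obtain ⟨x, hxC, hx⟩ := h2
    obtain ⟨e2, e3⟩ := W.onC x hxC
    rw [e2] at hx
    set X' : ℝ := w + A.ws y' with hX'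
    set X0 : ℝ := w + A.ws y with hX0
    have hX0pos : 0 < X0 := by
      have := ws_nonneg hy0 A
      linarith
    have hXX : X0 ≤ X' := by
      have := ws_mono W.yy A
      rw [hX', hX0]; linarith
    have hX'pos : 0 < X' := by linarith
    have hmu0 : A.mult x ≠ 0 := by
      intro h0
      rw [h0] at hx
      simp at hx
      nlinarith
    have hxV : x ∈ V' := hr1 x hmu0
    have hsz : ∀ b, sizeS (restr x b A) ≤ n := by
      intro b
      have h3 := size_restr_le x b A
      simp only [sizeS] at hs z1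
      omega
    have hval : ∀ b, ∀ z, multS z (restr x b A) ≠ 0 → z ∈ V'.erase x := by
      intro b z hz
      have h3 := mult_restr_le x z b A
      refine mem_erase.mpr ⟨?_, hr1 z (by show A.mult z ≠ 0; omega)⟩
      rintro rfl
      exact hz (mult_restr_self _ b A)
    obtain ⟨t0, v0, l0, ev0, p0⟩ := ih (restr x false A) (V'.erase x) (hsz false)
      ((erase_subset _ _).trans hV') (hval false)
    obtain ⟨t1, v1, l1, ev1, p1⟩ := ih (restr x true A) (V'.erase x) (hsz true)
      ((erase_subset _ _).trans hV') (hval true)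
    refine ⟨FT.node x t0 t1, ⟨hxV, v0, v1⟩, ⟨l0, l1⟩, fun a => ?_, ?_⟩
    · refine Eq.trans ?_ (e1 a)
      simp only [evF, ev0, ev1, evalS_restr]
      show _ = A.eval a
      by_cases hax : a x = true
      · rw [if_pos hax]
        congr 1
        rw [← hax, Function.update_eq_self]
      · rw [if_neg hax]
        congr 1
        have : a x = false := by simpa using hax
        rw [← this, Function.update_eq_self]
    refine le_trans ?_ hlw'
    have hell : ∀ b, lw w y (restr x b A) ^ th ≤ X0 ^ th * Real.exp (-(ρ * τ)) := by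
      intro b
      have h3 := ws_restr_le hy0 x b A
      rw [e3] at h3
      have h4 : lw w y (restr x b A) ≤ X0 - ρ * y1 * A.mult x := by
        rcases hres : restr x b A with c | B
        · rw [hres] at h3
          simp only [wsS] at h3
          simp only [lw]
          linarith
        · rw [hres] at h3
          simp only [wsS] at h3
          simp only [lw]
          linarith
      have h6 := lw_nonneg hw hy0 (restr x b A)
      calc lw w y (restr x b A) ^ th ≤ (X0 - ρ * y1 * A.mult x) ^ th :=
            pow_le_pow_left₀ h6 h4 _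
        _ = X0 ^ th * (1 - ρ * y1 * A.mult x / X0) ^ th := by
            rw [← mul_pow]
            congr 1
            field_simp
        _ ≤ X0 ^ th * (Real.exp (-(ρ * y1 * A.mult x / X0))) ^ th := by
            apply mul_le_mul_of_nonneg_left _ (by positivity)
            apply pow_le_pow_left₀
            · rw [sub_nonneg, div_le_one hX0pos]
              linarith
            · exact Real.one_sub_le_exp_neg _
        _ = X0 ^ th * Real.exp (-(th * (ρ * y1 * A.mult x / X0))) := by
            rw [← Real.exp_nat_mul]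
            congr 2
            ring
        _ ≤ _ := by
            apply mul_le_mul_of_nonneg_left _ (by positivity)
            apply Real.exp_le_exp.mpr
            have h7 : τ ≤ th * y1 * A.mult x / X' := by
              rw [le_div_iff₀ hX'pos]
              linarith
            have h8 : th * y1 * A.mult x / X' ≤ th * y1 * A.mult x / X0 :=
              div_le_div_of_nonneg_left (by positivity) hX0pos hXX
            have h9 : th * (ρ * y1 * A.mult x / X0) = ρ * (th * y1 * A.mult x / X0) := by
              ring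
            rw [h9]
            have h10 : ρ * τ ≤ ρ * (th * y1 * A.mult x / X0) :=
              mul_le_mul_of_nonneg_left (h7.trans h8) hρ0
            linarith
    have hells : lw w y (Sum.inr A) = X0 := rfl
    rw [hells]
    simp only [pot]
    have h11 := hell false
    have h12 := hell true
    calc q x * (pot q y w th t0 + pot q y w th t1)
        ≤ q x * (X0 ^ th * Real.exp (-(ρ * τ)) + X0 ^ th * Real.exp (-(ρ * τ))) :=
          mul_le_mul_of_nonneg_left (add_le_add (p0.trans h11) (p1.trans h12)) (hq0 x)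
      _ = X0 ^ th * (2 * q x * Real.exp (-(ρ * τ))) := by ring
      _ ≤ X0 ^ th * 1 := mul_le_mul_of_nonneg_left (href x hxC) (by positivity)
      _ = X0 ^ th := mul_one _

theorem refine_tree [Fintype X] {V C : Finset X} {q y y' : X → ℝ} {y1 κ ρ τ w : ℝ} {th : ℕ}
    (W : Wt V C y y' y1 κ ρ) (hw : 1 ≤ w) (hτ : 0 ≤ τ) (hq0 : ∀ z, 0 ≤ q z)
    (href : ∀ x ∈ C, 2 * q x * Real.exp (-(ρ * τ)) ≤ 1) (t : FT X) :
    ∀ (V' : Finset X), V' ⊆ V → Valid V' t →
      ∃ t', Valid V' t' ∧ LeafAll (Light C y' w th τ) t' ∧ (∀ a, evF a t' = evF a t) ∧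
        pot q y w th t' ≤ pot q y w th t := by
  induction t with
  | leaf r =>
    intro V' hV' hval
    exact refine_leaf W hw hτ hq0 href (sizeS r) r V' (le_refl _) hV' hval
  | node x t0 t1 ih0 ih1 =>
    intro V' hV' hval
    obtain ⟨hx, hv0, hv1⟩ := hval
    obtain ⟨t0', v0, l0, e0, p0⟩ := ih0 (V'.erase x) ((erase_subset _ _).trans hV') hv0
    obtain ⟨t1', v1, l1, e1, p1⟩ := ih1 (V'.erase x) ((erase_subset _ _).trans hV') hv1
    refine ⟨FT.node x t0' t1', ⟨hx, v0, v1⟩, ⟨l0, l1⟩, fun a => ?_,
      mul_le_mul_of_nonneg_left (add_le_add p0 p1) (hq0 x)⟩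
    simp only [evF, e0, e1]

end Pool.Agent.T9h82.SL
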