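import Pool.Agent.T9h82.SL.BPot

set_option autoImplicit false
set_option linter.unusedSectionVars false

/-!
# Choosing the restriction; decision trees
-/

namespace Pool.Agent.T9h82.SL

open Finset

variable {X E : Type} [DecidableEq X] [DecidableEq E]

/-- number of live variables of a block -/
def cnt (blk : X → E) (V : Finset X) (e : E) : ℕ := (V.filter (fun z => blk z = e)).card

theorem cnt_erase (blk : X → E) {V : Finset X} {x : X} (hx : x ∈ V) (e : E) :
    cnt blk (V.erase x) e = if e = blk x then cnt blk V e - 1 else cnt blk V e := by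
  unfold cnt
  rw [filter_erase]
  split_ifs with h
  · rw [card_erase_of_mem]
    rw [mem_filter]
    exact ⟨hx, h.symm⟩
  · rw [erase_eq_of_notMem]
    rw [mem_filter]
    exact fun h' => h h'.2.symm

/-- the weight of a query -/
noncomputable def Q (r : ℕ) : ℝ := 1 / 2 + (3 / 2) / r

theorem Q_ge (r : ℕ) : 1 / 2 ≤ Q r := by
  unfold Q
  have : (0 : ℝ) ≤ (3 / 2) / r := by positivity
  linarith

theorem Q_le {r : ℕ} (hr : 2 ≤ r) : Q r ≤ Q (r - 1) := by
  obtain ⟨s, rfl⟩ : ∃ s, r = s + 2 := ⟨r - 2, by omega⟩
  unfold Q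
  have : s + 2 - 1 = s + 1 := by omega
  rw [this]
  push_cast
  have : (3 / 2 : ℝ) / (s + 2) ≤ (3 / 2) / (s + 1) :=
    div_le_div_of_nonneg_left (by norm_num) (by positivity) (by linarith)
  linarith

theorem Q_rec {r : ℕ} (hr : 2 ≤ r) :
    2 * (r : ℝ) * Q r = 2 * r * Q (r - 1) - 2 * Q (r - 1) + 1 := by
  obtain ⟨s, rfl⟩ : ∃ s, r = s + 2 := ⟨r - 2, by omega⟩
  unfold Q
  have : s + 2 - 1 = s + 1 := by omega
  rw [this]
  push_cast
  field_simp
  ring

/-- the weights of the variables in the leaves -/
structure Params (r1 : ℕ) (κ τ : ℝ) (Y : ℕ → ℝ) : Prop where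
  r1pos : 1 ≤ r1
  κ0 : 0 < κ
  κ1 : κ ≤ 3 / 2
  τ0 : 0 ≤ τ
  Ypos : ∀ m, 0 < Y m
  Yle : ∀ m, Y m ≤ 2 / 5
  Yconst : ∀ m, m ≤ r1 → Y m = 2 / 5
  Yrec : ∀ m, r1 < m → Y m = (1 - κ / m) * Y (m - 1)
  κr : ∀ m : ℕ, r1 < m → κ ≤ m
  hτ : ∀ m : ℕ, r1 < m → 2 * κ ≤ 2 + (1 - κ / m) - 5 / 2 * τ
  ref : ∀ m : ℕ, r1 < m → 2 * Q m * Real.exp (-((1 - κ / m) * τ)) ≤ 1

theorem Params.Yanti {r1 : ℕ} {κ τ : ℝ} {Y : ℕ → ℝ} (P : Params r1 κ τ Y) : Antitone Y := by
  apply antitone_nat_of_succ_le
  intro m
  by_cases h : r1 < m + 1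
  · rw [P.Yrec (m + 1) h]
    have h1 := P.Ypos m
    have h2 := P.κ0
    have h3 : (0 : ℝ) ≤ κ / (m + 1 : ℕ) := by positivity
    simp only [Nat.add_sub_cancel]
    nlinarith
  · rw [P.Yconst (m + 1) (by omega), P.Yconst m (by omega)]

theorem step [Fintype X] {blk : X → E} {r1 : ℕ} {κ τ w : ℝ} {th : ℕ} {Y : ℕ → ℝ}
    (P : Params r1 κ τ Y) (hw : 1 ≤ w) (hth : w = th) {ι : Type} [Fintype ι] {V : Finset X} {e : E}
    (he : 2 ≤ cnt blk V e) (hmax : ∀ e', cnt blk V e' ≤ cnt blk V e) (t : ι → FT X)
    (hval : ∀ i, Valid V (t i)) :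
    ∃ x ∈ V, blk x = e ∧ ∃ b, ∃ t' : ι → FT X, (∀ i, Valid (V.erase x) (t' i)) ∧
      (∀ i a, evF a (t' i) = evF (Function.update a x b) (t i)) ∧
      ∑ i, pot (fun z => Q (cnt blk (V.erase x) (blk z))) (fun z => Y (cnt blk (V.erase x) (blk z)))
        w th (t' i) ≤
        ∑ i, pot (fun z => Q (cnt blk V (blk z))) (fun z => Y (cnt blk V (blk z))) w th (t i) := by
  classical
  set r := cnt blk V e with hr
  set C := V.filter (fun z => blk z = e) with hC
  have hCr : C.card = r := rfl
  set q : X → ℝ := fun z => Q (cnt blk V (blk z)) with hq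
  set y : X → ℝ := fun z => Y (cnt blk V (blk z)) with hy
  set q' : X → ℝ := fun z => if blk z = e then Q (r - 1) else Q (cnt blk V (blk z)) with hq'
  set y' : X → ℝ := fun z => if blk z = e then Y (r - 1) else Y (cnt blk V (blk z)) with hy'
  have hqe : ∀ x ∈ C, (fun z => Q (cnt blk (V.erase x) (blk z))) = q' := by
    intro x hx
    funext z
    rw [mem_filter] at hx
    simp only [hq']
    rw [cnt_erase blk hx.1, hx.2]
    by_cases h : blk z = e
    · simp [h, hr]
    · simp [h]
  have hye : ∀ x ∈ C, (fun z => Y (cnt blk (V.erase x) (blk z))) = y' := by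
    intro x hx
    funext z
    rw [mem_filter] at hx
    simp only [hy']
    rw [cnt_erase blk hx.1, hx.2]
    by_cases h : blk z = e
    · simp [h, hr]
    · simp [h]
  have hq0 : ∀ z, 0 ≤ q z := fun z => by
    have := Q_ge (cnt blk V (blk z))
    simp only [hq]; linarith
  have hy0 : ∀ z, 0 ≤ y z := fun z => (P.Ypos _).le
  have hyy : ∀ z, y z ≤ y' z := by
    intro z
    simp only [hy, hy']
    split_ifs with h
    · rw [h]; exact P.Yanti (by omega)
    · exact le_refl _
  have hqC : ∀ x ∈ C, 1 / 2 ≤ q' x := by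
    intro x hx
    rw [mem_filter] at hx
    simp only [hq', hx.2, if_true]
    exact Q_ge _
  have hqq : ∀ x ∈ C, 2 * (C.card : ℝ) * q x = 2 * C.card * q' x - 2 * q' x + 1 := by
    intro x hx
    rw [mem_filter] at hx
    simp only [hq', hq, hx.2, if_true, hCr, ← hr]
    exact Q_rec he
  have hqn : ∀ x ∈ V, x ∉ C → q' x = q x := by
    intro x hxV hx
    have h : blk x ≠ e := fun h => hx (mem_filter.mpr ⟨hxV, h⟩)
    simp only [hq', hq, if_neg h]
  have hqle : ∀ x, q x ≤ q' x := by
    intro x
    simp only [hq, hq']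
    split_ifs with h
    · rw [h]; exact Q_le he
    · exact le_refl _
  -- suitable trees
  have htree : ∃ t1 : ι → FT X, (∀ i, Valid V (t1 i)) ∧
      (∀ i, LeafAll (LeafIneq C y y' w th) (t1 i)) ∧ (∀ i a, evF a (t1 i) = evF a (t i)) ∧
      ∀ i, pot q y w th (t1 i) ≤ pot q y w th (t i) := by
    by_cases hm1 : r1 < r
    · have hρ : ∀ x ∈ C, y' x = Y (r - 1) ∧ y x = (1 - κ / r) * Y (r - 1) := by
        intro x hx
        rw [mem_filter] at hx
        simp only [hy', hy, hx.2, if_true, ← hr]
        exact ⟨trivial, P.Yrec r hm1⟩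
      have W : Wt V C y y' (Y (r - 1)) κ (1 - κ / r) :=
        { CV := filter_subset _ _
          Cpos := he
          y1pos := P.Ypos _
          κ0 := P.κ0
          κC := by rw [hCr]; exact P.κr r hm1
          rho := by rw [hCr]
          onC := hρ
          offC := by
            intro x hxV hx
            have h : blk x ≠ e := fun h => hx (mem_filter.mpr ⟨hxV, h⟩)
            simp only [hy', hy, if_neg h]
          ypos := hy0
          yy := hyy
          ymin := by
            intro z
            rw [← P.Yrec r hm1]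
            simp only [hy']
            split_ifs with h
            · exact P.Yanti (by omega)
            · exact P.Yanti (hmax _) }
      have href : ∀ x ∈ C, 2 * q x * Real.exp (-((1 - κ / r) * τ)) ≤ 1 := by
        intro x hx
        rw [mem_filter] at hx
        simp only [hq, hx.2, ← hr]
        exact P.ref r hm1
      have h := fun i => refine_tree (th := th) W hw P.τ0 hq0 href (t i) V (Subset.refl _) (hval i)
      choose t1 v1 l1 e1 p1 using h
      refine ⟨t1, v1, fun i => ?_, e1, p1⟩
      have hκy : κ * Y (r - 1) ≤ 3 / 5 := by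
        have h1 := P.Yle (r - 1)
        have h2 := P.κ1
        have h3 := P.κ0
        have h4 := P.Ypos (r - 1)
        nlinarith
      -- all leaves are valid
      have aux : ∀ (s : FT X) (V' : Finset X), V' ⊆ V → Valid V' s →
          LeafAll (Light C y' w th τ) s → LeafAll (LeafIneq C y y' w th) s := by
        intro s
        induction s with
        | leaf r' =>
          intro V' hV' hv hl
          exact leaf_shrink W hw hth hκy (P.hτ r hm1) (fun z hz => hV' (hv z hz)) hl
        | node x s0 s1 ih0 ih1 =>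
          intro V' hV' hv hl
          exact ⟨ih0 (V'.erase x) ((erase_subset _ _).trans hV') hv.2.1 hl.1,
            ih1 (V'.erase x) ((erase_subset _ _).trans hV') hv.2.2 hl.2⟩
      exact aux (t1 i) V (Subset.refl _) (v1 i) (l1 i)
    · have e1 : y = y' := by
        funext z
        simp only [hy, hy']
        split_ifs with h
        · rw [h, P.Yconst _ (by omega), P.Yconst _ (by omega)]
        · rfl
      refine ⟨t, hval, fun i => ?_, fun i a => rfl, fun i => le_refl _⟩
      rw [← e1]
      have aux : ∀ s : FT X, LeafAll (LeafIneq C y y w th) s := by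
        intro s
        induction s with
        | leaf r' => exact leaf_trivial hw hy0 r'
        | node x s0 s1 ih0 ih1 => exact ⟨ih0, ih1⟩
      exact aux (t i)
  obtain ⟨t1, v1, l1, e1, p1⟩ := htree
  have hstep := fun i => tree_step (V0 := V) (th := th) hw hq0 hqC hqq hqn hqle hy0 hyy (t1 i) V
    (Subset.refl _) (v1 i) (l1 i)
  have hCne : C.Nonempty := card_pos.mp (by omega)
  have hsumall : ∑ x ∈ C, (∑ i, pot q' y' w th (res x false (t1 i)) +
      ∑ i, pot q' y' w th (res x true (t1 i))) ≤
      ∑ _x ∈ C, (2 * ∑ i, pot q y w th (t i)) := by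
    have h1 : ∑ x ∈ C, (∑ i, pot q' y' w th (res x false (t1 i)) +
        ∑ i, pot q' y' w th (res x true (t1 i))) =
        ∑ i, ∑ x ∈ C, (pot q' y' w th (res x false (t1 i)) +
          pot q' y' w th (res x true (t1 i))) := by
      rw [sum_comm (s := univ)]
      apply sum_congr rfl
      intro x _
      rw [sum_add_distrib]
    rw [h1, sum_const, nsmul_eq_mul]
    have h2 : ∑ i, ∑ x ∈ C, (pot q' y' w th (res x false (t1 i)) +
          pot q' y' w th (res x true (t1 i))) ≤
        ∑ i, 2 * (C.card : ℝ) * pot q y w th (t i) := by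
      apply sum_le_sum
      intro i _
      refine (hstep i).trans ?_
      exact mul_le_mul_of_nonneg_left (p1 i) (by positivity)
    rw [← mul_sum] at h2
    linarith
  obtain ⟨x, hxC, hx⟩ := exists_le_of_sum_le hCne hsumall
  have hb : ∃ b, ∑ i, pot q' y' w th (res x b (t1 i)) ≤ ∑ i, pot q y w th (t i) := by
    by_contra hcon
    push Not at hcon
    have h1 := hcon false
    have h2 := hcon true
    linarith
  obtain ⟨b, hb⟩ := hb
  have hxC' := mem_filter.mp hxC
  refine ⟨x, hxC'.1, hxC'.2, b, fun i => res x b (t1 i), fun i => valid_res (t1 i) (v1 i),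
    fun i a => ?_, ?_⟩
  · rw [evF_res a (t1 i) (v1 i), e1]
  · rw [hqe x hxC, hye x hxC]
    exact hb

/-- the final restriction -/
theorem run [Fintype X] [Fintype E] {blk : X → E} {r1 : ℕ} {κ τ w : ℝ} {th : ℕ} {Y : ℕ → ℝ}
    (P : Params r1 κ τ Y) (hw : 1 ≤ w) (hth : w = th) {ι : Type} [Fintype ι] (n : ℕ) :
    ∀ (V : Finset X), V.card ≤ n → (∀ e, 1 ≤ cnt blk V e) → ∀ (t : ι → FT X),
      (∀ i, Valid V (t i)) →
      ∃ V' ⊆ V, (∀ e, cnt blk V' e = 1) ∧ ∃ (a0 : X → Bool) (t' : ι → FT X),
        (∀ i, Valid V' (t' i)) ∧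
        (∀ i a, evF a (t' i) = evF (fun z => if z ∈ V' then a z else a0 z) (t i)) ∧
        ∑ i, pot (fun _ => 2) (fun _ => 2 / 5) w th (t' i) ≤
          ∑ i, pot (fun z => Q (cnt blk V (blk z))) (fun z => Y (cnt blk V (blk z))) w th (t i) := by
  classical
  induction n with
  | zero =>
    intro V hV hc t hval
    by_cases hE : Nonempty E
    · obtain ⟨e⟩ := hE
      have h1 := hc e
      have h2 : cnt blk V e ≤ V.card := card_filter_le _ _
      omega
    · have hX : ∀ x : X, False := fun x => hE ⟨blk x⟩
      refine ⟨V, Subset.refl _, fun e => absurd ⟨e⟩ hE, fun _ => false, t, hval, ?_, ?_⟩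
      · intro i a
        congr 1
        funext z
        exact (hX z).elim
      · apply le_of_eq
        apply sum_congr rfl
        intro i _
        congr 1
        · funext z; exact (hX z).elim
        · funext z; exact (hX z).elim
  | succ n ih =>
    intro V hV hc t hval
    by_cases h1 : ∀ e, cnt blk V e = 1
    · refine ⟨V, Subset.refl _, h1, fun _ => false, t, hval, ?_, ?_⟩
      · intro i a
        apply evF_congr (t i) (hval i)
        intro z hz
        simp [hz]
      · have e1 : (fun z => Q (cnt blk V (blk z))) = fun _ => 2 := by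
          funext z
          rw [h1]
          unfold Q
          norm_num
        have e2 : (fun z => Y (cnt blk V (blk z))) = fun _ => 2 / 5 := by
          funext z
          rw [h1]
          exact P.Yconst 1 P.r1pos
        rw [e1, e2]
    · push Not at h1
      obtain ⟨e0, he0⟩ := h1
      obtain ⟨e, _, hmax⟩ := exists_max_image univ (fun e => cnt blk V e) ⟨e0, mem_univ _⟩
      have he2 : 2 ≤ cnt blk V e := by
        have h2 := hmax e0 (mem_univ _)
        have h3 := hc e0
        omega
      obtain ⟨x, hxV, hxe, b, t1, hv1, he1, hp1⟩ := step P hw hth he2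
        (fun e' => hmax e' (mem_univ _)) t hval
      have hc' : ∀ e', 1 ≤ cnt blk (V.erase x) e' := by
        intro e'
        rw [cnt_erase blk hxV]
        split_ifs with h
        · rw [h, hxe]; omega
        · exact hc e'
      obtain ⟨V', hV', hcV', a0, t', hv', he', hp'⟩ := ih (V.erase x)
        (by rw [card_erase_of_mem hxV]; omega) hc' t1 hv1
      refine ⟨V', hV'.trans (erase_subset _ _), hcV', Function.update a0 x b, t', hv', ?_,
        hp'.trans hp1⟩
      intro i a
      rw [he', he1]
      congr 1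
      funext z
      have hxV' : x ∉ V' := fun h => (notMem_erase x V) (hV' h)
      by_cases hz : z = x
      · subst hz
        simp [hxV']
      · simp [Function.update_of_ne hz]

/-- decision trees of depth `d` -/
inductive DT : ℕ → ((X → Bool) → Bool) → Prop
  | const (d : ℕ) (g : (X → Bool) → Bool) (c : Bool) (h : ∀ a, g a = c) : DT d g
  | query (d : ℕ) (g : (X → Bool) → Bool) (x : X) (h0 : DT d (fun a => g (Function.update a x false)))
      (h1 : DT d (fun a => g (Function.update a x true))) : DT (d + 1) g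

theorem DT.mono {d : ℕ} {g : (X → Bool) → Bool} (h : DT d g) : ∀ {d' : ℕ}, d ≤ d' → DT d' g := by
  induction h with
  | const d g c h => intro d' _; exact DT.const d' g c h
  | query d g x h0 h1 ih0 ih1 =>
    intro d' hd
    obtain ⟨e, rfl⟩ : ∃ e, d' = e + 1 := ⟨d' - 1, by omega⟩
    exact DT.query e g x (ih0 (by omega)) (ih1 (by omega))

theorem exists_mult (A : NF X) : ∃ x, 1 ≤ A.mult x := by
  induction A with
  | lit x b => exact ⟨x, by simp [NF.mult]⟩
  | op c A B ihA _ =>
    obtain ⟨x, hx⟩ := ihA
    exact ⟨x, by rw [mult_op]; omega⟩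

theorem dt_of_size (n : ℕ) : ∀ r : Bool ⊕ NF X, sizeS r ≤ n → DT n (fun a => evalS a r) := by
  induction n with
  | zero =>
    intro r hs
    rcases r with c | A
    · exact DT.const _ _ c (fun a => rfl)
    · have := one_le_size A
      have h3 : sizeS (Sum.inr A : Bool ⊕ NF X) = A.size := rfl
      omega
  | succ n ih =>
    intro r hs
    rcases r with c | A
    · exact DT.const _ _ c (fun a => rfl)
    · obtain ⟨x, hx⟩ := exists_mult A
      have h3 : sizeS (Sum.inr A : Bool ⊕ NF X) = A.size := rfl
      have hb : ∀ b, DT n (fun a => evalS (Function.update a x b) (Sum.inr A : Bool ⊕ NF X)) := by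
        intro b
        have h4 := ih (restr x b A) (by
          have := size_restr_le x b A
          omega)
        simp only [evalS_restr] at h4
        exact h4
      exact DT.query n _ x (hb false) (hb true)

theorem ws_const (c : ℝ) (A : NF X) : A.ws (fun _ => c) = c * A.size := by
  induction A with
  | lit x b => simp [NF.ws, NF.size]
  | op _ A B ihA ihB =>
    simp only [NF.ws, NF.size, ihA, ihB]
    push_cast
    ring

theorem pot_ge {w : ℝ} {th : ℕ} (hw : 1 ≤ w) (t : FT X) :
    (w - 1) ^ th ≤ pot (fun _ => 2) (fun _ => 2 / 5) w th t := by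
  have h0 : 0 ≤ (w - 1) ^ th := pow_nonneg (by linarith) _
  induction t with
  | leaf r => exact pow_le_pow_left₀ (by linarith) (lw_ge (fun _ => by norm_num) _) _
  | node x t0 t1 ih0 ih1 =>
    simp only [pot]
    linarith

theorem dt_of_pot {w B : ℝ} {th S : ℕ} (hw : 1 < w)
    (hS : ∀ s : ℕ, (w + 2 / 5 * s) ^ th ≤ B → s ≤ S) (t : FT X) :
    ∀ (V : Finset X), Valid V t → ∀ (j : ℕ),
      pot (fun _ => 2) (fun _ => 2 / 5) w th t ≤ 2 ^ j * (w - 1) ^ th →
      pot (fun _ => 2) (fun _ => 2 / 5) w th t ≤ B → DT (j + S) (fun a => evF a t) := by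
  have h0 : 0 < (w - 1) ^ th := pow_pos (by linarith) _
  induction t with
  | leaf r =>
    intro V _ j _ hB
    rcases r with c | A
    · exact DT.const _ _ c (fun a => rfl)
    · have h1 : A.size ≤ S := by
        apply hS
        simp only [pot, lw] at hB
        rwa [ws_const] at hB
      exact (dt_of_size S (Sum.inr A) h1).mono (by omega)
  | node x t0 t1 ih0 ih1 =>
    intro V hval j hj hB
    obtain ⟨hx, hv0, hv1⟩ := hval
    simp only [pot] at hj hB
    have g0 := pot_ge (th := th) hw.le t0
    have g1 := pot_ge (th := th) hw.le t1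
    obtain ⟨i, rfl⟩ : ∃ i, j = i + 1 := by
      rcases j with _ | i
      · rw [pow_zero, one_mul] at hj
        linarith
      · exact ⟨i, rfl⟩
    rw [pow_succ] at hj
    have e : i + 1 + S = (i + S) + 1 := by ring
    rw [e]
    have hc : ∀ (b : Bool) (a : X → Bool), ∀ z ∈ V.erase x, Function.update a x b z = a z := by
      intro b a z hz
      rw [Function.update_of_ne (ne_of_mem_erase hz)]
    refine DT.query _ _ x ?_ ?_
    · have e1 : (fun a => evF (Function.update a x false) (FT.node x t0 t1)) =
          fun a => evF a t0 := by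
        funext a
        simp only [evF, Function.update_self]
        rw [if_neg (by simp)]
        exact evF_congr t0 hv0 (hc false a)
      rw [e1]
      refine ih0 _ hv0 i ?_ ?_
      · linarith
      · linarith
    · have e1 : (fun a => evF (Function.update a x true) (FT.node x t0 t1)) =
          fun a => evF a t1 := by
        funext a
        simp only [evF, Function.update_self, if_true]
        exact evF_congr t1 hv1 (hc true a)
      rw [e1]
      refine ih1 _ hv1 i ?_ ?_
      · linarith
      · linarith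

end Pool.Agent.T9h82.SL
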