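import Mathlib

set_option autoImplicit false
set_option linter.unusedSectionVars false
set_option linter.unusedSimpArgs false

/-!
# Formulas in negation normal form, restrictions, Subbotovskaya's argument for one variable
-/

namespace Pool.Agent.T9h82.SL

/-- formulas in negation normal form without constants: `op true` is the conjunction, `op false` the
disjunction -/
inductive NF (X : Type) : Type where
  | lit (x : X) (b : Bool) : NF X
  | op (c : Bool) (A B : NF X) : NF X

variable {X : Type} [DecidableEq X]

namespace NF

def eval (a : X → Bool) : NF X → Bool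
  | lit x b => a x == b
  | op c A B => if eval a A = c then eval a B else !c

def size : NF X → ℕ
  | lit _ _ => 1
  | op _ A B => size A + size B

def mult (x : X) : NF X → ℕ
  | lit x' _ => if x' = x then 1 else 0
  | op _ A B => mult x A + mult x B

def IsLit (x : X) : NF X → Prop
  | lit x' _ => x' = x
  | op _ _ _ => False

/-- a literal of `x` which becomes the controlling value `!c` if `x := b` -/
def killLit (x : X) (b c : Bool) : NF X → ℕ
  | lit x' b' => if x' = x ∧ (b == b') = !c then 1 else 0
  | op _ _ _ => 0

def kill (x : X) (b : Bool) : NF X → ℕ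
  | lit _ _ => 0
  | op c A B => killLit x b c A + killLit x b c B + kill x b A + kill x b B

def Normal : NF X → Prop
  | lit _ _ => True
  | op _ A B => (∀ x, IsLit x A → mult x B = 0) ∧ (∀ x, IsLit x B → mult x A = 0) ∧
      Normal A ∧ Normal B

end NF

open NF

def evalS (a : X → Bool) : Bool ⊕ NF X → Bool
  | Sum.inl b => b
  | Sum.inr A => A.eval a

def sizeS : Bool ⊕ NF X → ℕ
  | Sum.inl _ => 0
  | Sum.inr A => A.size

def NormalS : Bool ⊕ NF X → Prop
  | Sum.inl _ => True
  | Sum.inr A => A.Normal

def comb (c : Bool) : Bool ⊕ NF X → Bool ⊕ NF X → Bool ⊕ NF X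
  | Sum.inl b, r => if b = c then r else Sum.inl (!c)
  | Sum.inr A, Sum.inl b => if b = c then Sum.inr A else Sum.inl (!c)
  | Sum.inr A, Sum.inr B => Sum.inr (NF.op c A B)

theorem evalS_comb (a : X → Bool) (c : Bool) (r s : Bool ⊕ NF X) :
    evalS a (comb c r s) = if evalS a r = c then evalS a s else !c := by
  rcases r with b | A <;> rcases s with b' | B
  · simp only [comb, evalS]; split_ifs <;> simp [evalS]
  · simp only [comb, evalS]; split_ifs <;> simp [evalS]
  · simp only [comb, evalS]
    cases c <;> cases b' <;> cases h : A.eval a <;> simp [evalS, h]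
  · simp only [comb, evalS, NF.eval]

theorem sizeS_comb (c : Bool) (r s : Bool ⊕ NF X) :
    sizeS (comb c r s) ≤ sizeS r + sizeS s := by
  rcases r with b | A <;> rcases s with b' | B <;> simp only [comb] <;>
    (try split_ifs) <;> simp [sizeS, NF.size]

def restr (x : X) (b : Bool) : NF X → Bool ⊕ NF X
  | NF.lit x' b' => if x' = x then Sum.inl (b == b') else Sum.inr (NF.lit x' b')
  | NF.op c A B => comb c (restr x b A) (restr x b B)

theorem evalS_restr (a : X → Bool) (x : X) (b : Bool) (A : NF X) :
    evalS a (restr x b A) = A.eval (Function.update a x b) := by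
  induction A with
  | lit x' b' =>
    by_cases h : x' = x
    · subst h; simp [restr, evalS, NF.eval]
    · simp [restr, h, evalS, NF.eval, Function.update_of_ne h]
  | op c A B ihA ihB =>
    simp only [restr, evalS_comb, ihA, ihB, NF.eval]

theorem one_le_size (A : NF X) : 1 ≤ A.size := by
  induction A with
  | lit => exact le_refl _
  | op c A B ihA ihB => simp only [NF.size]; omega

theorem size_restr_le (x : X) (b : Bool) (A : NF X) :
    sizeS (restr x b A) + A.mult x ≤ A.size := by
  induction A with
  | lit x' b' =>
    by_cases h : x' = x
    · subst h; simp [restr, sizeS, NF.mult, NF.size]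
    · simp [restr, h, sizeS, NF.mult, NF.size]
  | op c A B ihA ihB =>
    have := sizeS_comb c (restr x b A) (restr x b B)
    simp only [restr, NF.mult, NF.size]
    omega

theorem kill_op (x : X) (b c : Bool) (A B : NF X) : (NF.op c A B).kill x b =
    A.killLit x b c + B.killLit x b c + A.kill x b + B.kill x b := rfl

theorem kill_lit (x x' : X) (b b' : Bool) : (NF.lit x' b').kill x b = 0 := rfl

theorem mult_op (x : X) (c : Bool) (A B : NF X) : (NF.op c A B).mult x = A.mult x + B.mult x := rfl

theorem size_op (c : Bool) (A B : NF X) : (NF.op c A B).size = A.size + B.size := rfl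

theorem killLit_op (x : X) (b c c' : Bool) (A B : NF X) : (NF.op c A B).killLit x b c' = 0 := rfl

theorem killLit_lit (x x' : X) (b c b' : Bool) :
    (NF.lit x' b').killLit x b c = if x' = x ∧ (b == b') = !c then 1 else 0 := rfl

theorem killLit_of_not {x : X} {b c : Bool} {A : NF X} (h : ¬ A.IsLit x) :
    A.killLit x b c = 0 := by
  cases A with
  | lit x' b' =>
    simp only [NF.IsLit] at h
    simp [NF.killLit, h]
  | op => rfl

theorem kill_le_mult (x : X) (b : Bool) (A : NF X) : A.kill x b ≤ A.mult x := by
  suffices h : ∀ A : NF X, A.kill x b ≤ A.mult x ∧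
      ∀ c, A.killLit x b c + A.kill x b ≤ A.mult x from (h A).1
  intro A
  induction A with
  | lit x' b' =>
    refine ⟨by simp [NF.kill], fun c => ?_⟩
    simp only [NF.killLit, NF.kill, NF.mult]
    split_ifs <;> simp_all
  | op c A B ihA ihB =>
    have h1 := ihA.2 c
    have h2 := ihB.2 c
    refine ⟨?_, fun c' => ?_⟩
    · rw [kill_op, mult_op]; omega
    · rw [kill_op, mult_op, killLit_op]; omega

theorem kill_of_mult {x : X} {b : Bool} {A : NF X} (h : A.mult x = 0) : A.kill x b = 0 := by
  have := kill_le_mult x b A
  omega

theorem size_restr_normal (x : X) (b : Bool) (A : NF X) (hA : A.Normal) :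
    sizeS (restr x b A) + A.mult x + A.kill x b ≤ A.size := by
  induction A with
  | lit x' b' =>
    have := size_restr_le x b (NF.lit x' b')
    simpa [NF.kill] using this
  | op c A B ihA ihB =>
    obtain ⟨h1, h2, hAn, hBn⟩ := hA
    have iA := ihA hAn
    have iB := ihB hBn
    have sA := one_le_size A
    have sB := one_le_size B
    by_cases cA : A.IsLit x
    · have mB := h1 x cA
      have kB : B.kill x b = 0 := kill_of_mult mB
      have kB' : B.killLit x b c = 0 := by
        apply killLit_of_not
        intro hB
        cases B with
        | lit x' b' => simp only [NF.IsLit] at hB; simp [NF.mult, hB] at mB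
        | op => exact hB
      cases A with
      | op => exact absurd cA (by simp [NF.IsLit])
      | lit x' b' =>
        simp only [NF.IsLit] at cA
        subst cA
        have rB := size_restr_le x' b B
        rw [kill_op, mult_op, size_op, kill_lit, killLit_lit]
        have hm1 : (NF.lit x' b').mult x' = 1 := by simp [NF.mult]
        have hs1 : (NF.lit x' b' : NF X).size = 1 := rfl
        simp only [restr, if_true, comb, true_and]
        by_cases hc : (b == b') = c
        · have : ¬ ((b == b') = !c) := by rw [hc]; cases c <;> simp
          rw [if_pos hc, if_neg this]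
          omega
        · have : ((b == b') = !c) := by
            revert hc; cases (b == b') <;> cases c <;> simp
          rw [if_neg hc, if_pos this]
          have h0 : sizeS (Sum.inl (!c) : Bool ⊕ NF X) = 0 := rfl
          omega
    · by_cases cB : B.IsLit x
      · have mA := h2 x cB
        have kA : A.kill x b = 0 := kill_of_mult mA
        have kA' : A.killLit x b c = 0 := killLit_of_not cA
        cases B with
        | op => exact absurd cB (by simp [NF.IsLit])
        | lit x' b' =>
          simp only [NF.IsLit] at cB
          subst cB
          have rA := size_restr_le x' b A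
          have hR : restr x' b (NF.lit x' b') = Sum.inl (b == b') := by simp [restr]
          have hm1 : (NF.lit x' b').mult x' = 1 := by simp [NF.mult]
          have hs1 : (NF.lit x' b' : NF X).size = 1 := rfl
          rw [kill_op, mult_op, size_op, kill_lit, killLit_lit]
          simp only [true_and]
          rw [show restr x' b (NF.op c A (NF.lit x' b')) =
            comb c (restr x' b A) (restr x' b (NF.lit x' b')) from rfl, hR]
          by_cases hc : (b == b') = c
          · have : ¬ ((b == b') = !c) := by rw [hc]; cases c <;> simp
            have e1 := sizeS_comb c (restr x' b A) (Sum.inl (b == b'))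
            have e3 : sizeS (Sum.inl (b == b') : Bool ⊕ NF X) = 0 := rfl
            rw [if_neg this]
            omega
          · have h3 : ((b == b') = !c) := by
              revert hc; cases (b == b') <;> cases c <;> simp
            rw [if_pos h3]
            have e2 : sizeS (comb c (restr x' b A) (Sum.inl (b == b'))) = 0 := by
              rcases hr : restr x' b A with b1 | A1
              · simp only [comb]
                split_ifs <;> simp [sizeS]
              · simp only [comb]
                rw [if_neg hc]
                simp [sizeS]
            omega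
      · have kA' : A.killLit x b c = 0 := killLit_of_not cA
        have kB' : B.killLit x b c = 0 := killLit_of_not cB
        have := sizeS_comb c (restr x b A) (restr x b B)
        rw [kill_op, mult_op, size_op]
        rw [show restr x b (NF.op c A B) = comb c (restr x b A) (restr x b B) from rfl]
        omega

theorem kill_sum (x : X) (A : NF X) :
    (¬ A.IsLit x → A.kill x true + A.kill x false = A.mult x) ∧
    ∀ c, A.killLit x true c + A.killLit x false c + A.kill x true + A.kill x false =
      A.mult x := by
  induction A with
  | lit x' b' =>
    refine ⟨fun h => ?_, fun c => ?_⟩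
    · simp only [NF.IsLit] at h
      simp [NF.kill, NF.mult, h]
    · simp only [NF.killLit, NF.kill, NF.mult]
      by_cases h : x' = x
      · cases b' <;> cases c <;> simp [h]
      · simp [h]
  | op c A B ihA ihB =>
    have h1 := ihA.2 c
    have h2 := ihB.2 c
    refine ⟨fun _ => ?_, fun c' => ?_⟩
    · rw [kill_op, kill_op, mult_op]; omega
    · rw [kill_op, kill_op, mult_op, killLit_op, killLit_op]; omega

theorem sum_mult [Fintype X] (A : NF X) : ∑ x, A.mult x = A.size := by
  induction A with
  | lit x' b' => simp [NF.mult, NF.size]
  | op c A B ihA ihB => simp only [NF.mult, NF.size, Finset.sum_add_distrib, ihA, ihB]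

theorem exists_normal (n : ℕ) : ∀ A : NF X, A.size ≤ n →
    ∃ r : Bool ⊕ NF X, (∀ a, evalS a r = A.eval a) ∧ sizeS r ≤ A.size ∧ NormalS r := by
  induction n with
  | zero =>
    intro A hA
    have := one_le_size A
    omega
  | succ n ih =>
    intro A hA
    cases A with
    | lit x b => exact ⟨Sum.inr (NF.lit x b), fun a => rfl, le_refl _, trivial⟩
    | op c A B =>
      simp only [NF.size] at hA
      have sA := one_le_size A
      have sB := one_le_size B
      obtain ⟨rA, eA, zA, nA⟩ := ih A (by omega)
      obtain ⟨rB, eB, zB, nB⟩ := ih B (by omega)
      have ev : ∀ a, evalS a (comb c rA rB) = (NF.op c A B).eval a := by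
        intro a
        rw [evalS_comb, eA, eB]
        rfl
      rcases rA with bA | A'
      · refine ⟨comb c (Sum.inl bA) rB, ev, ?_, ?_⟩
        · have := sizeS_comb c (Sum.inl bA) rB
          simp only [NF.size]; omega
        · simp only [comb]; split_ifs
          · exact nB
          · trivial
      rcases rB with bB | B'
      · refine ⟨comb c (Sum.inr A') (Sum.inl bB), ev, ?_, ?_⟩
        · have := sizeS_comb c (Sum.inr A') (Sum.inl bB)
          simp only [NF.size]; omega
        · simp only [comb]; split_ifs
          · exact nA
          · trivial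
      simp only [sizeS] at zA zB
      -- a smaller formula gives the claim
      have small : ∀ r : Bool ⊕ NF X, (∀ a, evalS a r = (NF.op c A B).eval a) →
          sizeS r < A'.size + B'.size → ∃ r : Bool ⊕ NF X,
            (∀ a, evalS a r = (NF.op c A B).eval a) ∧ sizeS r ≤ (NF.op c A B).size ∧
            NormalS r := by
        intro r hr hs
        rcases r with b | R
        · exact ⟨Sum.inl b, hr, by simp [sizeS], trivial⟩
        · simp only [sizeS] at hs
          obtain ⟨r', e', z', n'⟩ := ih R (by omega)
          refine ⟨r', fun a => (e' a).trans (hr a), ?_, n'⟩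
          simp only [NF.size]; omega
      by_cases h1 : ∃ x, A'.IsLit x ∧ B'.mult x ≠ 0
      · obtain ⟨x, hx, hm⟩ := h1
        cases A' with
        | op => exact absurd hx (by simp [NF.IsLit])
        | lit x' b' =>
          simp only [NF.IsLit] at hx
          subst hx
          set b0 : Bool := if c then b' else !b' with hb0
          apply small (comb c (Sum.inr (NF.lit x' b')) (restr x' b0 B'))
          · intro a
            rw [evalS_comb, evalS_restr, ← ev a]
            simp only [comb, evalS, NF.eval]
            by_cases h2 : (a x' == b') = c
            · rw [if_pos h2, if_pos h2]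
              congr 1
              funext z
              by_cases hz : z = x'
              · subst hz
                rw [Function.update_self]
                revert h2
                rw [hb0]
                cases c <;> cases b' <;> cases a z <;> simp
              · rw [Function.update_of_ne hz]
            · rw [if_neg h2, if_neg h2]
          · have e1 := sizeS_comb c (Sum.inr (NF.lit x' b')) (restr x' b0 B')
            have e2 := size_restr_le x' b0 B'
            have e3 : sizeS (Sum.inr (NF.lit x' b') : Bool ⊕ NF X) = 1 := rfl
            have e4 : (NF.lit x' b' : NF X).size = 1 := rfl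
            omega
      by_cases h2 : ∃ x, B'.IsLit x ∧ A'.mult x ≠ 0
      · obtain ⟨x, hx, hm⟩ := h2
        cases B' with
        | op => exact absurd hx (by simp [NF.IsLit])
        | lit x' b' =>
          simp only [NF.IsLit] at hx
          subst hx
          set b0 : Bool := if c then b' else !b' with hb0
          apply small (comb c (restr x' b0 A') (Sum.inr (NF.lit x' b')))
          · intro a
            rw [evalS_comb, evalS_restr, ← ev a]
            simp only [comb, evalS, NF.eval]
            by_cases h3 : (a x' == b') = c
            · have : Function.update a x' b0 = a := by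
                funext z
                by_cases hz : z = x'
                · subst hz
                  rw [Function.update_self]
                  revert h3
                  rw [hb0]
                  cases c <;> cases b' <;> cases a z <;> simp
                · rw [Function.update_of_ne hz]
              rw [this]
            · have h4 : (a x' == b') = !c := by
                revert h3; cases (a x' == b') <;> cases c <;> simp
              rw [h4]
              simp
          · have e1 := sizeS_comb c (restr x' b0 A') (Sum.inr (NF.lit x' b'))
            have e2 := size_restr_le x' b0 A'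
            have e3 : sizeS (Sum.inr (NF.lit x' b') : Bool ⊕ NF X) = 1 := rfl
            have e4 : (NF.lit x' b' : NF X).size = 1 := rfl
            omega
      push Not at h1 h2
      refine ⟨Sum.inr (NF.op c A' B'), ev, ?_, h1, h2, nA, nB⟩
      simp only [sizeS, NF.size]; omega

/-- `g` has a formula of size at most `s` -/
def Cx (g : (X → Bool) → Bool) (s : ℕ) : Prop :=
  ∃ r : Bool ⊕ NF X, (∀ a, evalS a r = g a) ∧ sizeS r ≤ s

/-- the restriction of the function `g` -/
def rs (x : X) (b : Bool) (g : (X → Bool) → Bool) : (X → Bool) → Bool :=
  fun a => g (Function.update a x b)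

/-- the formula size -/
noncomputable def sig (g : (X → Bool) → Bool) : ℕ := sInf {s | Cx g s}

theorem cx_sig {g : (X → Bool) → Bool} (h : ∃ s, Cx g s) : Cx g (sig g) := Nat.sInf_mem h

theorem sig_le {g : (X → Bool) → Bool} {s : ℕ} (h : Cx g s) : sig g ≤ s := Nat.sInf_le h

theorem Cx.rs {g : (X → Bool) → Bool} {s : ℕ} (h : Cx g s) (x : X) (b : Bool) :
    Cx (rs x b g) s := by
  obtain ⟨r, h1, h2⟩ := h
  rcases r with c | A
  · exact ⟨Sum.inl c, fun a => h1 (Function.update a x b), h2⟩
  · refine ⟨restr x b A, fun a => ?_, ?_⟩
    · rw [evalS_restr]; exact h1 _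
    · have := size_restr_le x b A
      have h3 : sizeS (Sum.inr A : Bool ⊕ NF X) = A.size := rfl
      omega

theorem sig_rs_le {g : (X → Bool) → Bool} (h : ∃ s, Cx g s) (x : X) (b : Bool) :
    sig (rs x b g) ≤ sig g := sig_le ((cx_sig h).rs x b)

theorem const_of_sig {g : (X → Bool) → Bool} (h : ∃ s, Cx g s) (h0 : sig g = 0) :
    ∃ b, ∀ a, g a = b := by
  obtain ⟨r, h1, h2⟩ := cx_sig h
  rw [h0] at h2
  rcases r with c | A
  · exact ⟨c, fun a => (h1 a).symm⟩
  · have := one_le_size A
    simp only [sizeS] at h2
    omega

/-- a minimal normal formula -/
theorem exists_min {g : (X → Bool) → Bool} (h : ∃ s, Cx g s) (h1 : 1 ≤ sig g) :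
    ∃ A : NF X, A.Normal ∧ A.size = sig g ∧ ∀ a, A.eval a = g a := by
  obtain ⟨r, hr, hs⟩ := cx_sig h
  rcases r with c | A
  · have : sig g ≤ 0 := sig_le ⟨Sum.inl c, hr, by simp [sizeS]⟩
    omega
  obtain ⟨r', e', z', n'⟩ := exists_normal A.size A (le_refl _)
  rcases r' with c | B
  · have : sig g ≤ 0 := sig_le ⟨Sum.inl c, fun a => (e' a).trans (hr a), by simp [sizeS]⟩
    omega
  · have e2 : ∀ a, B.eval a = g a := fun a => (e' a).trans (hr a)
    refine ⟨B, n', ?_, e2⟩
    have h3 : sig g ≤ B.size := sig_le ⟨Sum.inr B, e2, le_refl _⟩
    simp only [sizeS] at z' hs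
    omega

/-- **Subbotovskaya's argument for one variable.** -/
theorem exists_mu [Fintype X] {g : (X → Bool) → Bool} (h : ∃ s, Cx g s) (h2 : 2 ≤ sig g) :
    ∃ (mu : X → ℕ) (kk : X → Bool → ℕ), ∑ x, mu x = sig g ∧
      (∀ x, kk x true + kk x false = mu x) ∧
      ∀ x b, sig (rs x b g) + mu x + kk x b ≤ sig g := by
  obtain ⟨A, hn, hs, he⟩ := exists_min h (by omega)
  refine ⟨fun x => A.mult x, fun x b => A.kill x b, by rw [sum_mult, hs], fun x => ?_,
    fun x b => ?_⟩
  · apply (kill_sum x A).1
    cases A with
    | lit => simp only [NF.size] at hs; omega
    | op => simp [NF.IsLit]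
  · have h3 := size_restr_normal x b A hn
    have h4 : sig (rs x b g) ≤ sizeS (restr x b A) :=
      sig_le ⟨restr x b A, fun a => by rw [evalS_restr, he]; rfl, le_refl _⟩
    show sig (rs x b g) + A.mult x + A.kill x b ≤ sig g
    omega

end Pool.Agent.T9h82.SL
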